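import Pool.Agent.U896.SC.P3
import Pool.Agent.U896.SW.Weak2

/-!
# Forms in a prescribed class: mollification of weak pairs
-/

set_option autoImplicit false

open Set Filter Topology MeasureTheory
open scoped Manifold ContDiff ENNReal

noncomputable section

namespace Pool.Agent.U896.SC

open Pool.Agent.Y501.SY (E Moll S_SM JJ1)
open Pool.Agent.Y515.SY
open Pool.Agent.Y710.SY
open Pool.Agent.U896
open Pool.Agent.U896.SE hiding sq aff_null
open Pool.Agent.U896.SW

variable {d : ℕ}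

/-- the mollification -/
def mo1 (ρ : E d → ℝ) (Φ : E d → Al d 1) : E d → Al d 1 := JJ1 ρ (fun _ => 1) Φ

theorem mo1_smooth {ρ : E d → ℝ} {ε : ℝ} (hρ : Moll ε ρ) {Φ : E d → Al d 1} (hΦ : Integrable Φ)
    (p : E d) : ContDiffAt ℝ ∞ (mo1 ρ Φ) p :=
  JJ1_smooth' (χ := fun _ => 1) contDiff_const one_pos hρ.smooth (moll_cs hρ) hΦ

theorem mo1_apply {ρ : E d → ℝ} {ε : ℝ} (hρ : Moll ε ρ) {Φ : E d → Al d 1} (hΦ : Integrable Φ)
    (p v : E d) : mo1 ρ Φ p ![v] = ∫ q, ρ (q - p) * Φ q ![v] := by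
  have h1 := JJ1_apply' (χ := fun _ => 1) (p := p) hρ.smooth.continuous (moll_cs hρ) hΦ one_pos v
  have h2 : ∀ u : E d, fderiv ℝ (fun _ : E d => (1 : ℝ)) p u = 0 := by
    intro u
    rw [(hasFDerivAt_const (1 : ℝ) p).fderiv]
    rfl
  have h3 : ∀ y : E d, ρ y * Φ (p + (1 : ℝ) • y) ![v + fderiv ℝ (fun _ : E d => (1 : ℝ)) p v • y] =
      (fun q => ρ (q - p) * Φ q ![v]) (p + y) := by
    intro y
    rw [h2, zero_smul, add_zero, one_smul]
    simp only [add_sub_cancel_left]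
  unfold mo1
  rw [h1]
  simp_rw [h3]
  exact integral_add_left_eq_self (fun q => ρ (q - p) * Φ q ![v]) p

theorem comp_id1 (η : Al d 1) (y : E d) : η.compContinuousLinearMap (LL 0 y) = η :=
  Pool.Agent.Y972.SY.comp_id1 η y

theorem mo1_eq {ρ : E d → ℝ} (Φ : E d → Al d 1) (p : E d) :
    mo1 ρ Φ p = ∫ y, ρ y • Φ (p + y) := by
  unfold mo1 JJ1
  refine integral_congr_ae (Eventually.of_forall fun y => ?_)
  dsimp only
  have h1 : fderiv ℝ (fun _ : E d => (1 : ℝ)) p = 0 := (hasFDerivAt_const (1 : ℝ) p).fderiv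
  rw [h1, comp_id1, one_smul]

theorem mo1_near {ρ : E d → ℝ} {ε : ℝ} (hρ : Moll ε ρ) {g : E d → Al d 1} (hg : Integrable g)
    {p : E d} {b : ℝ} (hb : ∀ y, ‖y‖ ≤ ε → ‖g (p + y) - g p‖ ≤ b) : ‖mo1 ρ g p - g p‖ ≤ b := by
  have hi1 : Integrable (fun y => ρ y • g (p + y)) := by
    have h1 := JJ1_int' (χ := fun _ => 1) (p := p) hρ.smooth.continuous (moll_cs hρ) hg one_pos
    refine h1.congr (Eventually.of_forall fun y => ?_)
    dsimp only
    have h2 : fderiv ℝ (fun _ : E d => (1 : ℝ)) p = 0 := (hasFDerivAt_const (1 : ℝ) p).fderiv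
    rw [h2, comp_id1, one_smul]
  have hi2 : Integrable (fun y => ρ y • g p) := (moll_int hρ).smul_const _
  have h1 : mo1 ρ g p - g p = ∫ y, ρ y • (g (p + y) - g p) := by
    have h2 : g p = ∫ y, ρ y • g p := by rw [integral_smul_const, hρ.int, one_smul]
    have h3 : mo1 ρ g p - g p = (∫ y, ρ y • g (p + y)) - ∫ y, ρ y • g p := by
      rw [mo1_eq, ← h2]
    rw [h3, ← integral_sub hi1 hi2]
    refine integral_congr_ae (Eventually.of_forall fun y => ?_)
    exact (smul_sub _ _ _).symm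
  rw [h1]
  have h2 : ∫ y, ρ y * b = b := by rw [integral_mul_const, hρ.int, one_mul]
  rw [← h2]
  refine norm_integral_le_of_norm_le ((moll_int hρ).mul_const b) (Eventually.of_forall fun y => ?_)
  rw [norm_smul, Real.norm_of_nonneg (hρ.nonneg y)]
  by_cases hy : ‖y‖ ≤ ε
  · exact mul_le_mul_of_nonneg_left (hb y hy) (hρ.nonneg y)
  · rw [hρ.supp y (not_le.1 hy).le, zero_mul, zero_mul]

/-- the mollifications converge in `L¹` on balls -/
theorem mo1_L1 {Φ : E d → Al d 1} (hΦ : Integrable Φ) (p₀ : E d) {R : ℝ} {δ : ℝ} (hδ : 0 < δ) :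
    ∃ ε₀ : ℝ, 0 < ε₀ ∧ ∀ (ε : ℝ) (ρ : E d → ℝ), 0 < ε → ε ≤ ε₀ → Moll ε ρ →
      ∫⁻ p in Metric.ball p₀ R, ‖Φ p - mo1 ρ Φ p‖ₑ ≤ ENNReal.ofReal δ := by
  have hδ₁ : ENNReal.ofReal (δ / 20) ≠ 0 := by
    rw [Ne, ENNReal.ofReal_eq_zero, not_le]
    positivity
  obtain ⟨g, hgc, hg1, hgco, hgi⟩ := hΦ.exists_hasCompactSupport_lintegral_sub_le hδ₁
  obtain ⟨B, hB⟩ : ∃ B : ℝ, B = (volume (Metric.ball p₀ R)).toReal := ⟨_, rfl⟩
  have hB0 : 0 ≤ B := by rw [hB]; exact ENNReal.toReal_nonneg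
  obtain ⟨δ₂, hδ₂⟩ : ∃ δ₂ : ℝ, δ₂ = δ / (2 * (B + 1)) := ⟨_, rfl⟩
  have hδ₂0 : 0 < δ₂ := by rw [hδ₂]; positivity
  obtain ⟨r, hr, hr'⟩ := Metric.uniformContinuousOn_iff.1
    ((isCompact_closedBall p₀ (R + 1)).uniformContinuousOn_of_continuous hgco.continuousOn)
    δ₂ hδ₂0
  obtain ⟨θ, hθ, hdet⟩ := det_near (d := d)
  refine ⟨min 1 (r / 2), lt_min one_pos (by positivity), ?_⟩
  intro ε ρ hε hεε hρ
  have hε1 : ε ≤ 1 := hεε.trans (min_le_left _ _)
  have hε2 : ε ≤ r / 2 := hεε.trans (min_le_right _ _)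
  have h1 : ∀ p ∈ Metric.ball p₀ R, ‖g p - mo1 ρ g p‖ₑ ≤ ENNReal.ofReal δ₂ := by
    intro p hp
    rw [← ofReal_norm, norm_sub_rev]
    refine ENNReal.ofReal_le_ofReal (mo1_near hρ hgi fun y hy => ?_)
    rw [Metric.mem_ball] at hp
    have h2 : dist (p + y) p₀ ≤ R + 1 := by
      have h3 : dist (p + y) p = ‖y‖ := by rw [dist_eq_norm, add_sub_cancel_left]
      have h4 := dist_triangle (p + y) p p₀
      linarith
    have h3 := hr' (p + y) h2 p (by
      rw [Metric.mem_closedBall]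
      linarith) (by
      rw [dist_eq_norm, add_sub_cancel_left]
      linarith)
    rw [dist_eq_norm] at h3
    exact h3.le
  have h2 : ∫⁻ p in Metric.ball p₀ R, ‖mo1 ρ g p - mo1 ρ Φ p‖ₑ ≤ 8 * ENNReal.ofReal (δ / 20) := by
    have h3 := JJ1_L1 (χ := fun _ => 1) (D := 0) (θ := θ) (B := Metric.ball p₀ R) (O := univ)
      hε.le hρ contDiff_const (fun _ => Or.inl one_pos)
      (fun p => by rw [(hasFDerivAt_const (1 : ℝ) p).fderiv, norm_zero]) (by linarith)
      (by linarith) hdet Metric.isOpen_ball (fun _ _ _ _ => mem_univ _) hgi hΦ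
    rw [setLIntegral_univ] at h3
    have h4 : ∫⁻ p, ‖g p - Φ p‖ₑ = ∫⁻ p, ‖Φ p - g p‖ₑ := by
      refine lintegral_congr fun p => ?_
      rw [← ofReal_norm, ← ofReal_norm, norm_sub_rev]
    rw [h4] at h3
    refine h3.trans ?_
    gcongr
  have hm1 : AEMeasurable (fun p => ‖Φ p - g p‖ₑ) (volume.restrict (Metric.ball p₀ R)) :=
    ((hΦ.aestronglyMeasurable.sub hgi.aestronglyMeasurable).enorm).restrict
  have hm2 : AEMeasurable (fun p => ‖g p - mo1 ρ g p‖ₑ) (volume.restrict (Metric.ball p₀ R)) := by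
    have h3 : Continuous (mo1 ρ g) := continuous_iff_continuousAt.2 fun p =>
      (mo1_smooth hρ hgi p).continuousAt
    exact ((hgco.sub h3).enorm).measurable.aemeasurable
  calc ∫⁻ p in Metric.ball p₀ R, ‖Φ p - mo1 ρ Φ p‖ₑ
      ≤ ∫⁻ p in Metric.ball p₀ R, ((‖Φ p - g p‖ₑ + ‖g p - mo1 ρ g p‖ₑ) +
          ‖mo1 ρ g p - mo1 ρ Φ p‖ₑ) := by
        refine lintegral_mono fun p => ?_
        rw [← ofReal_norm, ← ofReal_norm, ← ofReal_norm, ← ofReal_norm,
          ← ENNReal.ofReal_add (norm_nonneg _) (norm_nonneg _),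
          ← ENNReal.ofReal_add (by positivity) (norm_nonneg _)]
        refine ENNReal.ofReal_le_ofReal ?_
        have h5 : Φ p - mo1 ρ Φ p = (Φ p - g p) + (g p - mo1 ρ g p) +
            (mo1 ρ g p - mo1 ρ Φ p) := by
          abel
        rw [h5]
        exact norm_add₃_le
    _ = (∫⁻ p in Metric.ball p₀ R, ‖Φ p - g p‖ₑ) + (∫⁻ p in Metric.ball p₀ R, ‖g p - mo1 ρ g p‖ₑ) +
          ∫⁻ p in Metric.ball p₀ R, ‖mo1 ρ g p - mo1 ρ Φ p‖ₑ := by
        have hm12 : AEMeasurable (fun p => ‖Φ p - g p‖ₑ + ‖g p - mo1 ρ g p‖ₑ)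
            (volume.restrict (Metric.ball p₀ R)) := hm1.add hm2
        rw [lintegral_add_left' hm12, lintegral_add_left' hm1]
    _ ≤ ENNReal.ofReal (δ / 20) + ENNReal.ofReal δ₂ * ENNReal.ofReal B +
          8 * ENNReal.ofReal (δ / 20) := by
        refine add_le_add (add_le_add ?_ ?_) h2
        · exact (setLIntegral_le_lintegral _ _).trans hg1
        · refine (setLIntegral_mono' (g := fun _ => ENNReal.ofReal δ₂)
            Metric.isOpen_ball.measurableSet h1).trans ?_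
          rw [setLIntegral_const, hB, ENNReal.ofReal_toReal measure_ball_lt_top.ne]
    _ ≤ ENNReal.ofReal δ := by
        have h5 : (8 : ℝ≥0∞) = ENNReal.ofReal 8 := by norm_num
        rw [h5, ← ENNReal.ofReal_mul hδ₂0.le, ← ENNReal.ofReal_mul (by norm_num),
          ← ENNReal.ofReal_add (by positivity) (by positivity),
          ← ENNReal.ofReal_add (by positivity) (by positivity)]
        refine ENNReal.ofReal_le_ofReal ?_
        have h6 : δ₂ * B ≤ δ / 2 := by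
          rw [hδ₂, div_mul_eq_mul_div, div_le_div_iff₀ (by positivity) two_pos]
          nlinarith
        linarith

/-- the mollifications of a weak pair are a pair -/
theorem mo_pair {ρ : E d → ℝ} {ε : ℝ} (hρ : Moll ε ρ) {T Q : Set (E d)}
    {b : E d → Al d 1} {s : E d → Al d 2} (hΦ : Integrable (Q.indicator b))
    (hΨ : Integrable (Q.indicator s)) {p : E d}
    (hpQ : Metric.closedBall p ε ⊆ Q) (hQT : Q ⊆ T)
    (hw : ∀ g : E d → ℝ, ContDiff ℝ ∞ g → HasCompactSupport g → tsupport g ⊆ T →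
      ∀ u v : E d, ∫ q, (g q * s q ![u, v] + fderiv ℝ g q u * b q ![v] -
        fderiv ℝ g q v * b q ![u]) = 0) :
    extDeriv (mo1 ρ (Q.indicator b)) p = mo ρ (Q.indicator s) p := by
  obtain ⟨Φ, hΦd⟩ : ∃ Φ, Φ = Q.indicator b := ⟨_, rfl⟩
  obtain ⟨Ψ, hΨd⟩ : ∃ Ψ, Ψ = Q.indicator s := ⟨_, rfl⟩
  rw [← hΦd] at hΦ ⊢
  rw [← hΨd] at hΨ ⊢
  apply ContinuousAlternatingMap.ext
  intro u
  have hd : DifferentiableAt ℝ (mo1 ρ Φ) p := (mo1_smooth hρ hΦ p).differentiableAt (by simp)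
  rw [extDeriv_apply hd]
  have hfd : ∀ v a : E d, fderiv ℝ (fun x => mo1 ρ Φ x ![v]) p a =
      ∫ q, -(fderiv ℝ ρ (q - p) a * Φ q ![v]) := by
    intro v a
    have h1 : (fun x => mo1 ρ Φ x ![v]) = fun x => ∫ q, ρ (q - x) * Φ q ![v] := by
      funext x
      exact mo1_apply hρ hΦ x v
    rw [h1]
    exact mo_fderiv hρ (ev1_int hΦ v) p a
  have h0 : (0 : Fin 2).removeNth u = ![u 1] := by
    rw [one_eta ((0 : Fin 2).removeNth u)]
    rfl
  have h1 : (1 : Fin 2).removeNth u = ![u 0] := by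
    rw [one_eta ((1 : Fin 2).removeNth u)]
    rfl
  have hii : ∀ v a : E d, Integrable (fun q => -(fderiv ℝ ρ (q - p) a * Φ q ![v])) := by
    intro v a
    obtain ⟨C, hC⟩ := (hρ.smooth.continuous_fderiv (by simp)).bounded_above_of_compact_support
      ((moll_cs hρ).fderiv ℝ)
    have hdc : Continuous (fun q => fderiv ℝ ρ (q - p) a) :=
      ((hρ.smooth.continuous_fderiv (by simp)).comp
        (continuous_id.sub continuous_const)).clm_apply continuous_const
    refine Integrable.neg ?_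
    refine Integrable.mono' ((ev1_int hΦ v).norm.const_mul (C * ‖a‖)) ?_
      (Eventually.of_forall fun q => ?_)
    · exact hdc.aestronglyMeasurable.mul (ev1_int hΦ v).aestronglyMeasurable
    · rw [norm_mul]
      refine mul_le_mul_of_nonneg_right ?_ (norm_nonneg _)
      exact (ContinuousLinearMap.le_opNorm _ _).trans
        (mul_le_mul_of_nonneg_right (hC _) (norm_nonneg _))
  have hi0 : Integrable (fun q => ρ (q - p) * Ψ q ![u 0, u 1]) := by
    obtain ⟨C, hC⟩ := hρ.smooth.continuous.bounded_above_of_compact_support (moll_cs hρ)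
    refine Integrable.mono' ((ev_int hΨ (u 0) (u 1)).norm.const_mul C) ?_
      (Eventually.of_forall fun q => ?_)
    · exact ((hρ.smooth.continuous.comp
        (continuous_id.sub continuous_const)).aestronglyMeasurable).mul
        (ev_int hΨ (u 0) (u 1)).aestronglyMeasurable
    · rw [norm_mul]
      exact mul_le_mul_of_nonneg_right (hC _) (norm_nonneg _)
  have hcs : HasCompactSupport (fun q => ρ (q - p)) := by
    refine HasCompactSupport.intro (isCompact_closedBall p ε) fun q hq => ?_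
    refine hρ.supp _ ?_
    rw [Metric.mem_closedBall, not_le, dist_eq_norm] at hq
    exact hq.le
  have hts : tsupport (fun q => ρ (q - p)) ⊆ Metric.closedBall p ε := by
    refine closure_minimal ?_ Metric.isClosed_closedBall
    intro q hq
    by_contra h
    rw [Metric.mem_closedBall, not_le, dist_eq_norm] at h
    exact hq (hρ.supp _ h.le)
  have hg : ContDiff ℝ ∞ (fun q => ρ (q - p)) := hρ.smooth.comp (contDiff_id.sub contDiff_const)
  have hfg : ∀ q, fderiv ℝ (fun q => ρ (q - p)) q = fderiv ℝ ρ (q - p) := by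
    intro q
    have h1 : HasFDerivAt ρ (fderiv ℝ ρ (q - p)) (q - p) :=
      (hρ.smooth.differentiable (by simp) _).hasFDerivAt
    have h2 : HasFDerivAt (fun q : E d => q - p) (ContinuousLinearMap.id ℝ (E d)) q :=
      (hasFDerivAt_id q).sub_const p
    have h3 := h1.comp q h2
    rw [ContinuousLinearMap.comp_id] at h3
    exact h3.fderiv
  have hout : ∀ q, q ∉ Q → fderiv ℝ ρ (q - p) = 0 ∧ ρ (q - p) = 0 := by
    intro q hq
    constructor
    · rw [← hfg]
      have h3 : q ∉ tsupport (fderiv ℝ (fun q => ρ (q - p))) := fun h =>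
        hq (hpQ (hts (tsupport_fderiv_subset ℝ h)))
      exact image_eq_zero_of_notMem_tsupport h3
    · have h3 : q ∉ tsupport (fun q => ρ (q - p)) := fun h => hq (hpQ (hts h))
      exact image_eq_zero_of_notMem_tsupport (f := fun q => ρ (q - p)) h3
  have h3 := hw _ hg hcs (hts.trans (hpQ.trans hQT)) (u 0) (u 1)
  rw [Fin.sum_univ_two, h0, h1, hfd, hfd]
  have e1 : ((-1 : ℤ) ^ (0 : Fin 2).val) = 1 := rfl
  have e2 : ((-1 : ℤ) ^ (1 : Fin 2).val) = -1 := rfl
  have e3 : mo ρ Ψ p u = ∫ q, ρ (q - p) * Ψ q ![u 0, u 1] := by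
    have h5 : mo ρ Ψ p u = mo ρ Ψ p ![u 0, u 1] := by rw [← pair_eta u]
    rw [h5, mo_apply hρ hΨ]
  have hAB : Integrable (fun q => -(fderiv ℝ ρ (q - p) (u 0) * Φ q ![u 1]) -
      -(fderiv ℝ ρ (q - p) (u 1) * Φ q ![u 0])) := (hii _ _).sub (hii _ _)
  rw [e1, e2, one_smul, neg_smul, one_smul, ← sub_eq_add_neg, e3,
    ← integral_sub (hii _ _) (hii _ _), ← sub_eq_zero,
    ← integral_sub hAB hi0]
  have h4 : ∀ q, (-(fderiv ℝ ρ (q - p) (u 0) * Φ q ![u 1]) -
      -(fderiv ℝ ρ (q - p) (u 1) * Φ q ![u 0])) - ρ (q - p) * Ψ q ![u 0, u 1] =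
      -(ρ (q - p) * s q ![u 0, u 1] + fderiv ℝ (fun q => ρ (q - p)) q (u 0) * b q ![u 1] -
        fderiv ℝ (fun q => ρ (q - p)) q (u 1) * b q ![u 0]) := by
    intro q
    rw [hfg]
    by_cases hq : q ∈ Q
    · have h5 : Φ q = b q := by rw [hΦd]; exact indicator_of_mem hq _
      have h6 : Ψ q = s q := by rw [hΨd]; exact indicator_of_mem hq _
      rw [h5, h6]
      ring
    · rw [(hout q hq).1, (hout q hq).2]
      simp
  have h5 : ∫ q, ((-(fderiv ℝ ρ (q - p) (u 0) * Φ q ![u 1]) -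
      -(fderiv ℝ ρ (q - p) (u 1) * Φ q ![u 0])) - ρ (q - p) * Ψ q ![u 0, u 1]) = 0 := by
    simp_rw [h4]
    rw [integral_neg, h3, neg_zero]
  exact h5

theorem ind_Q' {k : ℕ} {f : E d → Al d k} {Q : Set (E d)} (hQ : IsCompact Q)
    (h : IntegrableOn f Q volume) : Integrable (Q.indicator f) :=
  (integrable_indicator_iff hQ.measurableSet).2
    ⟨h.1, hasFiniteIntegral_iff_enorm.2 (hasFiniteIntegral_iff_enorm.1 h.2)⟩

/-- weak pairs are locally limits of smooth pairs -/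
theorem LPp_of_weak {T : Set (E d)} (hT : IsOpen T) {b : E d → Al d 1} {s : E d → Al d 2}
    (hb : LocallyIntegrableOn b T) (hs : LocallyIntegrableOn s T)
    (hw : ∀ g : E d → ℝ, ContDiff ℝ ∞ g → HasCompactSupport g → tsupport g ⊆ T →
      ∀ u v : E d, ∫ q, (g q * s q ![u, v] + fderiv ℝ g q u * b q ![v] -
        fderiv ℝ g q v * b q ![u]) = 0) {p₀ : E d} (hp₀ : p₀ ∈ T) : LPp b s p₀ := by
  obtain ⟨R₁, hR₁, hRT⟩ := Metric.nhds_basis_closedBall.mem_iff.1 (hT.mem_nhds hp₀)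
  obtain ⟨R, hR⟩ : ∃ R : ℝ, R = R₁ / 2 := ⟨_, rfl⟩
  have hR0 : 0 < R := by rw [hR]; positivity
  obtain ⟨Q, hQ⟩ : ∃ Q, Q = Metric.closedBall p₀ R₁ := ⟨_, rfl⟩
  rw [← hQ] at hRT
  have hQc : IsCompact Q := by rw [hQ]; exact isCompact_closedBall _ _
  have hi : IntegrableOn s Q volume := (hs.mono_set hRT).integrableOn_isCompact hQc
  have hi' : IntegrableOn b Q volume := (hb.mono_set hRT).integrableOn_isCompact hQc
  have hOQ : Metric.ball p₀ R ⊆ Q := by
    rw [hQ]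
    exact Metric.ball_subset_closedBall.trans (Metric.closedBall_subset_closedBall (by linarith))
  have hΦ : Integrable (Q.indicator b) := ind_Q' hQc hi'
  have hΨ : Integrable (Q.indicator s) := ind_Q' hQc hi
  refine ⟨R, hR0, hi'.1.mono_set hOQ, ?_, hi.1.mono_set hOQ, ?_, fun δ hδ => ?_⟩
  · exact (lintegral_mono_set hOQ).trans_lt (hasFiniteIntegral_iff_enorm.1 hi'.2)
  · exact (lintegral_mono_set hOQ).trans_lt (hasFiniteIntegral_iff_enorm.1 hi.2)
  · obtain ⟨ε₀, hε₀, hmo⟩ := mo_L1 hΨ p₀ (R := R) hδ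
    obtain ⟨ε₁, hε₁, hmo1⟩ := mo1_L1 hΦ p₀ (R := R) hδ
    obtain ⟨ε, hε⟩ : ∃ ε : ℝ, ε = min (min ε₀ ε₁) R := ⟨_, rfl⟩
    have hε0 : 0 < ε := by rw [hε]; exact lt_min (lt_min hε₀ hε₁) hR0
    have hεa : ε ≤ ε₀ := by rw [hε]; exact (min_le_left _ _).trans (min_le_left _ _)
    have hεb : ε ≤ ε₁ := by rw [hε]; exact (min_le_left _ _).trans (min_le_right _ _)
    have hεc : ε ≤ R := by rw [hε]; exact min_le_right _ _
    obtain ⟨ρ, hρ⟩ := moll_exists (d := d) hε0
    refine ⟨mo1 ρ (Q.indicator b), fun p _ => (mo1_smooth hρ hΦ p).contDiffWithinAt, ?_, ?_⟩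
    · refine le_trans (le_of_eq ?_) (hmo1 _ ρ hε0 hεb hρ)
      refine setLIntegral_congr_fun Metric.isOpen_ball.measurableSet fun p hp => ?_
      simp only [indicator_of_mem (hOQ hp)]
    · refine le_trans (le_of_eq ?_) (hmo _ ρ hε0 hεa hρ)
      refine setLIntegral_congr_fun Metric.isOpen_ball.measurableSet fun p hp => ?_
      have h1 : extDeriv (mo1 ρ (Q.indicator b)) p = mo ρ (Q.indicator s) p := by
        refine mo_pair hρ hΦ hΨ ?_ hRT hw
        rw [hQ]
        refine Metric.closedBall_subset_closedBall' ?_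
        rw [Metric.mem_ball] at hp
        linarith
      rw [h1]
      simp only [indicator_of_mem (hOQ hp)]

end Pool.Agent.U896.SC
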