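import Pool.Agent.U896.SW.PubM

/-!
Measurable two-forms in a prescribed class: the definitions used in the statement.
-/

set_option autoImplicit false

open Set Filter Topology MeasureTheory
open scoped Manifold ContDiff

noncomputable section

namespace Pool.Agent.U896.SCP

open Pool.Agent.Y501.SYP Pool.Agent.U896.SWP

variable {d : ℕ} {X : Type} [TopologicalSpace X] [ChartedSpace (ES d) X]

/-- one-forms which are measurable and locally integrable in the charts -/
def LocInt1 (β : Form (ES d) X 1) : Prop :=
  ∀ z : X, LocallyIntegrableOn (pb (chartAt (ES d) z).symm β) (chartAt (ES d) z).target (leb d)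

/-- `σ = σ₀ + dβ` in the sense of distributions: in the charts, the integral of
`g (σ - σ₀) + dg ∧ β` (evaluated on two constant vectors `u`, `v`) is zero for all smooth functions
`g` with compact support. -/
def WeaklyPlusD (σ σ₀ : Form (ES d) X 2) (β : Form (ES d) X 1) : Prop :=
  ∀ (z : X) (g : ES d → ℝ), ContDiff ℝ ∞ g → HasCompactSupport g →
    tsupport g ⊆ (chartAt (ES d) z).target → ∀ u v : ES d,
      ∫ q, (g q * (pb (chartAt (ES d) z).symm σ q ![u, v] -
          pb (chartAt (ES d) z).symm σ₀ q ![u, v]) +
        fderiv ℝ g q u * pb (chartAt (ES d) z).symm β q ![v] -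
        fderiv ℝ g q v * pb (chartAt (ES d) z).symm β q ![u]) ∂(leb d) = 0

end Pool.Agent.U896.SCP
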