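import Pool.Agent.U896.SC.P4
import Pool.Agent.U896.SW.Trans

/-!
# Forms in a prescribed class: change of charts
-/

set_option autoImplicit false

open Set Filter Topology MeasureTheory
open scoped Manifold ContDiff ENNReal

noncomputable section

namespace Pool.Agent.U896.SC

open Pool.Agent.Y501.SY
open Pool.Agent.U896
open Pool.Agent.U896.SW

section

variable {d : ℕ} {X : Type} [TopologicalSpace X] [ChartedSpace (E d) X]

theorem pb_val1 {w w' : Form d X 1} {φ : E d → X} {q : E d} (h : w' (φ q) = w (φ q)) :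
    pb φ w' q = pb φ w q := by
  unfold pb
  rw [h]

theorem pb_ev1 (w : Form d X 1) {φ φ' : E d → X} {q : E d} (h : φ =ᶠ[𝓝 q] φ') :
    pb φ w q = pb φ' w q := by
  obtain ⟨W, hW⟩ : ∃ W : X → (E d) [⋀^Fin 1]→L[ℝ] ℝ, W = w := ⟨w, rfl⟩
  have h1 : (mfderiv (𝓡 d) (𝓡 d) φ q : E d →L[ℝ] E d) = mfderiv (𝓡 d) (𝓡 d) φ' q := h.mfderiv_eq
  have h2 : φ q = φ' q := h.eq_of_nhds
  have h3 : ∀ f : E d → X, pb f w q =
      (W (f q)).compContinuousLinearMap (mfderiv (𝓡 d) (𝓡 d) f q : E d →L[ℝ] E d) := by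
    intro f
    rw [hW]
    rfl
  rw [h3, h3, h1, h2]

theorem pb_comp1 (w : Form d X 1) {φ : E d → X} {ψ : E d → E d} {q : E d}
    (hφ : MDifferentiableAt (𝓡 d) (𝓡 d) φ (ψ q)) (hψ : DifferentiableAt ℝ ψ q) :
    pb (φ ∘ ψ) w q = (pb φ w (ψ q)).compContinuousLinearMap (fderiv ℝ ψ q) := by
  have h1 : mfderiv (𝓡 d) (𝓡 d) (φ ∘ ψ) q =
      (mfderiv (𝓡 d) (𝓡 d) φ (ψ q)).comp (mfderiv (𝓡 d) (𝓡 d) ψ q) :=
    mfderiv_comp q hφ hψ.mdifferentiableAt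
  rw [mfderiv_eq_fderiv] at h1
  unfold pb
  rw [h1]
  rfl

variable [IsManifold (𝓡 d) ∞ X]

theorem LPp.trans {β : Form d X 1} {w : Form d X 2} {z₁ z₂ : X} {p₁ p₂ : E d}
    (hp₁ : p₁ ∈ (chartAt (E d) z₁).target) (hp₂ : p₂ ∈ (chartAt (E d) z₂).target)
    (hp : (chartAt (E d) z₁).symm p₁ = (chartAt (E d) z₂).symm p₂)
    (h : LPp (pb (chartAt (E d) z₁).symm β) (pb (chartAt (E d) z₁).symm w) p₁) :
    LPp (pb (chartAt (E d) z₂).symm β) (pb (chartAt (E d) z₂).symm w) p₂ := by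
  obtain ⟨r, hr, hL⟩ := h
  obtain ⟨e₁, he₁⟩ : ∃ e₁, e₁ = chartAt (E d) z₁ := ⟨_, rfl⟩
  obtain ⟨e₂, he₂⟩ : ∃ e₂, e₂ = chartAt (E d) z₂ := ⟨_, rfl⟩
  have hs₁ : ContMDiffOn (𝓡 d) (𝓡 d) ∞ e₁ e₁.source := by rw [he₁]; exact contMDiffOn_chart
  have hs₂ : ContMDiffOn (𝓡 d) (𝓡 d) ∞ e₂ e₂.source := by rw [he₂]; exact contMDiffOn_chart
  have ht₁ : ContMDiffOn (𝓡 d) (𝓡 d) ∞ e₁.symm e₁.target := by
    rw [he₁]; exact contMDiffOn_chart_symm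
  have ht₂ : ContMDiffOn (𝓡 d) (𝓡 d) ∞ e₂.symm e₂.target := by
    rw [he₂]; exact contMDiffOn_chart_symm
  rw [← he₁] at hp₁ hp hL
  rw [← he₂] at hp₂ hp
  rw [← he₂]
  obtain ⟨Ω, hΩ⟩ : ∃ Ω, Ω = e₂.target ∩ e₂.symm ⁻¹' e₁.source := ⟨_, rfl⟩
  have hΩo : IsOpen Ω := by rw [hΩ]; exact e₂.isOpen_inter_preimage_symm e₁.open_source
  obtain ⟨ψ, hψ⟩ : ∃ ψ : E d → E d, ψ = fun q => e₁ (e₂.symm q) := ⟨_, rfl⟩
  have hψs : ContDiffOn ℝ ∞ ψ Ω := by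
    rw [← contMDiffOn_iff_contDiffOn, hψ, hΩ]
    exact hs₁.comp (ht₂.mono inter_subset_left) fun q hq => hq.2
  have hpΩ : p₂ ∈ Ω := by
    rw [hΩ]
    refine ⟨hp₂, ?_⟩
    rw [mem_preimage, ← hp]
    exact e₁.map_target hp₁
  have hψp : ψ p₂ = p₁ := by
    rw [hψ]
    change e₁ (e₂.symm p₂) = p₁
    rw [← hp, e₁.right_inv hp₁]
  have hinj : InjOn ψ Ω := by
    intro a ha b hb hab
    rw [hΩ] at ha hb
    rw [hψ] at hab
    exact e₂.symm.injOn ha.1 hb.1 (e₁.injOn ha.2 hb.2 hab)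
  have hψt : ∀ q ∈ Ω, ψ q ∈ e₁.target := by
    intro q hq
    rw [hΩ] at hq
    rw [hψ]
    exact e₁.map_source hq.2
  have hdet : (fderiv ℝ ψ p₂).det ≠ 0 := by
    obtain ⟨φ, hφ⟩ : ∃ φ : E d → E d, φ = fun q => e₂ (e₁.symm q) := ⟨_, rfl⟩
    have hφs : ContDiffAt ℝ ∞ φ (ψ p₂) := by
      have h1 : ContDiffOn ℝ ∞ φ (e₁.target ∩ e₁.symm ⁻¹' e₂.source) := by
        rw [← contMDiffOn_iff_contDiffOn, hφ]
        exact hs₂.comp (ht₁.mono inter_subset_left) fun q hq => hq.2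
      refine h1.contDiffAt ((e₁.isOpen_inter_preimage_symm e₂.open_source).mem_nhds ?_)
      rw [hψp]
      refine ⟨hp₁, ?_⟩
      rw [mem_preimage, hp]
      exact e₂.map_target hp₂
    have h2 : HasFDerivAt (φ ∘ ψ) ((fderiv ℝ φ (ψ p₂)).comp (fderiv ℝ ψ p₂)) p₂ :=
      (hφs.differentiableAt (by simp)).hasFDerivAt.comp p₂
        ((hψs.contDiffAt (hΩo.mem_nhds hpΩ)).differentiableAt (by simp)).hasFDerivAt
    have h3 : (φ ∘ ψ) =ᶠ[𝓝 p₂] fun q => q := by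
      filter_upwards [hΩo.mem_nhds hpΩ] with q hq
      rw [hΩ] at hq
      rw [hφ, hψ]
      change e₂ (e₁.symm (e₁ (e₂.symm q))) = q
      rw [e₁.left_inv hq.2, e₂.right_inv hq.1]
    have h4 : (fderiv ℝ φ (ψ p₂)).comp (fderiv ℝ ψ p₂) = ContinuousLinearMap.id ℝ (E d) :=
      (h2.congr_of_eventuallyEq h3.symm).unique (hasFDerivAt_id p₂)
    intro h0
    have h5 : ((fderiv ℝ φ (ψ p₂)).comp (fderiv ℝ ψ p₂)).det =
        (fderiv ℝ φ (ψ p₂)).det * (fderiv ℝ ψ p₂).det := LinearMap.det_comp _ _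
    rw [h4, h0, mul_zero] at h5
    have h6 : (ContinuousLinearMap.id ℝ (E d)).det = 1 := LinearMap.det_id
    rw [h6] at h5
    exact one_ne_zero h5
  have hDc : ContinuousAt (fderiv ℝ ψ) p₂ :=
    (hψs.continuousOn_fderiv_of_isOpen hΩo (by simp)).continuousAt (hΩo.mem_nhds hpΩ)
  obtain ⟨μ, hμ⟩ : ∃ μ : ℝ, μ = |(fderiv ℝ ψ p₂).det| / 2 := ⟨_, rfl⟩
  have hμ0 : 0 < μ := by rw [hμ]; have := abs_pos.2 hdet; positivity
  obtain ⟨M, hM⟩ : ∃ M : ℝ, M = ‖fderiv ℝ ψ p₂‖ + 1 := ⟨_, rfl⟩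
  have hev : ∀ᶠ q in 𝓝 p₂, (q ∈ Ω ∧ ψ q ∈ Metric.ball p₁ r) ∧ ‖fderiv ℝ ψ q‖ < M ∧
      μ < |(fderiv ℝ ψ q).det| := by
    refine Filter.Eventually.and (Filter.Eventually.and (hΩo.mem_nhds hpΩ) ?_)
      (Filter.Eventually.and ?_ ?_)
    · have h1 : ContinuousAt ψ p₂ := (hψs.contDiffAt (hΩo.mem_nhds hpΩ)).continuousAt
      refine h1.eventually ?_
      rw [hψp]
      exact Metric.ball_mem_nhds p₁ hr
    · refine hDc.norm.eventually_lt_const ?_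
      rw [hM]
      exact lt_add_one _
    · have h1 : ContinuousAt (fun q => |(fderiv ℝ ψ q).det|) p₂ :=
        (ContinuousLinearMap.continuous_det.continuousAt.comp hDc).abs
      refine h1.eventually_const_lt ?_
      rw [hμ]
      have := abs_pos.2 hdet
      linarith
  obtain ⟨r', hr', hb⟩ := Metric.eventually_nhds_iff_ball.1 hev
  refine ⟨r', hr', ?_⟩
  have h1 := LP.pull (b := pb e₁.symm β) (s := pb e₁.symm w) (O := Metric.ball p₁ r) (O' := Metric.ball p₂ r')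
    (ψ := ψ) Metric.isOpen_ball Metric.isOpen_ball (hψs.mono fun q hq => (hb q hq).1.1)
    (fun q hq => (hb q hq).1.2) (hinj.mono fun q hq => (hb q hq).1.1) (M := M)
    (fun q hq => (hb q hq).2.1.le) hμ0 (fun q hq => (hb q hq).2.2.le) hL
  have hev2 : ∀ q ∈ Metric.ball p₂ r', e₂.symm =ᶠ[𝓝 q] (e₁.symm ∘ ψ) := by
    intro q hq
    filter_upwards [hΩo.mem_nhds (hb q hq).1.1] with y hy
    rw [hΩ] at hy
    rw [hψ]
    exact (e₁.left_inv hy.2).symm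
  refine LP.congr Metric.isOpen_ball h1 (fun q hq => ?_) fun q hq => ?_
  · have hq' := (hb q hq).1.1
    rw [pb_ev1 β (hev2 q hq)]
    refine pb_comp1 β ?_ ((hψs.contDiffAt (hΩo.mem_nhds hq')).differentiableAt (by simp))
    exact (ht₁.contMDiffAt (e₁.open_target.mem_nhds (hψt q hq'))).mdifferentiableAt (by simp)
  · have hq' := (hb q hq).1.1
    rw [pb_ev w (hev2 q hq)]
    refine pb_comp w ?_ ((hψs.contDiffAt (hΩo.mem_nhds hq')).differentiableAt (by simp))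
    exact (ht₁.contMDiffAt (e₁.open_target.mem_nhds (hψt q hq'))).mdifferentiableAt (by simp)

end

end Pool.Agent.U896.SC
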