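import Pool.Agent.U896.SC.P5
import Pool.Agent.U896.SW.StepM
import Pool.Agent.Y501.SY.MainP
import Pool.Agent.Y949.SY.Patch2

/-!
# Forms in a prescribed class: patching of pairs
-/

set_option autoImplicit false

open Set Filter Topology MeasureTheory
open scoped Manifold ContDiff ENNReal

noncomputable section

namespace Pool.Agent.U896.SC

open Pool.Agent.Y501.SY
open Pool.Agent.U896.SW

section

variable {d : ℕ} {X : Type} [TopologicalSpace X] [ChartedSpace (E d) X]

theorem pb_sub {k : ℕ} (φ : E d → X) (σ τ : Form d X k) (p : E d) :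
    pb φ (σ - τ) p = pb φ σ p - pb φ τ p := rfl

theorem patchC (hPa : S_PATCH2) (hPp : S_PATCHP) [IsManifold (𝓡 d) ∞ X] [T2Space X]
    {σ₀ : Form d X 2} (hσ₀ : IsSmooth σ₀) (hσ₀c : IsClosedForm σ₀)
    {z : X} {r : ℝ} (hr : 0 < r)
    (hVt : Metric.closedBall (chartAt (E d) z z) r ⊆ (chartAt (E d) z).target)
    {χ : E d → ℝ} (hχ0 : ∀ p, χ p = 0 ↔ p ∉ Metric.ball (chartAt (E d) z z) (r / 2))
    {K : Set X} (hK : IsClosed K) {β : Form d X 1} {w : Form d X 2}
    (hsβ : SmoothOff β K) (hsw : SmoothOff w K) (hD : IsDOff β (w - σ₀) K)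
    (hlp : ∀ z : X, ∀ p ∈ (chartAt (E d) z).target,
      LPp (pb (chartAt (E d) z).symm β) (pb (chartAt (E d) z).symm (w - σ₀)) p)
    {b' : E d → (E d) [⋀^Fin 1]→L[ℝ] ℝ} {s' : E d → (E d) [⋀^Fin 2]→L[ℝ] ℝ}
    (g1 : ContDiffOn ℝ ∞ b' (Metric.ball (chartAt (E d) z z) r \
      ((Metric.ball (chartAt (E d) z z) r ∩ (chartAt (E d) z).symm ⁻¹' K) ∩ {p | χ p = 0})))
    (g2 : ContDiffOn ℝ ∞ s' (Metric.ball (chartAt (E d) z z) r \
      ((Metric.ball (chartAt (E d) z z) r ∩ (chartAt (E d) z).symm ⁻¹' K) ∩ {p | χ p = 0})))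
    (g3 : ∀ p ∈ Metric.ball (chartAt (E d) z z) r \
      ((Metric.ball (chartAt (E d) z z) r ∩ (chartAt (E d) z).symm ⁻¹' K) ∩ {p | χ p = 0}),
      extDeriv b' p = s' p - pb (chartAt (E d) z).symm σ₀ p)
    (g4 : ∀ p, χ p = 0 → b' p = pb (chartAt (E d) z).symm β p)
    (g5 : ∀ p, χ p = 0 → s' p = pb (chartAt (E d) z).symm w p)
    (g6 : ∀ p ∈ Metric.ball (chartAt (E d) z z) r,
      LPp b' (fun q => s' q - pb (chartAt (E d) z).symm σ₀ q) p)
    {W O : Set X}
    (hWd : W = (chartAt (E d) z).source ∩ chartAt (E d) z ⁻¹'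
      Metric.ball (chartAt (E d) z z) (r / 2))
    (hOd : O = (chartAt (E d) z).source ∩ chartAt (E d) z ⁻¹'
      Metric.ball (chartAt (E d) z z) r) :
    ∃ (β₁ : Form d X 1) (w₁ : Form d X 2), SmoothOff β₁ (K \ W) ∧ SmoothOff w₁ (K \ W) ∧
      IsDOff β₁ (w₁ - σ₀) (K \ W) ∧
      (∀ z₂ : X, ∀ p ∈ (chartAt (E d) z₂).target,
        LPp (pb (chartAt (E d) z₂).symm β₁) (pb (chartAt (E d) z₂).symm (w₁ - σ₀)) p) ∧
      (∀ x, x ∉ O → w₁ x = w x) ∧
      ∀ p ∈ Metric.ball (chartAt (E d) z z) r, pb (chartAt (E d) z).symm w₁ p = s' p := by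
  obtain ⟨p₀, hp₀⟩ : ∃ p₀, p₀ = chartAt (E d) z z := ⟨_, rfl⟩
  rw [← hp₀] at hVt hχ0 g1 g2 g3 g6 hWd hOd
  rw [← hp₀]
  obtain ⟨e, he⟩ : ∃ e, e = chartAt (E d) z := ⟨_, rfl⟩
  have hzs : z ∈ e.source := by rw [he]; exact mem_chart_source (E d) z
  have hez : e z = p₀ := by rw [he, hp₀]
  rw [← he] at hVt g1 g2 g3 g4 g5 g6 hWd hOd
  have hV : Metric.ball p₀ r ⊆ e.target := Metric.ball_subset_closedBall.trans hVt
  have hW : IsOpen W := by rw [hWd]; exact e.isOpen_inter_preimage Metric.isOpen_ball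
  have hO : IsOpen O := by rw [hOd]; exact e.isOpen_inter_preimage Metric.isOpen_ball
  have heO : e '' O = Metric.ball p₀ r := by
    apply Subset.antisymm
    · rintro _ ⟨x, hx, rfl⟩
      rw [hOd] at hx
      exact hx.2
    · intro p hp
      refine ⟨e.symm p, ?_, e.right_inv (hV hp)⟩
      rw [hOd]
      refine ⟨e.map_target (hV hp), ?_⟩
      rw [mem_preimage, e.right_inv (hV hp)]
      exact hp
  have hOs : O ⊆ e.source := by rw [hOd]; exact inter_subset_left
  have hWO : W ⊆ O := by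
    rw [hWd, hOd]
    exact inter_subset_inter_right _ (preimage_mono (Metric.ball_subset_ball (by linarith)))
  have hWs : ∀ p ∈ Metric.ball p₀ r, e.symm p ∈ W ↔ p ∈ Metric.ball p₀ (r / 2) := by
    intro p hp
    rw [hWd]
    constructor
    · rintro ⟨_, h⟩
      rwa [mem_preimage, e.right_inv (hV hp)] at h
    · intro h
      refine ⟨e.map_target (hV hp), ?_⟩
      rwa [mem_preimage, e.right_inv (hV hp)]
  have htV : Metric.closedBall p₀ (r / 2) ⊆ Metric.ball p₀ r :=
    Metric.closedBall_subset_ball (by linarith)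
  obtain ⟨k, hk⟩ : ∃ k, k = Metric.ball p₀ r ∩ e.symm ⁻¹' K := ⟨_, rfl⟩
  rw [← hk] at g1 g2 g3
  -- the new singular set
  have hKW : IsClosed (K \ W) := by
    rw [sdiff_eq]
    exact hK.inter hW.isClosed_compl
  have hset : (chartAt (E d) z '' O) \ (chartAt (E d) z '' ((K \ W) ∩ O)) =
      Metric.ball p₀ r \ (k ∩ {p | χ p = 0}) := by
    rw [← he, heO]
    ext p
    constructor
    · rintro ⟨hp, hn⟩
      refine ⟨hp, ?_⟩
      rintro ⟨h1, h2⟩
      apply hn
      rw [hk] at h1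
      refine ⟨e.symm p, ⟨⟨h1.2, ?_⟩, ?_⟩, e.right_inv (hV hp)⟩
      · rw [hWs p hp]
        exact (hχ0 p).1 h2
      · rw [hOd]
        refine ⟨e.map_target (hV hp), ?_⟩
        rwa [mem_preimage, e.right_inv (hV hp)]
    · rintro ⟨hp, hn⟩
      refine ⟨hp, ?_⟩
      rintro ⟨x, ⟨⟨hxK, hxW⟩, hxO⟩, rfl⟩
      apply hn
      have hxs := hOs hxO
      refine ⟨?_, ?_⟩
      · rw [hk]
        refine ⟨hp, ?_⟩
        change e.symm (e x) ∈ K
        rwa [e.left_inv hxs]
      · change χ (e x) = 0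
        rw [hχ0, ← hWs _ hp, e.left_inv hxs]
        exact hxW
  have hKx : ∀ x ∈ K, x ∉ K \ W → x ∈ O ∧ chartAt (E d) z x ∈ Metric.closedBall p₀ (r / 2) := by
    intro x hx hx2
    have hxW : x ∈ W := by
      by_contra h
      exact hx2 ⟨hx, h⟩
    refine ⟨hWO hxW, ?_⟩
    rw [← he]
    rw [hWd] at hxW
    exact Metric.ball_subset_closedBall hxW.2
  have hwc : IsDOff w 0 K := closedOff_of hσ₀ hσ₀c hsβ hD
  have hΩo : IsOpen (Metric.ball p₀ r \ (k ∩ {p | χ p = 0})) := by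
    have h1 : Metric.ball p₀ r \ (k ∩ {p | χ p = 0}) =
        (e.target ∩ e.symm ⁻¹' Kᶜ) ∩ Metric.ball p₀ r ∪ Metric.ball p₀ (r / 2) := by
      ext p
      constructor
      · rintro ⟨h1, h2⟩
        by_cases h3 : p ∈ Metric.ball p₀ (r / 2)
        · exact Or.inr h3
        · refine Or.inl ⟨⟨hV h1, ?_⟩, h1⟩
          intro h4
          apply h2
          rw [hk]
          exact ⟨⟨h1, h4⟩, (hχ0 p).2 h3⟩
      · rintro (h1 | h1)
        · refine ⟨h1.2, ?_⟩
          rintro ⟨h2, -⟩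
          rw [hk] at h2
          exact h1.1.2 h2.2
        · refine ⟨Metric.ball_subset_ball (by linarith) h1, ?_⟩
          rintro ⟨-, h2⟩
          exact (hχ0 p).1 h2 h1
    rw [h1]
    exact ((e.isOpen_inter_preimage_symm hK.isOpen_compl).inter Metric.isOpen_ball).union
      Metric.isOpen_ball
  have hsymm : ContMDiffOn (𝓡 d) (𝓡 d) ∞ (chartAt (E d) z).symm (Metric.ball p₀ r) :=
    contMDiffOn_chart_symm.mono (by rw [← he]; exact hV)
  have hs₀ : ContDiffOn ℝ ∞ (pb (chartAt (E d) z).symm σ₀) (Metric.ball p₀ r) :=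
    hσ₀ _ _ Metric.isOpen_ball hsymm
  have hs₀c : ∀ p ∈ Metric.ball p₀ r, extDeriv (pb (chartAt (E d) z).symm σ₀) p = 0 := by
    intro p hp
    rw [hσ₀c _ _ Metric.isOpen_ball hsymm p hp, pb_zero]
    rfl
  have g3' : ∀ p ∈ Metric.ball p₀ r \ (k ∩ {p | χ p = 0}), extDeriv s' p = 0 := by
    intro p hp
    have h1 : s' =ᶠ[𝓝 p] pb (chartAt (E d) z).symm σ₀ + extDeriv b' := by
      filter_upwards [hΩo.mem_nhds hp] with q hq
      have h2 := g3 q hq
      rw [he] at h2
      rw [Pi.add_apply, h2]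
      abel
    rw [h1.extDeriv_eq]
    have h4 : ContDiffAt ℝ ∞ b' p := g1.contDiffAt (hΩo.mem_nhds hp)
    have h5 : DifferentiableAt ℝ (extDeriv b') p :=
      ((extD_cont hΩo g1).contDiffAt (hΩo.mem_nhds hp)).differentiableAt (by simp)
    have h8 : DifferentiableAt ℝ (pb (chartAt (E d) z).symm σ₀) p :=
      (hs₀.contDiffAt (Metric.isOpen_ball.mem_nhds hp.1)).differentiableAt (by simp)
    rw [extDeriv_add h8 h5, hs₀c p hp.1]
    have h9 : extDeriv (extDeriv b') p = 0 :=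
      extDeriv_extDeriv_apply h4 Pool.Agent.Y515.SY.smooth2
    rw [h9, add_zero]
  obtain ⟨f1, f2, f3, f4⟩ := hPa d X z O K (K \ W) (Metric.closedBall p₀ (r / 2)) s' w hO
    (by rw [← he]; exact hOs) hKW sdiff_subset (isCompact_closedBall _ _)
    (by rw [← he, heO]; exact htV) hKx
    (by rw [hset]; exact g2) (by rw [hset]; exact g3')
    (by
      intro p hp
      rw [← he]
      apply g5
      rw [hχ0]
      exact fun h => hp.2 (Metric.ball_subset_closedBall h))
    hsw hwc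
  obtain ⟨β₁, w₂, e1, e2, e3, e4, e5, e6⟩ := hPp d X z O K (K \ W)
    (Metric.closedBall p₀ (r / 2)) b' β σ₀ w hO
    (by rw [← he]; exact hOs) hKW sdiff_subset (isCompact_closedBall _ _)
    (by rw [← he, heO]; exact htV) hKx
    (by rw [hset]; exact g1)
    (by
      intro p hp
      rw [← he]
      apply g4
      rw [hχ0]
      exact fun h => hp.2 (Metric.ball_subset_closedBall h))
    hσ₀ hσ₀c hsβ hsw hD
  have hout : ∀ x, x ∉ O → patch z O s' w x = w x := fun x hx => f3 x (Or.inl hx)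
  obtain ⟨w₁, hw₁⟩ : ∃ w₁, w₁ = patch z O s' w := ⟨_, rfl⟩
  rw [← hw₁] at f1 f2 f3 f4 hout
  have hf4 : ∀ p ∈ Metric.ball p₀ r, pb e.symm w₁ p = s' p := by
    intro p hp
    rw [he]
    exact f4 p (by rw [← he, heO]; exact hp)
  have he5 : ∀ p ∈ Metric.ball p₀ r, pb e.symm β₁ p = b' p := by
    intro p hp
    rw [he]
    exact e5 p (by rw [← he, heO]; exact hp)
  -- the two patched two-forms agree off the singular set
  have hw12 : ∀ x, x ∉ K \ W → w₂ x = w₁ x := by
    intro x hx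
    by_cases hxO : x ∈ O
    · have hxb : e x ∈ Metric.ball p₀ r := by rw [← heO]; exact ⟨x, hxO, rfl⟩
      have hpΩ : e x ∈ Metric.ball p₀ r \ (k ∩ {p | χ p = 0}) := by
        rw [← hset, ← he]
        refine ⟨⟨x, hxO, rfl⟩, ?_⟩
        rintro ⟨y, hy, hyx⟩
        have : y = x := e.injOn (hOs hy.2) (hOs hxO) hyx
        rw [this] at hy
        exact hx hy.1
      have h1 : pb (chartAt (E d) z).symm w₂ (e x) = pb (chartAt (E d) z).symm w₁ (e x) := by
        rw [e6 _ (by rw [hset]; exact hpΩ), f4 _ (by rw [← he, heO]; exact hxb)]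
        have h2 := g3 _ hpΩ
        rw [he] at h2
        rw [he, h2]
        abel
      apply ContinuousAlternatingMap.ext
      intro v
      have hxt : e x ∈ (chartAt (E d) z).target := by rw [← he]; exact hV hxb
      have hxs : (chartAt (E d) z).symm (e x) = x := by rw [← he]; exact e.left_inv (hOs hxO)
      have hv : v = ![v 0, v 1] := by
        ext i
        fin_cases i <;> rfl
      rw [hv]
      obtain ⟨v0, hv0⟩ : ∃ v0, v0 = v 0 := ⟨_, rfl⟩
      obtain ⟨v1, hv1⟩ : ∃ v1, v1 = v 1 := ⟨_, rfl⟩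
      rw [← hv0, ← hv1]
      have key : ∀ (x' : X) (hx' : (chartAt (E d) z).symm (e x) = x')
          (a c : TangentSpace (𝓡 d) x'), w₂ x' ![a, c] = w₁ x' ![a, c] := by
        intro x' hx' a c
        subst hx'
        have ha := Pool.Agent.Y455.SY.AB z hxt a
        have hc := Pool.Agent.Y455.SY.AB z hxt c
        obtain ⟨a', ha'⟩ : ∃ a', a' = Pool.Agent.Y455.SY.B z (e x) a := ⟨_, rfl⟩
        obtain ⟨c', hc'⟩ : ∃ c', c' = Pool.Agent.Y455.SY.B z (e x) c := ⟨_, rfl⟩
        rw [← ha'] at ha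
        rw [← hc'] at hc
        have h2 : pb (chartAt (E d) z).symm w₂ (e x) ![a', c'] =
            pb (chartAt (E d) z).symm w₁ (e x) ![a', c'] := by rw [h1]
        rw [pb_app2, pb_app2] at h2
        change w₂ ((chartAt (E d) z).symm (e x)) ![Pool.Agent.Y455.SY.A z (e x) a',
          Pool.Agent.Y455.SY.A z (e x) c'] = w₁ ((chartAt (E d) z).symm (e x))
          ![Pool.Agent.Y455.SY.A z (e x) a', Pool.Agent.Y455.SY.A z (e x) c'] at h2
        rw [ha, hc] at h2
        exact h2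
      exact key x hxs v0 v1
    · rw [(e4 x (Or.inl hxO)).2, hout x hxO]
  have hDf : IsDOff β₁ (w₁ - σ₀) (K \ W) := by
    intro U φ hU hφ hKφ p hp
    rw [e3 U φ hU hφ hKφ p hp, pb_sub, pb_sub]
    congr 1
    exact pb_val (hw12 _ (hKφ p hp))
  refine ⟨β₁, w₁, e1, f1, hDf, ?_, hout, by rw [← he]; exact hf4⟩
  -- the pairs in the charts
  intro z₂ p hp
  by_cases hx : (chartAt (E d) z₂).symm p ∈ O
  · have hxb : e ((chartAt (E d) z₂).symm p) ∈ Metric.ball p₀ r := by
      rw [← heO]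
      exact ⟨_, hx, rfl⟩
    have h1 : LPp (pb (chartAt (E d) z).symm β₁) (pb (chartAt (E d) z).symm (w₁ - σ₀))
        (e ((chartAt (E d) z₂).symm p)) := by
      obtain ⟨R, hR, hL⟩ := g6 _ hxb
      obtain ⟨R', hR', hRb⟩ := Metric.isOpen_iff.1 Metric.isOpen_ball _ hxb
      refine ⟨min R R', lt_min hR hR', LP.congr Metric.isOpen_ball
        (hL.mono (Metric.ball_subset_ball (min_le_left _ _))) (fun q hq => ?_) fun q hq => ?_⟩
      · rw [← he]
        exact he5 q (hRb (Metric.ball_subset_ball (min_le_right _ _) hq))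
      · rw [← he]
        change pb e.symm w₁ q - pb e.symm σ₀ q = s' q - pb e.symm σ₀ q
        rw [hf4 q (hRb (Metric.ball_subset_ball (min_le_right _ _) hq))]
    refine LPp.trans (p₁ := e ((chartAt (E d) z₂).symm p)) ?_ hp ?_ h1
    · rw [← he]
      exact hV hxb
    · rw [← he]
      exact e.left_inv (hOs hx)
  · obtain ⟨R, hR, hL⟩ := hlp z₂ p hp
    have hcl : IsClosed (e.symm '' Metric.closedBall p₀ (r / 2)) :=
      ((isCompact_closedBall p₀ (r / 2)).image_of_continuousOn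
        (e.continuousOn_symm.mono (htV.trans hV))).isClosed
    have hsub : e.symm '' Metric.closedBall p₀ (r / 2) ⊆ O := by
      rintro _ ⟨q, hq, rfl⟩
      rw [hOd]
      refine ⟨e.map_target (hV (htV hq)), ?_⟩
      rw [mem_preimage, e.right_inv (hV (htV hq))]
      exact htV hq
    have h1 : ∀ᶠ q in 𝓝 p, (chartAt (E d) z₂).symm q ∉ e.symm '' Metric.closedBall p₀ (r / 2) := by
      have h2 : ContinuousAt (chartAt (E d) z₂).symm p := (chartAt (E d) z₂).continuousAt_symm hp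
      exact h2.eventually (hcl.isOpen_compl.mem_nhds fun h => hx (hsub h))
    obtain ⟨R', hR', hRb⟩ := Metric.eventually_nhds_iff_ball.1 h1
    have hval : ∀ q ∈ Metric.ball p (min R R'), β₁ ((chartAt (E d) z₂).symm q) =
        β ((chartAt (E d) z₂).symm q) ∧ w₁ ((chartAt (E d) z₂).symm q) =
        w ((chartAt (E d) z₂).symm q) := by
      intro q hq
      have hq' := hRb q (Metric.ball_subset_ball (min_le_right _ _) hq)
      have h2 : (chartAt (E d) z₂).symm q ∉ O ∨
          chartAt (E d) z ((chartAt (E d) z₂).symm q) ∉ Metric.closedBall p₀ (r / 2) := by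
        by_cases hqO : (chartAt (E d) z₂).symm q ∈ O
        · refine Or.inr ?_
          rw [← he]
          intro h
          apply hq'
          exact ⟨_, h, e.left_inv (hOs hqO)⟩
        · exact Or.inl hqO
      exact ⟨(e4 _ h2).1, f3 _ h2⟩
    refine ⟨min R R', lt_min hR hR', LP.congr Metric.isOpen_ball
      (hL.mono (Metric.ball_subset_ball (min_le_left _ _))) (fun q hq => ?_) fun q hq => ?_⟩
    · exact pb_val1 (hval q hq).1
    · rw [pb_sub, pb_sub]
      congr 1
      exact pb_val (hval q hq).2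

end

end Pool.Agent.U896.SC
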