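import Pool.Agent.U896.SC.L1
import Pool.Agent.U896.SC.P6
import Pool.Agent.U896.SV.StepL

/-!
# Forms of Morrey growth in a prescribed class: one step of the regularization on a manifold
-/

set_option autoImplicit false

open Set Filter Topology MeasureTheory
open scoped Manifold ContDiff ENNReal

noncomputable section

namespace Pool.Agent.U896.SC

open Pool.Agent.Y501.SY
open Pool.Agent.U896.SW (NullX pb_val)
open Pool.Agent.U896.SV (Mor Hol bump_pow)

section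

variable {d : ℕ} {X : Type} [TopologicalSpace X] [ChartedSpace (E d) X]

theorem pb_inj2 (w₁ w : Form d X 2) {z : X} {p : E d} (hp : p ∈ (chartAt (E d) z).target)
    [IsManifold (𝓡 d) ∞ X]
    (h : pb (chartAt (E d) z).symm w₁ p = pb (chartAt (E d) z).symm w p) :
    w₁ ((chartAt (E d) z).symm p) = w ((chartAt (E d) z).symm p) := by
  ext v
  have hv : v = ![v 0, v 1] := by
    ext i
    fin_cases i <;> rfl
  have h0 := Pool.Agent.Y455.SY.AB z hp (v 0)
  have h1 := Pool.Agent.Y455.SY.AB z hp (v 1)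
  have h2 := congrArg (fun f => f ![Pool.Agent.Y455.SY.B z p (v 0),
    Pool.Agent.Y455.SY.B z p (v 1)]) h
  simp only [pb_app2] at h2
  change w₁ ((chartAt (E d) z).symm p) ![Pool.Agent.Y455.SY.A z p (Pool.Agent.Y455.SY.B z p (v 0)),
      Pool.Agent.Y455.SY.A z p (Pool.Agent.Y455.SY.B z p (v 1))] =
    w ((chartAt (E d) z).symm p) ![Pool.Agent.Y455.SY.A z p (Pool.Agent.Y455.SY.B z p (v 0)),
      Pool.Agent.Y455.SY.A z p (Pool.Agent.Y455.SY.B z p (v 1))] at h2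
  rw [h0, h1] at h2
  rw [hv]
  exact h2

/-- uniformly taming forms `σ = σ₀ + dβ` of Morrey growth on the complement of `N`, which are
smooth on the complement of `K`, and limits of smooth pairs -/
structure UCL {m : ℕ} (F : X → E m) (J : End d X) (a : ℝ) (σ₀ : Form d X 2) (β : Form d X 1)
    (σ : Form d X 2) (K N : Set X) : Prop where
  smβ : SmoothOff β K
  smooth : SmoothOff σ K
  isD : IsDOff β (σ - σ₀) K
  lp : ∀ z : X, ∀ p ∈ (chartAt (E d) z).target,
    LPp (pb (chartAt (E d) z).symm β) (pb (chartAt (E d) z).symm (σ - σ₀)) p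
  mor : ∀ z : X, ∀ p ∈ (chartAt (E d) z).target, Mor a (pb (chartAt (E d) z).symm σ) p
  pos : ∃ c : ℝ, 0 < c ∧ ∀ x, x ∉ N → ∀ v : TangentSpace (𝓡 d) x,
    c * nm F x v ^ 2 ≤ σ x ![v, J x v]

theorem stepCL {m : ℕ} {a γ : ℝ} (ha : 0 ≤ a) (haγ : a < γ) (hγ : γ ≤ 1) (had : a ≤ d)
    (hI : S_IMM) (hSm : S_SM) (hHH : S_HH) (hPa : S_PATCH2) (hPp : S_PATCHP)
    [IsManifold (𝓡 d) ∞ X] [T2Space X] {F : X → E m} (hF : ContMDiff (𝓡 d) (𝓡 m) ∞ F)
    (hFi : ∀ x, Function.Injective (mfderiv (𝓡 d) (𝓡 m) F x)) {J : End d X}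
    (hJ : IsAlmostComplex J) {σ₀ : Form d X 2} (hσ₀ : IsSmooth σ₀) (hσ₀c : IsClosedForm σ₀)
    {z : X} (hHol : Hol γ J z) :
    ∃ W : Set X, IsOpen W ∧ z ∈ W ∧ ∀ (K N : Set X) (β : Form d X 1) (w : Form d X 2),
      IsClosed K → N ⊆ K → NullX (d := d) N → UCL F J a σ₀ β w K N →
      ∃ (β' : Form d X 1) (w' : Form d X 2), UCL F J a σ₀ β' w' (K \ W) (N \ W) := by
  -- the ball
  obtain ⟨rH, H, hrH, hH0, hHol'⟩ := hHol
  obtain ⟨r, hr, hrr, hball⟩ : ∃ r : ℝ, 0 < r ∧ r ≤ rH ∧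
      Metric.closedBall (chartAt (E d) z z) r ⊆ (chartAt (E d) z).target := by
    obtain ⟨r, hr, h6⟩ := Metric.nhds_basis_closedBall.mem_iff.1
      ((chartAt (E d) z).open_target.mem_nhds (mem_chart_target (E d) z))
    exact ⟨min r rH, lt_min hr hrH, min_le_right _ _,
      (Metric.closedBall_subset_closedBall (min_le_left r rH)).trans h6⟩
  obtain ⟨p₀, hp₀⟩ : ∃ p₀, p₀ = chartAt (E d) z z := ⟨_, rfl⟩
  rw [← hp₀] at hball hHol'
  obtain ⟨e, he⟩ : ∃ e, e = chartAt (E d) z := ⟨_, rfl⟩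
  have hzs : z ∈ e.source := by rw [he]; exact mem_chart_source (E d) z
  have hez : e z = p₀ := by rw [he, hp₀]
  have hVt : Metric.closedBall p₀ r ⊆ e.target := fun p hp => by
    rw [he]; exact hball hp
  have hV : Metric.ball p₀ r ⊆ e.target := Metric.ball_subset_closedBall.trans hVt
  have hN : IsCompact (Metric.closedBall p₀ r) := isCompact_closedBall p₀ r
  obtain ⟨ci, Ci, hci, hCi, hnm⟩ := hI d m X F hF hFi z (Metric.closedBall p₀ r) hN
    (by rw [← he]; exact hVt)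
  have hW : IsOpen (e.source ∩ e ⁻¹' Metric.ball p₀ (r / 2)) :=
    e.isOpen_inter_preimage Metric.isOpen_ball
  have hO : IsOpen (e.source ∩ e ⁻¹' Metric.ball p₀ r) :=
    e.isOpen_inter_preimage Metric.isOpen_ball
  obtain ⟨W, hWd⟩ : ∃ W, W = e.source ∩ e ⁻¹' Metric.ball p₀ (r / 2) := ⟨_, rfl⟩
  obtain ⟨O, hOd⟩ : ∃ O, O = e.source ∩ e ⁻¹' Metric.ball p₀ r := ⟨_, rfl⟩
  rw [← hWd] at hW
  rw [← hOd] at hO
  have heO : e '' O = Metric.ball p₀ r := by
    apply Subset.antisymm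
    · rintro _ ⟨x, hx, rfl⟩
      rw [hOd] at hx
      exact hx.2
    · intro p hp
      refine ⟨e.symm p, ?_, e.right_inv (hV hp)⟩
      rw [hOd]
      refine ⟨e.map_target (hV hp), ?_⟩
      rw [mem_preimage, e.right_inv (hV hp)]
      exact hp
  have hOs : O ⊆ e.source := by rw [hOd]; exact inter_subset_left
  have hWO : W ⊆ O := by
    rw [hWd, hOd]
    exact inter_subset_inter_right _ (preimage_mono (Metric.ball_subset_ball (by linarith)))
  have hWs : ∀ p ∈ Metric.ball p₀ r, e.symm p ∈ W ↔ p ∈ Metric.ball p₀ (r / 2) := by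
    intro p hp
    rw [hWd]
    constructor
    · rintro ⟨_, h⟩
      rwa [mem_preimage, e.right_inv (hV hp)] at h
    · intro h
      refine ⟨e.map_target (hV hp), ?_⟩
      rwa [mem_preimage, e.right_inv (hV hp)]
  -- the cut-off function
  obtain ⟨φ, hφ⟩ : ∃ φ : ContDiffBump p₀, φ.rOut = r / 2 :=
    ⟨⟨r / 4, r / 2, by positivity, by linarith⟩, rfl⟩
  obtain ⟨χ, D₁, hD₁, hχs, hχnn, hχ1, hχcs, hχt, hχ0, hχD⟩ := bump_pow φ ha (haγ.trans_le hγ)
  rw [hφ] at hχt hχ0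
  have htV : Metric.closedBall p₀ (r / 2) ⊆ Metric.ball p₀ r :=
    Metric.closedBall_subset_ball (by linarith)
  refine ⟨W, hW, ?_, ?_⟩
  · rw [hWd]
    refine ⟨hzs, ?_⟩
    rw [mem_preimage, hez]
    exact Metric.mem_ball_self (by linarith)
  intro K N β w hK hNK hNull hUT
  obtain ⟨c₁, hc₁, hwc⟩ := hUT.pos
  obtain ⟨k, hk⟩ : ∃ k, k = Metric.ball p₀ r ∩ e.symm ⁻¹' K := ⟨_, rfl⟩
  have hVk : Metric.ball p₀ r \ k = Metric.ball p₀ r ∩ e.symm ⁻¹' Kᶜ := by
    rw [hk]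
    ext p
    simp only [Set.mem_sdiff, mem_inter_iff, mem_preimage, mem_compl_iff]
    tauto
  have hVko : IsOpen (Metric.ball p₀ r \ k) := by
    rw [hVk]
    have h1 : IsOpen (e.target ∩ e.symm ⁻¹' Kᶜ) := e.isOpen_inter_preimage_symm hK.isOpen_compl
    have h2 : Metric.ball p₀ r ∩ e.symm ⁻¹' Kᶜ = Metric.ball p₀ r ∩ (e.target ∩ e.symm ⁻¹' Kᶜ) := by
      rw [← inter_assoc, inter_eq_left.2 hV]
    rw [h2]
    exact Metric.isOpen_ball.inter h1
  have hsK : ∀ p ∈ Metric.ball p₀ r \ k, e.symm p ∉ K := by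
    intro p hp
    rw [hVk] at hp
    exact hp.2
  obtain ⟨n, hn⟩ : ∃ n, n = Metric.ball p₀ r ∩ e.symm ⁻¹' N := ⟨_, rfl⟩
  have hnk : n ⊆ k := by
    rw [hn, hk]
    exact inter_subset_inter_right _ (preimage_mono hNK)
  have hsN : ∀ p ∈ Metric.ball p₀ r \ n, e.symm p ∉ N := by
    intro p hp h
    rw [hn] at hp
    exact hp.2 ⟨hp.1, h⟩
  have hn0 : ∀ Q : Set (E d), IsCompact Q → Q ⊆ Metric.ball p₀ r → volume (n ∩ Q) = 0 := by
    intro Q _ _
    refine measure_mono_null ?_ (hNull z)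
    rintro p ⟨hpn, -⟩
    rw [hn] at hpn
    rw [← he]
    exact ⟨hV hpn.1, hpn.2⟩
  have hsymm : ContMDiffOn (𝓡 d) (𝓡 d) ∞ (chartAt (E d) z).symm (Metric.ball p₀ r) :=
    contMDiffOn_chart_symm.mono (by rw [← he]; exact hV)
  have hs1 : ContDiffOn ℝ ∞ (pb (chartAt (E d) z).symm w) (Metric.ball p₀ r \ k) :=
    hUT.smooth _ _ hVko (hsymm.mono sdiff_subset) (by rw [← he]; exact hsK)
  have hb1 : ContDiffOn ℝ ∞ (pb (chartAt (E d) z).symm β) (Metric.ball p₀ r \ k) :=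
    hUT.smβ _ _ hVko (hsymm.mono sdiff_subset) (by rw [← he]; exact hsK)
  have hs2 : ∀ p ∈ Metric.ball p₀ r \ k, extDeriv (pb (chartAt (E d) z).symm β) p =
      pb (chartAt (E d) z).symm w p - pb (chartAt (E d) z).symm σ₀ p := fun p hp =>
    hUT.isD _ _ hVko (hsymm.mono sdiff_subset) (by rw [← he]; exact hsK) p hp
  have hs₀ : ContDiffOn ℝ ∞ (pb (chartAt (E d) z).symm σ₀) (Metric.ball p₀ r) :=
    hσ₀ _ _ Metric.isOpen_ball hsymm
  have hs₀c : ∀ p ∈ Metric.ball p₀ r, extDeriv (pb (chartAt (E d) z).symm σ₀) p = 0 := by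
    intro p hp
    rw [hσ₀c _ _ Metric.isOpen_ball hsymm p hp, pb_zero]
    rfl
  have hs4 : ∀ p ∈ Metric.ball p₀ r \ n, ∀ v : E d,
      c₁ * ci ^ 2 * ‖v‖ ^ 2 ≤ pb (chartAt (E d) z).symm w p ![v, inChart J z p v] := by
    intro p hp v
    have hpc : p ∈ Metric.closedBall p₀ r := Metric.ball_subset_closedBall hp.1
    have hpK : (chartAt (E d) z).symm p ∉ N := by rw [← he]; exact hsN p hp
    have h0 := Pool.Agent.Y455.SY.Q_eq w J z (p := p) (by rw [← he]; exact hV hp.1) v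
    unfold Pool.Agent.Y455.SY.Q at h0
    rw [h0]
    refine le_trans ?_ (hwc ((chartAt (E d) z).symm p) hpK (Pool.Agent.Y455.SY.A z p v))
    have h1 : (ci * ‖v‖) ^ 2 ≤ nm F ((chartAt (E d) z).symm p)
        (Pool.Agent.Y455.SY.A z p v) ^ 2 := pow_le_pow_left₀ (by positivity) (hnm p hpc v).1 2
    calc c₁ * ci ^ 2 * ‖v‖ ^ 2 = c₁ * (ci * ‖v‖) ^ 2 := by ring
      _ ≤ _ := by gcongr
  have hJc : ContinuousOn (inChart J z) (Metric.ball p₀ r) := (hJ.cont z).mono (by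
    rw [← he]; exact hV)
  obtain ⟨b', s', c', hc', g1, g2, g3, g4, g4', g5, g6, g7⟩ := regCL hSm hHH
    (V := Metric.ball p₀ r) (k := k) (N := n)
    (χ := χ) (s₀ := pb (chartAt (E d) z).symm σ₀) (s := pb (chartAt (E d) z).symm w)
    (b := pb (chartAt (E d) z).symm β) (Js := inChart J z) (c := c₁ * ci ^ 2) (a := a)
    (γ := γ) (H := H) (D₁ := D₁) (by positivity) ha haγ hγ hH0 hD₁
    Metric.isOpen_ball hVko hnk hn0 (fun p hp => hUT.lp z p (by rw [← he]; exact hV hp))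
    (fun p hp => hUT.mor z p (by rw [← he]; exact hV hp))
    hχs hχnn hχ1 hχD hχcs (by rw [hχt]; exact htV) hs₀ hs₀c hb1 hs1 hs2 hJc
    (fun p hp q hq => hHol' p (Metric.ball_subset_ball hrr hp) q (Metric.ball_subset_ball hrr hq))
    hs4
  obtain ⟨β₁, w₁, f1, f2, f3, hlc, hout, f4⟩ := patchC (z := z) hPa hPp hσ₀ hσ₀c hr
    (by rw [← hp₀]; exact hball)
    (χ := χ) (by rw [← hp₀]; exact hχ0) hK hUT.smβ hUT.smooth hUT.isD hUT.lp
    (b' := b') (s' := s')
    (by rw [← hp₀, ← he, ← hk]; exact g1) (by rw [← hp₀, ← he, ← hk]; exact g2)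
    (by rw [← hp₀, ← he, ← hk]; rw [← he] at g3; exact g3)
    g4 g4' (by rw [← hp₀]; exact g6) (W := W) (O := O)
    (by rw [← hp₀, ← he]; exact hWd) (by rw [← hp₀, ← he]; exact hOd)
  rw [← hp₀] at f4
  have hin : ∀ x ∈ O, x ∉ N \ W → ∃ p ∈ Metric.ball p₀ r \ (n ∩ {p | χ p = 0}), e.symm p = x := by
    intro x hx hx2
    have hxb : e x ∈ Metric.ball p₀ r := by
      rw [← heO]
      exact ⟨x, hx, rfl⟩
    refine ⟨e x, ⟨hxb, ?_⟩, e.left_inv (hOs hx)⟩
    rintro ⟨h1, h2⟩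
    apply hx2
    rw [hn] at h1
    have h3 : e.symm (e x) ∈ N := h1.2
    rw [e.left_inv (hOs hx)] at h3
    refine ⟨h3, fun h4 => ?_⟩
    have h5 := (hχ0 (e x)).1 h2
    rw [← hWs _ hxb, e.left_inv (hOs hx)] at h5
    exact h5 h4
  -- the pointwise comparison in the chart
  have hloc : ∀ x ∈ O, x ∉ N \ W → ∀ v : TangentSpace (𝓡 d) x,
      c' * Ci⁻¹ ^ 2 * nm F x v ^ 2 ≤ w₁ x ![v, J x v] := by
    intro x hxO hx v
    obtain ⟨p, hp, rfl⟩ := hin x hxO hx
    have hpc : p ∈ Metric.closedBall p₀ r := Metric.ball_subset_closedBall hp.1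
    have hpt : p ∈ (chartAt (E d) z).target := by rw [← he]; exact hV hp.1
    subst he
    have hv := Pool.Agent.Y455.SY.AB z hpt v
    obtain ⟨v', hv'⟩ : ∃ v', v' = Pool.Agent.Y455.SY.B z p v := ⟨_, rfl⟩
    rw [← hv'] at hv
    have hf4 := f4 p hp.1
    have h0 := Pool.Agent.Y455.SY.Q_eq w₁ J z hpt v'
    unfold Pool.Agent.Y455.SY.Q at h0
    rw [hv, hf4] at h0
    have hq := g5 p hp v'
    rw [h0] at hq
    have hv4 := (hnm p hpc v').2
    change nm F ((chartAt (E d) z).symm p) (Pool.Agent.Y455.SY.A z p v') ≤ Ci * ‖v'‖ at hv4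
    rw [hv] at hv4
    have h6 : Ci⁻¹ * nm F ((chartAt (E d) z).symm p) v ≤ ‖v'‖ := by
      rw [inv_mul_eq_div, div_le_iff₀ hCi, mul_comm]
      exact hv4
    have n1 : 0 ≤ nm F ((chartAt (E d) z).symm p) v := norm_nonneg _
    have h7 : (Ci⁻¹ * nm F ((chartAt (E d) z).symm p) v) ^ 2 ≤ ‖v'‖ ^ 2 :=
      pow_le_pow_left₀ (by positivity) h6 2
    refine le_trans ?_ hq
    calc c' * Ci⁻¹ ^ 2 * nm F ((chartAt (E d) z).symm p) v ^ 2
        = c' * (Ci⁻¹ * nm F ((chartAt (E d) z).symm p) v) ^ 2 := by ring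
      _ ≤ c' * ‖v'‖ ^ 2 := by gcongr
  have hmr : ∀ z₂ : X, ∀ p ∈ (chartAt (E d) z₂).target,
      Mor a (pb (chartAt (E d) z₂).symm w₁) p := by
    intro z₂ p hp
    by_cases hx : (chartAt (E d) z₂).symm p ∈ O
    · have hxb : e ((chartAt (E d) z₂).symm p) ∈ Metric.ball p₀ r := by
        rw [← heO]
        exact ⟨_, hx, rfl⟩
      have h1 : Mor a (pb (chartAt (E d) z).symm w₁)
          (e ((chartAt (E d) z₂).symm p)) := by
        obtain ⟨R', hR', hRb⟩ := Metric.isOpen_iff.1 Metric.isOpen_ball _ hxb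
        refine (g7 _ hxb).congr hR' fun q hq => ?_
        exact f4 q (hRb hq)
      refine Mor.trans had (p₁ := e ((chartAt (E d) z₂).symm p)) ?_ hp ?_ h1
      · rw [← he]
        exact hV hxb
      · rw [← he]
        exact e.left_inv (hOs hx)
    · have hcl : IsClosed (e.symm '' Metric.closedBall p₀ (r / 2)) :=
        ((isCompact_closedBall p₀ (r / 2)).image_of_continuousOn
          (e.continuousOn_symm.mono (htV.trans hV))).isClosed
      have hsub : e.symm '' Metric.closedBall p₀ (r / 2) ⊆ O := by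
        rintro _ ⟨q, hq, rfl⟩
        rw [hOd]
        refine ⟨e.map_target (hV (htV hq)), ?_⟩
        rw [mem_preimage, e.right_inv (hV (htV hq))]
        exact htV hq
      have h1 : ∀ᶠ q in 𝓝 p, (chartAt (E d) z₂).symm q ∉ e.symm '' Metric.closedBall p₀ (r / 2) := by
        have h2 : ContinuousAt (chartAt (E d) z₂).symm p := (chartAt (E d) z₂).continuousAt_symm hp
        exact h2.eventually (hcl.isOpen_compl.mem_nhds fun h => hx (hsub h))
      obtain ⟨R', hR', hRb⟩ := Metric.eventually_nhds_iff_ball.1 h1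
      refine (hUT.mor z₂ p hp).congr hR' fun q hq => ?_
      have hq' := hRb q hq
      apply pb_val
      by_cases hqO : (chartAt (E d) z₂).symm q ∈ O
      · have hqb : e ((chartAt (E d) z₂).symm q) ∈ Metric.ball p₀ r := by
          rw [← heO]
          exact ⟨_, hqO, rfl⟩
        have h3 : χ (e ((chartAt (E d) z₂).symm q)) = 0 := by
          rw [hχ0]
          intro h
          apply hq'
          exact ⟨_, Metric.ball_subset_closedBall h, e.left_inv (hOs hqO)⟩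
        have h4 := pb_inj2 w₁ w (z := z) (p := e ((chartAt (E d) z₂).symm q))
          (by rw [← he]; exact hV hqb) (by rw [f4 _ hqb, g4' _ h3])
        rw [← he, e.left_inv (hOs hqO)] at h4
        exact h4
      · exact hout _ hqO
  refine ⟨β₁, w₁, f1, f2, f3, hlc, hmr, ?_⟩
  refine ⟨min c₁ (c' * Ci⁻¹ ^ 2), lt_min hc₁ (by positivity), ?_⟩
  intro x hx v
  by_cases hxO : x ∈ O
  · refine le_trans ?_ (hloc x hxO hx v)
    have := min_le_right c₁ (c' * Ci⁻¹ ^ 2)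
    gcongr
  · rw [hout x hxO]
    have hxK : x ∉ N := fun h => hx ⟨h, fun h' => hxO (hWO h')⟩
    refine le_trans ?_ (hwc x hxK v)
    have := min_le_left c₁ (c' * Ci⁻¹ ^ 2)
    gcongr

end

end Pool.Agent.U896.SC
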