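import Pool.Agent.U896.SC.P7
import Pool.Agent.U896.SW.MainM

/-!
# Forms in a prescribed class: the main theorem
-/

set_option autoImplicit false

open Set Filter Topology MeasureTheory
open scoped Manifold ContDiff ENNReal

noncomputable section

namespace Pool.Agent.U896.SC

open Pool.Agent.Y501.SY
open Pool.Agent.U896.SE (EccAt ecc_near)
open Pool.Agent.U896.SW (NullX LCn LCl globM)

section

variable {d : ℕ} {X : Type} [TopologicalSpace X] [ChartedSpace (E d) X]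

theorem LP.toLC {b : E d → (E d) [⋀^Fin 1]→L[ℝ] ℝ} {s s₀ : E d → (E d) [⋀^Fin 2]→L[ℝ] ℝ}
    {O : Set (E d)} (hO : IsOpen O) (h : LP b (fun q => s q - s₀ q) O)
    (hs₀ : ContDiffOn ℝ ∞ s₀ O) (hs₀c : ∀ p ∈ O, extDeriv s₀ p = 0)
    (hf : ∫⁻ p in O, ‖s₀ p‖ₑ < ⊤) : LCl s O := by
  have hm : AEStronglyMeasurable s₀ (volume.restrict O) :=
    hs₀.continuousOn.aestronglyMeasurable hO.measurableSet
  have h1 : LCl (fun q => s q - s₀ q) O := by
    refine ⟨h.ms, h.fs, fun δ hδ => ?_⟩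
    obtain ⟨B, h1, h2, h3⟩ := h.app δ hδ
    refine ⟨extDeriv B, extD_cont hO h1, fun p hp => ?_, h3⟩
    exact extDeriv_extDeriv_apply (h1.contDiffAt (hO.mem_nhds hp)) Pool.Agent.Y515.SY.smooth2
  have h2 := LCl.add hO h1 hs₀ hs₀c hf
  exact h2.congr hO fun p _ => (sub_add_cancel _ _).symm

theorem LPp.toLCn {b : E d → (E d) [⋀^Fin 1]→L[ℝ] ℝ} {s s₀ : E d → (E d) [⋀^Fin 2]→L[ℝ] ℝ}
    {p : E d} {T : Set (E d)} (hT : IsOpen T) (hp : p ∈ T)
    (h : LPp b (fun q => s q - s₀ q) p)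
    (hs₀ : ContDiffOn ℝ ∞ s₀ T) (hs₀c : ∀ p ∈ T, extDeriv s₀ p = 0) : LCn s p := by
  obtain ⟨r, hr, hL⟩ := h
  obtain ⟨R, hR, hRT⟩ := Metric.nhds_basis_closedBall.mem_iff.1 (hT.mem_nhds hp)
  have hsub : Metric.ball p (min r R) ⊆ T := fun q hq =>
    hRT (Metric.ball_subset_closedBall (Metric.ball_subset_ball (min_le_right _ _) hq))
  exact ⟨min r R, lt_min hr hR, LP.toLC Metric.isOpen_ball
    (hL.mono (Metric.ball_subset_ball (min_le_left _ _))) (hs₀.mono hsub)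
    (fun q hq => hs₀c q (hsub hq)) (fin_bdd (min_le_right _ _) (hs₀.continuousOn.mono hRT))⟩

theorem closed_chart {σ₀ : Form d X 2} [IsManifold (𝓡 d) ∞ X] (hσ₀ : IsSmooth σ₀)
    (hσ₀c : IsClosedForm σ₀) (z : X) :
    ContDiffOn ℝ ∞ (pb (chartAt (E d) z).symm σ₀) (chartAt (E d) z).target ∧
    ∀ p ∈ (chartAt (E d) z).target, extDeriv (pb (chartAt (E d) z).symm σ₀) p = 0 := by
  refine ⟨hσ₀ _ _ (chartAt (E d) z).open_target contMDiffOn_chart_symm, fun p hp => ?_⟩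
  rw [hσ₀c _ _ (chartAt (E d) z).open_target contMDiffOn_chart_symm p hp, pb_zero]
  rfl

/-- the start of the regularization -/
theorem startC {σ₀ : Form d X 2} [IsManifold (𝓡 d) ∞ X] {β α₁ : Form d X 1}
    {σ η : Form d X 2} {K : Set X} (hβ : SmoothOff β K) (hβσ : IsDOff β (σ - σ₀) K)
    (hlp : ∀ z : X, ∀ p ∈ (chartAt (E d) z).target,
      LPp (pb (chartAt (E d) z).symm β) (pb (chartAt (E d) z).symm (σ - σ₀)) p)
    (hα₁ : IsSmooth α₁) (hηs : IsSmooth η) (hαη : IsD α₁ η) (s : ℝ) :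
    SmoothOff (β + s • α₁) K ∧ IsDOff (β + s • α₁) (σ + s • η - σ₀) K ∧
    ∀ z : X, ∀ p ∈ (chartAt (E d) z).target,
      LPp (pb (chartAt (E d) z).symm (β + s • α₁)) (pb (chartAt (E d) z).symm (σ + s • η - σ₀)) p := by
  have e : σ + s • η - σ₀ = (σ - σ₀) + s • η := by abel
  refine ⟨hβ.addSmooth (hα₁.smul s), ?_, ?_⟩
  · intro U φ hU hφ hKφ p hp
    have h1 := hβσ U φ hU hφ hKφ p hp
    have h2 := (hαη.smul s) U φ hU hφ p hp
    rw [pb_add, extDeriv_add (hβ.diffAt hU hφ hKφ hp) ((hα₁.smul s).diffAt hU hφ hp), h1, h2]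
    rw [e, pb_add]
    rfl
  · intro z p hp
    rw [e, pb_add, pb_add]
    refine LPp.add (chartAt (E d) z).open_target hp (hlp z p hp)
      (a := pb (chartAt (E d) z).symm (s • α₁)) (η := pb (chartAt (E d) z).symm (s • η)) ?_ ?_ ?_
    · exact (hα₁.smul s) _ _ (chartAt (E d) z).open_target contMDiffOn_chart_symm
    · exact (hηs.smul s) _ _ (chartAt (E d) z).open_target contMDiffOn_chart_symm
    · intro q hq
      exact (hαη.smul s) _ _ (chartAt (E d) z).open_target contMDiffOn_chart_symm q hq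

/-- the end of the regularization -/
theorem endC [IsManifold (𝓡 d) ∞ X] {m : ℕ} {F : X → E m}
    (hFi : ∀ x, Function.Injective (mfderiv (𝓡 d) (𝓡 m) F x)) {J : End d X}
    {σ₀ : Form d X 2} (hσ₀ : IsSmooth σ₀) (hσ₀c : IsClosedForm σ₀)
    {β' : Form d X 1} {w : Form d X 2} (h1 : SmoothOff β' ∅) (h2 : SmoothOff w ∅)
    (h3 : IsDOff β' (w - σ₀) ∅)
    (h4 : ∃ c : ℝ, 0 < c ∧ ∀ x, x ∉ (∅ : Set X) → ∀ v : TangentSpace (𝓡 d) x,
      c * nm F x v ^ 2 ≤ w x ![v, J x v]) :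
    IsSmooth β' ∧ IsSmooth (w - σ₀) ∧ IsD β' (w - σ₀) ∧ IsClosedForm (σ₀ + (w - σ₀)) ∧
      ∀ x, TamesAt (σ₀ + (w - σ₀)) J x := by
  obtain ⟨c, hc, hwc⟩ := h4
  have hβs : IsSmooth β' := fun V φ hV hφ => h1 V φ hV hφ fun p _ => notMem_empty _
  have hws : IsSmooth w := fun V φ hV hφ => h2 V φ hV hφ fun p _ => notMem_empty _
  have hρ : IsSmooth (w - σ₀) := by
    have h7 := hws.add (hσ₀.smul (-1))
    have h8 : w + (-1 : ℝ) • σ₀ = w - σ₀ := by
      funext x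
      ext u
      change w x u + (-1 : ℝ) * σ₀ x u = w x u - σ₀ x u
      ring
    rwa [h8] at h7
  have hd' : IsD β' (w - σ₀) := fun V φ hV hφ => h3 V φ hV hφ fun p _ => notMem_empty _
  have hcl : IsClosedForm (σ₀ + (w - σ₀)) := by
    have h1 := hσ₀c.add (closed_of_isD hβs hρ hd') hσ₀ hρ
    rwa [add_zero] at h1
  refine ⟨hβs, hρ, hd', hcl, fun x v hv => ?_⟩
  rw [add_sub_cancel]
  refine lt_of_lt_of_le ?_ (hwc x (notMem_empty _) v)
  have h1 : 0 < nm F x v := by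
    refine lt_of_le_of_ne (norm_nonneg _) fun h => hv ?_
    have h2 : (mfderiv (𝓡 d) (𝓡 m) F x v : E m) = 0 := norm_eq_zero.1 h.symm
    apply hFi x
    rw [map_zero]
    exact h2
  positivity

variable [IsManifold (𝓡 d) ∞ X]

theorem mainC (hd : 0 < d) (hI : S_IMM) (hQ : S_QB) (hSm : S_SM) (hHH : S_HH)
    (hPa : S_PATCH2) (hPp : S_PATCHP) [CompactSpace X] [T2Space X] {J : End d X}
    (hJ : IsAlmostComplex J)
    {K N : Set X} (hK : IsClosed K) (hNK : N ⊆ K) (hN : NullX (d := d) N)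
    {σ₀ : Form d X 2} (hσ₀ : IsSmooth σ₀) (hσ₀c : IsClosedForm σ₀) {β : Form d X 1}
    {σ : Form d X 2} (hβ : SmoothOff β K) (hσ : SmoothOff σ K) (hβσ : IsDOff β (σ - σ₀) K)
    (hlp : ∀ z : X, ∀ p ∈ (chartAt (E d) z).target,
      LPp (pb (chartAt (E d) z).symm β) (pb (chartAt (E d) z).symm (σ - σ₀)) p)
    (hb : ∀ x, EccAt σ J N x)
    (hpos : ∀ x, x ∉ N → ∀ v : TangentSpace (𝓡 d) x, 0 ≤ σ x ![v, J x v])
    (hthin : ∀ z, ¬ UTAt σ J N z →
      ThinAt2 0 0 J (connectedComponentIn {x | ¬ UTAt σ J N x} z) z) :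
    ∃ (α : Form d X 1) (ρ : Form d X 2), IsSmooth α ∧ IsSmooth ρ ∧ IsD α ρ ∧
      IsClosedForm (σ₀ + ρ) ∧ ∀ x, TamesAt (σ₀ + ρ) J x := by
  classical
  obtain ⟨m, F, hF, -, hFi⟩ := exists_embedding_euclidean_of_compact (I := 𝓡 d) (M := X)
  have hσc : IsDOff σ 0 K := closedOff_of hσ₀ hσ₀c hβ hβσ
  have hFc : IsClosed {x | ¬ UTAt σ J N x} :=
    (isOpen_UTAt hI hF hFi σ J N).isClosed_compl
  have hne : ∃ v : E d, v ≠ 0 := by
    have : Nontrivial (E d) := by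
      have : Nonempty (Fin d) := ⟨⟨0, hd⟩⟩
      infer_instance
    exact exists_ne 0
  have hD2 : D2 (0 : Form d X 2) 0 J {x | ¬ UTAt σ J N x} = {x | ¬ UTAt σ J N x} := by
    apply Subset.antisymm
    · exact fun x hx => hx.1
    · intro x hx
      obtain ⟨v, hv⟩ := hne
      exact ⟨hx, v, hv, rfl, rfl⟩
  obtain ⟨α, η, hpair, hη⟩ := level2 Pool.Agent.Y484.SY.t_GEN Pool.Agent.Y108.SY.t_PERT2
    Pool.Agent.Y925.SY.t_PLANAR hJ (σ := 0) (θ := 0) IsSmooth.zero IsSmooth.zero hFc (by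
      rw [hD2]
      exact hthin)
  obtain ⟨hα, hηs, hαη, hηc⟩ := hpair.props Pool.Agent.Y484.SY.t_GEN
  have hLC : ∀ z : X, ∀ p ∈ (chartAt (E d) z).target, LCn (pb (chartAt (E d) z).symm σ) p := by
    intro z p hp
    obtain ⟨h1, h2⟩ := closed_chart hσ₀ hσ₀c z
    exact LPp.toLCn (chartAt (E d) z).open_target hp (hlp z p hp) h1 h2
  obtain ⟨s, hs, hUT⟩ := globM hI hQ F hF hFi J hJ σ η K N hσ hσc hLC hηs hηc hb hpos (by
    intro x
    by_cases h : UTAt σ J N x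
    · exact Or.inl h
    · exact Or.inr fun v hv => hη x h v hv rfl rfl)
  obtain ⟨k1, k2, k3⟩ := startC hβ hβσ hlp hα hηs hαη s
  have hstart : UC F J σ₀ (β + s • α) (σ + s • η) K N :=
    ⟨k1, hUT.smooth, k2, k3, hUT.pos, hUT.ecc⟩
  -- the regularization
  choose W hWo hWz hW using fun z : X =>
    stepC (X := X) hI hSm hHH hPa hPp hF hFi hJ hσ₀ hσ₀c z
  have hfin : ∀ t : Finset X, ∃ (β' : Form d X 1) (w : Form d X 2),
      UC F J σ₀ β' w (K \ ⋃ z ∈ t, W z) (N \ ⋃ z ∈ t, W z) := by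
    intro t
    induction t using Finset.induction_on with
    | empty =>
      refine ⟨β + s • α, σ + s • η, ?_⟩
      have : K \ ⋃ z ∈ (∅ : Finset X), W z = K := by simp
      have h2 : N \ ⋃ z ∈ (∅ : Finset X), W z = N := by simp
      rw [this, h2]
      exact hstart
    | insert a t ha ih =>
      obtain ⟨β', w, hw⟩ := ih
      have hop : IsOpen (⋃ z ∈ t, W z) := isOpen_biUnion fun z _ => hWo z
      have hcl : IsClosed (K \ ⋃ z ∈ t, W z) := by
        rw [sdiff_eq]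
        exact hK.inter hop.isClosed_compl
      obtain ⟨β'', w', hw'⟩ := hW a _ _ β' w hcl
        (sdiff_subset_sdiff_left hNK)
        (fun x₀ => measure_mono_null (inter_subset_inter_right _ (preimage_mono sdiff_subset))
          (hN x₀)) hw
      refine ⟨β'', w', ?_⟩
      have h1 : ∀ S : Set X, S \ ⋃ z ∈ insert a t, W z = (S \ ⋃ z ∈ t, W z) \ W a := by
        intro S
        rw [Finset.set_biUnion_insert, union_comm, sdiff_sdiff_left]
        rfl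
      rw [h1, h1]
      exact hw'
  obtain ⟨t, -, htc⟩ := hK.isCompact.elim_nhds_subcover W
    (fun z _ => (hWo z).mem_nhds (hWz z))
  obtain ⟨β', w, hw⟩ := hfin t
  have hempty : K \ ⋃ z ∈ t, W z = ∅ := by
    rw [sdiff_eq_empty]
    exact htc
  have hempty' : N \ ⋃ z ∈ t, W z = ∅ := by
    rw [← subset_empty_iff, ← hempty]
    exact sdiff_subset_sdiff_left hNK
  rw [hempty, hempty'] at hw
  exact ⟨β', w - σ₀, endC hFi hσ₀ hσ₀c hw.smβ hw.smooth hw.isD hw.pos⟩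

end

end Pool.Agent.U896.SC
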