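import Pool.Agent.U896.SW.AvC
import Pool.Agent.Y710.SY.J1
import Pool.Agent.Y972.SY.RGP

/-!
# Forms in a prescribed class: averages of integrable one-forms
-/

set_option autoImplicit false

open Set Filter Topology MeasureTheory
open scoped Manifold ContDiff ENNReal

noncomputable section

namespace Pool.Agent.U896.SC

open Pool.Agent.Y501.SY (E Moll S_SM JJ1)
open Pool.Agent.Y515.SY
open Pool.Agent.Y710.SY
open Pool.Agent.U896
open Pool.Agent.U896.SE hiding sq aff_null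
open Pool.Agent.U896.SW

variable {d : ℕ}

theorem JJ1_meas {ρ χ : E d → ℝ} (hg : Continuous ρ)
    {Φ : E d → Al d 1} (hf : AEStronglyMeasurable Φ volume) {p : E d} (hp : 0 < χ p) :
    AEStronglyMeasurable (fun y => ρ y •
      (Φ (p + χ p • y)).compContinuousLinearMap (LL (fderiv ℝ χ p) y)) volume := by
  have h1 : AEStronglyMeasurable (fun y => Φ (p + χ p • y)) volume := by
    have hq : Measure.QuasiMeasurePreserving (fun y : E d => p + χ p • y) volume volume := by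
      refine ⟨aff_meas p (χ p), ?_⟩
      refine Measure.AbsolutelyContinuous.mk fun A hA h0 => ?_
      rw [Measure.map_apply (aff_meas p (χ p)) hA]
      have h2 : (fun y : E d => p + χ p • y) ⁻¹' A =
          (fun y : E d => χ p • y) ⁻¹' ((fun y : E d => p + y) ⁻¹' A) := rfl
      rw [h2, Measure.addHaar_preimage_smul _ hp.ne', measure_preimage_add, h0, mul_zero]
    exact hf.comp_quasiMeasurePreserving hq
  have h2 : AEStronglyMeasurable (fun y : E d => LL (fderiv ℝ χ p) y) volume :=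
    (LL_cont _).aestronglyMeasurable
  have h3 : AEStronglyMeasurable (fun y => (Φ (p + χ p • y), LL (fderiv ℝ χ p) y)) volume :=
    h1.prodMk h2
  have h4 : AEStronglyMeasurable (fun y =>
      (Φ (p + χ p • y)).compContinuousLinearMap (LL (fderiv ℝ χ p) y)) volume :=
    Continuous.comp_aestronglyMeasurable (g := fun q : Al d 1 × (E d →L[ℝ] E d) =>
      q.1.compContinuousLinearMap q.2) comp1_cont h3
  exact hg.aestronglyMeasurable.smul h4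

theorem JJ1_int' {ρ χ : E d → ℝ} (hg : Continuous ρ) (hgc : HasCompactSupport ρ)
    {Φ : E d → Al d 1} (hf : Integrable Φ) {p : E d} (hp : 0 < χ p) :
    Integrable (fun y => ρ y •
      (Φ (p + χ p • y)).compContinuousLinearMap (LL (fderiv ℝ χ p) y)) := by
  have h1 : Integrable (fun y => Φ (p + χ p • y)) := aff_int hf p hp.ne'
  have hn : Integrable (fun y => ‖Φ (p + χ p • y)‖) := h1.norm
  obtain ⟨l, hl⟩ : ∃ l : ℝ, l = ‖fderiv ℝ χ p‖ := ⟨_, rfl⟩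
  have hl0 : 0 ≤ l := by rw [hl]; exact norm_nonneg _
  have hcs : HasCompactSupport (fun y : E d => ρ y * (1 + l * ‖y‖)) :=
    HasCompactSupport.mul_right (f := ρ) (f' := fun y : E d => (1 + l * ‖y‖)) hgc
  have hcc : Continuous (fun y : E d => ρ y * (1 + l * ‖y‖)) := by fun_prop
  obtain ⟨B, hB0, hB⟩ := cs_bdd hcc hcs
  have hdom : Integrable (fun y => B * ‖Φ (p + χ p • y)‖) := hn.const_mul B
  refine Integrable.mono' hdom (JJ1_meas hg hf.aestronglyMeasurable hp)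
    (Eventually.of_forall fun y => ?_)
  rw [norm_smul]
  have h2 := comp1_norm (Φ (p + χ p • y)) (LL (fderiv ℝ χ p) y)
  have h3 := LL_norm (fderiv ℝ χ p) y
  rw [← hl] at h3
  have h5 := hB y
  rw [norm_mul, Real.norm_of_nonneg (by positivity : 0 ≤ (1 + l * ‖y‖))] at h5
  have h6 : ‖ρ y‖ * ‖(Φ (p + χ p • y)).compContinuousLinearMap (LL (fderiv ℝ χ p) y)‖ ≤
      ‖ρ y‖ * (‖Φ (p + χ p • y)‖ * (1 + l * ‖y‖)) :=
    mul_le_mul_of_nonneg_left (h2.trans (mul_le_mul_of_nonneg_left h3 (norm_nonneg _)))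
      (norm_nonneg _)
  have h7 : ‖ρ y‖ * (‖Φ (p + χ p • y)‖ * (1 + l * ‖y‖)) =
      (‖ρ y‖ * (1 + l * ‖y‖)) * ‖Φ (p + χ p • y)‖ := by ring
  rw [h7] at h6
  exact h6.trans (mul_le_mul_of_nonneg_right h5 (norm_nonneg _))

theorem JJ1_apply' {ρ χ : E d → ℝ} (hg : Continuous ρ) (hgc : HasCompactSupport ρ)
    {Φ : E d → Al d 1} (hf : Integrable Φ) {p : E d} (hp : 0 < χ p) (v : E d) :
    JJ1 ρ χ Φ p ![v] = ∫ y, ρ y * Φ (p + χ p • y) ![v + fderiv ℝ χ p v • y] := by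
  unfold JJ1
  let L : (Al d 1) →L[ℝ] ℝ := ContinuousAlternatingMap.apply ℝ (E d) ℝ ![v]
  have hL : ∀ η : Al d 1, L η = η ![v] := fun η => rfl
  rw [← hL, ← L.integral_comp_comm (JJ1_int' hg hgc hf hp)]
  refine integral_congr_ae (Eventually.of_forall fun y => ?_)
  dsimp only
  rw [hL]
  change ρ y * ((Φ (p + χ p • y)).compContinuousLinearMap (LL (fderiv ℝ χ p) y)) ![v] = _
  rw [comp_one]
  rfl

theorem JJ1_add' {ρ χ : E d → ℝ} (hg : Continuous ρ) (hgc : HasCompactSupport ρ)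
    {Φ Ψ : E d → Al d 1} (hf : Integrable Φ) (hf' : Integrable Ψ) {p : E d} (hp : 0 < χ p) :
    JJ1 ρ χ (fun q => Φ q + Ψ q) p = JJ1 ρ χ Φ p + JJ1 ρ χ Ψ p := by
  unfold JJ1
  rw [← integral_add (JJ1_int' hg hgc hf hp) (JJ1_int' hg hgc hf' hp)]
  refine integral_congr_ae (Eventually.of_forall fun y => ?_)
  dsimp only
  rw [← smul_add]
  rfl

theorem ev1_int {Φ : E d → Al d 1} (hf : Integrable Φ) (v : E d) :
    Integrable (fun q => Φ q ![v]) :=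
  (ContinuousAlternatingMap.apply ℝ (E d) ℝ ![v]).integrable_comp hf

theorem JJ1_expand' {ρ χ : E d → ℝ} (hg : Continuous ρ) (hgc : HasCompactSupport ρ)
    {Φ : E d → Al d 1} (hf : Integrable Φ) {p : E d} (hp : 0 < χ p) (v : E d) :
    JJ1 ρ χ Φ p ![v] = II χ ρ (fun q => Φ q ![v]) p +
      fderiv ℝ χ p v * ∑ i, II χ (fun y => ρ y * y i) (fun q => Φ q ![bs i]) p := by
  rw [JJ1_apply' hg hgc hf hp]
  have hgi : ∀ i : Fin d, Continuous (fun y : E d => ρ y * y i) := fun i =>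
    hg.mul (EuclideanSpace.proj (𝕜 := ℝ) i).continuous
  have hgci : ∀ i : Fin d, HasCompactSupport (fun y : E d => ρ y * y i) := fun i =>
    hgc.mul_right
  have i0 := II_int' (χ := χ) hg hgc (ev1_int hf v) hp
  have i2 := fun i => II_int' (χ := χ) (hgi i) (hgci i) (ev1_int hf (bs i)) hp
  have j2 : Integrable (fun y => fderiv ℝ χ p v *
      ∑ i, ρ y * y i * Φ (p + χ p • y) ![bs i]) :=
    (integrable_finsetSum _ (fun i _ => i2 i)).const_mul _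
  unfold II
  rw [← integral_finsetSum _ (fun i _ => i2 i), ← integral_const_mul, ← integral_add i0 j2]
  refine integral_congr_ae (Eventually.of_forall fun y => ?_)
  dsimp only
  rw [expand1, one_sum (Φ (p + χ p • y)) y]
  simp only [Finset.mul_sum, mul_add]
  congr 1
  refine Finset.sum_congr rfl fun i _ => ?_
  ring

theorem JJ1_expand_ev {ρ χ : E d → ℝ} (hχ : ContDiff ℝ ∞ χ) (hg : Continuous ρ)
    (hgc : HasCompactSupport ρ) {Φ : E d → Al d 1} (hf : Integrable Φ) {p₀ : E d}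
    (hp : 0 < χ p₀) (v : E d) :
    (fun p => JJ1 ρ χ Φ p ![v]) =ᶠ[𝓝 p₀] fun p => II χ ρ (fun q => Φ q ![v]) p +
      fderiv ℝ χ p v * ∑ i, II χ (fun y => ρ y * y i) (fun q => Φ q ![bs i]) p := by
  filter_upwards [(isOpen_lt continuous_const hχ.continuous).mem_nhds hp] with p hp'
  exact JJ1_expand' hg hgc hf hp' v

section ker

variable {χ : E d → ℝ}

theorem JJ1_smooth' (hχ : ContDiff ℝ ∞ χ) {p₀ : E d} (hp : 0 < χ p₀) {ρ : E d → ℝ}
    (hg : ContDiff ℝ ∞ ρ) (hgc : HasCompactSupport ρ) {Φ : E d → Al d 1}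
    (hf : Integrable Φ) : ContDiffAt ℝ ∞ (JJ1 ρ χ Φ) p₀ := by
  apply contDiffAt_of_eval1
  intro v
  refine ContDiffAt.congr_of_eventuallyEq ?_ (JJ1_expand_ev hχ hg.continuous hgc hf hp v)
  have hd : ContDiff ℝ ∞ (fderiv ℝ χ) := hχ.fderiv_right (by simp)
  have hdu : ∀ u : E d, ContDiffAt ℝ ∞ (fun p => fderiv ℝ χ p u) p₀ := fun u =>
    hd.contDiffAt.clm_apply contDiffAt_const
  have hgi : ∀ i : Fin d, ContDiff ℝ ∞ (fun y : E d => ρ y * y i) := fun i =>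
    hg.mul (EuclideanSpace.proj (𝕜 := ℝ) i).contDiff
  have hgci : ∀ i : Fin d, HasCompactSupport (fun y : E d => ρ y * y i) := fun i =>
    hgc.mul_right
  refine (II_smooth' hχ hp hg hgc (ev1_int hf v)).add
    ((hdu v).mul (ContDiffAt.sum fun i _ => ?_))
  exact II_smooth' hχ hp (hgi i) (hgci i) (ev1_int hf (bs i))

/-- the bounds of the scalar averages -/
theorem II_bd1' (hχ : ContDiff ℝ ∞ χ) {p₀ : E d} (hp : 0 < χ p₀) {g : E d → ℝ}
    (hg : ContDiff ℝ ∞ g) (hgc : HasCompactSupport g) : ∃ C : ℝ, 0 ≤ C ∧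
    ∀ (v : E d) (Φ : E d → Al d 1), Integrable Φ →
      |II χ g (fun q => Φ q ![v]) p₀| ≤ C * ‖v‖ * ∫ x, ‖Φ x‖ ∧
      ‖fderiv ℝ (II χ g (fun q => Φ q ![v])) p₀‖ ≤ C * ‖v‖ * ∫ x, ‖Φ x‖ := by
  obtain ⟨C, hC0, hC⟩ := (ker g χ hg hgc hχ p₀ hp).2
  refine ⟨C, hC0, ?_⟩
  intro v Φ hi
  have hi2 : Integrable (fun q => Φ q ![v]) := ev1_int hi v
  obtain ⟨h1, h2⟩ := hC (fun q => Φ q ![v]) hi2
  have h3 : ∫ x, |Φ x ![v]| ≤ ‖v‖ * ∫ x, ‖Φ x‖ := by
    rw [← integral_const_mul]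
    refine integral_mono hi2.abs (hi.norm.const_mul _) fun x => ?_
    have := one_bound (Φ x) v
    dsimp only
    linarith
  have h4 : C * ∫ x, |Φ x ![v]| ≤ C * ‖v‖ * ∫ x, ‖Φ x‖ := by
    calc C * ∫ x, |Φ x ![v]| ≤ C * (‖v‖ * ∫ x, ‖Φ x‖) :=
          mul_le_mul_of_nonneg_left h3 hC0
      _ = _ := by ring
  exact ⟨h1.trans h4, h2.trans h4⟩

/-- the derivative of the regularization is small if the form is small in mean -/
theorem JJ1_fd' (hχ : ContDiff ℝ ∞ χ) {p₀ : E d} (hp : 0 < χ p₀) {ρ : E d → ℝ}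
    (hg : ContDiff ℝ ∞ ρ) (hgc : HasCompactSupport ρ) (v : E d) : ∃ C : ℝ, 0 ≤ C ∧
    ∀ (Φ : E d → Al d 1), Integrable Φ →
      ‖fderiv ℝ (fun p => JJ1 ρ χ Φ p ![v]) p₀‖ ≤ C * ∫ x, ‖Φ x‖ := by
  have hd : ContDiff ℝ ∞ (fderiv ℝ χ) := hχ.fderiv_right (by simp)
  have hdu : ∀ u : E d, DifferentiableAt ℝ (fun p => fderiv ℝ χ p u) p₀ := fun u =>
    (hd.contDiffAt.clm_apply contDiffAt_const).differentiableAt (by simp)
  have hgi : ∀ i : Fin d, ContDiff ℝ ∞ (fun y : E d => ρ y * y i) := fun i =>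
    hg.mul (EuclideanSpace.proj (𝕜 := ℝ) i).contDiff
  have hgci : ∀ i : Fin d, HasCompactSupport (fun y : E d => ρ y * y i) := fun i =>
    hgc.mul_right
  obtain ⟨C0, hC0, h0⟩ := II_bd1' hχ hp hg hgc
  choose Ci hCi hi using fun i => II_bd1' hχ hp (hgi i) (hgci i)
  set α : ℝ := fderiv ℝ χ p₀ v
  set α' := fderiv ℝ (fun p => fderiv ℝ χ p v) p₀
  refine ⟨C0 * ‖v‖ + (|α| + ‖α'‖) * (∑ i, Ci i * ‖bs i‖), ?_, ?_⟩
  · have h2 : 0 ≤ ∑ i, Ci i * ‖bs i‖ :=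
      Finset.sum_nonneg fun i _ => mul_nonneg (hCi i) (by positivity)
    positivity
  intro Φ hint
  set m : ℝ := ∫ x, ‖Φ x‖
  rw [(JJ1_expand_ev hχ hg.continuous hgc hint hp v).fderiv_eq]
  have d0 : HasFDerivAt (II χ ρ (fun q => Φ q ![v]))
      (fderiv ℝ (II χ ρ (fun q => Φ q ![v])) p₀) p₀ :=
    ((II_smooth' hχ hp hg hgc (ev1_int hint v)).differentiableAt
      (by simp)).hasFDerivAt
  have d2 : ∀ i : Fin d, HasFDerivAt (II χ (fun y => ρ y * y i) (fun q => Φ q ![bs i]))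
      (fderiv ℝ (II χ (fun y => ρ y * y i) (fun q => Φ q ![bs i])) p₀) p₀ := fun i =>
    ((II_smooth' hχ hp (hgi i) (hgci i) (ev1_int hint (bs i))).differentiableAt
      (by simp)).hasFDerivAt
  have s2 := HasFDerivAt.fun_sum (u := Finset.univ) fun i _ => d2 i
  have hD := d0.add ((hdu v).hasFDerivAt.mul s2)
  have hD' := hD.fderiv
  have hm2 : |∑ i, II χ (fun y => ρ y * y i) (fun q => Φ q ![bs i]) p₀| ≤
      (∑ i, Ci i * ‖bs i‖) * m := by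
    rw [Finset.sum_mul]
    exact (Finset.abs_sum_le_sum_abs _ _).trans
      (Finset.sum_le_sum fun i _ => (hi i (bs i) Φ hint).1)
  have hn2 : ‖∑ i, fderiv ℝ (II χ (fun y => ρ y * y i) (fun q => Φ q ![bs i])) p₀‖ ≤
      (∑ i, Ci i * ‖bs i‖) * m := by
    rw [Finset.sum_mul]
    exact (norm_sum_le _ _).trans
      (Finset.sum_le_sum fun i _ => (hi i (bs i) Φ hint).2)
  have hz := (h0 v Φ hint).2
  refine (le_of_eq (congrArg norm hD')).trans ?_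
  refine (norm_add_le _ _).trans ?_
  refine (add_le_add le_rfl (norm_add_le _ _)).trans ?_
  rw [norm_smul, norm_smul, Real.norm_eq_abs, Real.norm_eq_abs]
  have k3 := mul_le_mul_of_nonneg_left hn2 (abs_nonneg α)
  have k4 := mul_le_mul_of_nonneg_right hm2 (norm_nonneg α')
  calc _ ≤ C0 * ‖v‖ * m + (|α| * ((∑ i, Ci i * ‖bs i‖) * m) +
        (∑ i, Ci i * ‖bs i‖) * m * ‖α'‖) := by
        refine add_le_add hz (add_le_add k3 k4)
    _ = _ := by ring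

end ker

/-- the average depends only on the values in a neighbourhood -/
theorem JJ1_congr {ρ χ : E d → ℝ} {ε : ℝ} (hρ : Moll ε ρ) {Φ Ψ : E d → Al d 1} {p : E d}
    (h : ∀ y, ‖y‖ ≤ ε → Φ (p + χ p • y) = Ψ (p + χ p • y)) : JJ1 ρ χ Φ p = JJ1 ρ χ Ψ p := by
  unfold JJ1
  refine integral_congr_ae (Eventually.of_forall fun y => ?_)
  dsimp only
  by_cases hy : ‖y‖ ≤ ε
  · rw [h y hy]
  · rw [hρ.supp y (not_le.1 hy).le, zero_smul, zero_smul]

theorem JJ1_pt {ρ χ : E d → ℝ} {ε D : ℝ} (hε : 0 ≤ ε) (hρ : Moll ε ρ) {p : E d}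
    (hD : ‖fderiv ℝ χ p‖ ≤ D)
    (hχ0 : 0 < χ p ∨ (χ p = 0 ∧ fderiv ℝ χ p = 0)) {Φ Ψ : E d → Al d 1} (hΦ : Integrable Φ)
    (hΨ : Integrable Ψ) : ‖JJ1 ρ χ Φ p - JJ1 ρ χ Ψ p‖ₑ ≤
      ENNReal.ofReal (1 + D * ε) *
        ∫⁻ y, ENNReal.ofReal (ρ y) * ‖Φ (p + χ p • y) - Ψ (p + χ p • y)‖ₑ := by
  have hD0 : 0 ≤ D := (norm_nonneg _).trans hD
  rcases hχ0 with hp | ⟨hp, hp'⟩
  · have h1 : JJ1 ρ χ Φ p - JJ1 ρ χ Ψ p = ∫ y, ρ y •
        (Φ (p + χ p • y) - Ψ (p + χ p • y)).compContinuousLinearMap (LL (fderiv ℝ χ p) y) := by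
      unfold JJ1
      rw [← integral_sub (JJ1_int' hρ.smooth.continuous (moll_cs hρ) hΦ hp)
        (JJ1_int' hρ.smooth.continuous (moll_cs hρ) hΨ hp)]
      refine integral_congr_ae (Eventually.of_forall fun y => ?_)
      dsimp only
      have h2 : (Φ (p + χ p • y) - Ψ (p + χ p • y)).compContinuousLinearMap
          (LL (fderiv ℝ χ p) y) = (Φ (p + χ p • y)).compContinuousLinearMap
          (LL (fderiv ℝ χ p) y) - (Ψ (p + χ p • y)).compContinuousLinearMap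
          (LL (fderiv ℝ χ p) y) := rfl
      rw [h2]
      exact (smul_sub _ _ _).symm
    rw [h1]
    refine (enorm_integral_le_lintegral_enorm _).trans ?_
    rw [← lintegral_const_mul' _ _ ENNReal.ofReal_ne_top]
    refine lintegral_mono fun y => ?_
    rw [← ofReal_norm, ← ofReal_norm, ← ENNReal.ofReal_mul (hρ.nonneg y),
      ← ENNReal.ofReal_mul (by positivity)]
    refine ENNReal.ofReal_le_ofReal ?_
    rw [norm_smul, Real.norm_of_nonneg (hρ.nonneg y)]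
    by_cases hy : ‖y‖ ≤ ε
    · have h2 : ‖LL (fderiv ℝ χ p) y‖ ≤ 1 + D * ε := by
        refine (LL_norm _ _).trans ?_
        have := mul_le_mul hD hy (norm_nonneg _) hD0
        linarith
      have h3 := comp1_norm (Φ (p + χ p • y) - Ψ (p + χ p • y)) (LL (fderiv ℝ χ p) y)
      calc ρ y * ‖(Φ (p + χ p • y) - Ψ (p + χ p • y)).compContinuousLinearMap
            (LL (fderiv ℝ χ p) y)‖
          ≤ ρ y * (‖Φ (p + χ p • y) - Ψ (p + χ p • y)‖ * (1 + D * ε)) := by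
            refine mul_le_mul_of_nonneg_left (h3.trans ?_) (hρ.nonneg y)
            exact mul_le_mul_of_nonneg_left h2 (norm_nonneg _)
        _ = _ := by ring
    · rw [hρ.supp y (not_le.1 hy).le, zero_mul, zero_mul, mul_zero]
  · rw [Pool.Agent.Y972.SY.JJ1_eq hρ _ hp hp', Pool.Agent.Y972.SY.JJ1_eq hρ _ hp hp']
    have h1 : ∀ y : E d, p + χ p • y = p := fun y => by rw [hp, zero_smul, add_zero]
    simp_rw [h1]
    rw [lintegral_mul_const _ hρ.smooth.continuous.measurable.ennreal_ofReal, moll_lint hρ,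
      one_mul]
    refine le_mul_of_one_le_left bot_le ?_
    rw [← ENNReal.ofReal_one]
    refine ENNReal.ofReal_le_ofReal ?_
    have : 0 ≤ D * ε := by positivity
    linarith

/-- the averages are continuous in `L¹` -/
theorem JJ1_L1 {ρ χ : E d → ℝ} {ε D θ : ℝ} (hε : 0 ≤ ε) (hρ : Moll ε ρ) (hχ : ContDiff ℝ ∞ χ)
    (hχ0 : ∀ p, 0 < χ p ∨ (χ p = 0 ∧ fderiv ℝ χ p = 0))
    (hD : ∀ p, ‖fderiv ℝ χ p‖ ≤ D) (hDε : D * ε < 1) (hθ : D * ε ≤ θ)
    (hdet : ∀ A : E d →L[ℝ] E d, ‖A - ContinuousLinearMap.id ℝ (E d)‖ ≤ θ → 1 / 2 ≤ |A.det|)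
    {B O : Set (E d)} (hB : IsOpen B) (hBO : ∀ p ∈ B, ∀ y, ‖y‖ ≤ ε → p + χ p • y ∈ O)
    {Φ Ψ : E d → Al d 1} (hΦ : Integrable Φ) (hΨ : Integrable Ψ) :
    ∫⁻ p in B, ‖JJ1 ρ χ Φ p - JJ1 ρ χ Ψ p‖ₑ ≤ 8 * ∫⁻ p in O, ‖Φ p - Ψ p‖ₑ := by
  have hD0 : 0 ≤ D := (norm_nonneg _).trans (hD 0)
  have hm : AEMeasurable (fun p => ‖Φ p - Ψ p‖ₑ) volume :=
    (hΦ.aestronglyMeasurable.sub hΨ.aestronglyMeasurable).enorm
  obtain ⟨f, hfm, hf⟩ := hm
  obtain ⟨A, hA⟩ : ∃ A, A = {p | ‖Φ p - Ψ p‖ₑ ≠ f p} := ⟨_, rfl⟩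
  have hA0 : volume A = 0 := by rw [hA]; exact hf
  have hAf : ∀ p, p ∉ A → ‖Φ p - Ψ p‖ₑ = f p := by
    intro p hp
    by_contra h
    exact hp (by rw [hA]; exact h)
  have h1 : ∀ᵐ p : E d, ‖JJ1 ρ χ Φ p - JJ1 ρ χ Ψ p‖ₑ ≤ ENNReal.ofReal (1 + D * ε) *
      ∫⁻ y, ENNReal.ofReal (ρ y) * f (p + χ p • y) := by
    filter_upwards [measure_eq_zero_iff_ae_notMem.1 hA0] with p hpA
    refine (JJ1_pt hε hρ (hD p) (hχ0 p) hΦ hΨ).trans (le_of_eq ?_)
    congr 1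
    refine lintegral_congr_ae ?_
    rcases hχ0 p with hp | ⟨hp, -⟩
    · filter_upwards [Pool.Agent.Y515.SY.aff_null hA0 p hp.ne'] with y hy
      rw [hAf _ hy]
    · refine Eventually.of_forall fun y => ?_
      simp only [hp, zero_smul, add_zero]
      rw [hAf _ hpA]
  calc ∫⁻ p in B, ‖JJ1 ρ χ Φ p - JJ1 ρ χ Ψ p‖ₑ
      ≤ ∫⁻ p in B, ENNReal.ofReal (1 + D * ε) *
        ∫⁻ y, ENNReal.ofReal (ρ y) * f (p + χ p • y) := lintegral_mono_ae (ae_restrict_of_ae h1)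
    _ = ENNReal.ofReal (1 + D * ε) *
        ∫⁻ p in B, ∫⁻ y, ENNReal.ofReal (ρ y) * f (p + χ p • y) :=
        lintegral_const_mul' _ _ ENNReal.ofReal_ne_top
    _ ≤ 4 * (2 * ∫⁻ p in O, f p) := by
        refine mul_le_mul' ?_ (av_lint hρ hχ hD hDε hθ hdet hB hBO hfm)
        have h2 : (1 + D * ε) ≤ 4 := by linarith
        refine (ENNReal.ofReal_le_ofReal h2).trans (le_of_eq ?_)
        norm_num
    _ = 8 * ∫⁻ p in O, ‖Φ p - Ψ p‖ₑ := by
        rw [← mul_assoc]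
        have h3 : ∫⁻ p in O, f p = ∫⁻ p in O, ‖Φ p - Ψ p‖ₑ :=
          lintegral_congr_ae (ae_restrict_of_ae (hf.symm))
        rw [h3]
        norm_num

theorem JJ1_zero {ρ χ : E d → ℝ} (p : E d) : JJ1 ρ χ (fun _ => 0) p = 0 := by
  unfold JJ1
  have h1 : ∀ y : E d, ρ y • (0 : Al d 1).compContinuousLinearMap (LL (fderiv ℝ χ p) y) = 0 := by
    intro y
    have : (0 : Al d 1).compContinuousLinearMap (LL (fderiv ℝ χ p) y) = 0 := by
      apply ContinuousAlternatingMap.ext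
      intro v
      rfl
    rw [this, smul_zero]
  simp_rw [h1]
  exact integral_zero _ _

/-- the average of an integrable form is measurable -/
theorem JJ1_aesm {ρ χ : E d → ℝ} {ε : ℝ} (hρ : Moll ε ρ) (hχ : ContDiff ℝ ∞ χ)
    (hχ0 : ∀ p, 0 < χ p ∨ (χ p = 0 ∧ fderiv ℝ χ p = 0))
    {Φ : E d → Al d 1} (hΦ : Integrable Φ) : AEStronglyMeasurable (JJ1 ρ χ Φ) volume := by
  have ho : IsOpen {p | 0 < χ p} := isOpen_lt continuous_const hχ.continuous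
  have h1 : (univ : Set (E d)) = {p | 0 < χ p} ∪ {p | 0 < χ p}ᶜ := (union_compl_self _).symm
  rw [← Measure.restrict_univ (μ := (volume : Measure (E d))), h1, aestronglyMeasurable_union_iff]
  constructor
  · refine ContinuousOn.aestronglyMeasurable (fun p hp => ?_) ho.measurableSet
    exact (JJ1_smooth' hχ hp hρ.smooth (moll_cs hρ) hΦ).continuousAt.continuousWithinAt
  · refine (hΦ.aestronglyMeasurable.restrict).congr ?_
    filter_upwards [ae_restrict_mem ho.measurableSet.compl] with p hp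
    rcases hχ0 p with h | h
    · exact absurd h hp
    · exact (Pool.Agent.Y972.SY.JJ1_eq hρ _ h.1 h.2).symm

theorem JJ1_ext_bd {ρ χ : E d → ℝ} {ε : ℝ} (hρ : Moll ε ρ) (hχ : ContDiff ℝ ∞ χ) {p₀ : E d}
    (hp : 0 < χ p₀) (u : Fin 2 → E d) : ∃ C : ℝ, 0 ≤ C ∧ ∀ Φ : E d → Al d 1, Integrable Φ →
      |extDeriv (JJ1 ρ χ Φ) p₀ u| ≤ C * ∫ x, ‖Φ x‖ := by
  have hρc := moll_cs hρ
  choose Ci hCi0 hCi using fun i : Fin 2 =>
    JJ1_fd' hχ hp hρ.smooth hρc (i.removeNth u 0)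
  refine ⟨∑ i, Ci i * ‖u i‖, Finset.sum_nonneg fun i _ => mul_nonneg (hCi0 i) (norm_nonneg _),
    fun Φ hΦ => ?_⟩
  have hd2 : DifferentiableAt ℝ (JJ1 ρ χ Φ) p₀ :=
    (JJ1_smooth' hχ hp hρ.smooth hρc hΦ).differentiableAt (by simp)
  rw [extDeriv_apply hd2, Finset.sum_mul]
  refine (Finset.abs_sum_le_sum_abs _ _).trans (Finset.sum_le_sum fun i _ => ?_)
  have h1 : |(-1 : ℤ) ^ i.val • fderiv ℝ (fun x => JJ1 ρ χ Φ x (i.removeNth u)) p₀ (u i)| =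
      |fderiv ℝ (fun x => JJ1 ρ χ Φ x (i.removeNth u)) p₀ (u i)| := by
    rcases neg_one_pow_eq_or ℤ i.val with h | h <;> rw [h] <;> simp
  have h2 : |fderiv ℝ (fun x => JJ1 ρ χ Φ x (i.removeNth u)) p₀ (u i)| ≤
      Ci i * ‖u i‖ * ∫ x, ‖Φ x‖ := by
    have h3 := (fderiv ℝ (fun x => JJ1 ρ χ Φ x (i.removeNth u)) p₀).le_opNorm (u i)
    have h4 := hCi i Φ hΦ
    rw [← one_eta (i.removeNth u)] at h4
    rw [Real.norm_eq_abs] at h3
    refine h3.trans ?_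
    calc _ ≤ (Ci i * ∫ x, ‖Φ x‖) * ‖u i‖ := mul_le_mul_of_nonneg_right h4 (norm_nonneg _)
      _ = _ := by ring
  refine le_trans (le_of_eq ?_) h2
  convert h1 using 2

/-- the value of the average of a two-form is bounded by its mean -/
theorem JJ_val_bd {ρ χ : E d → ℝ} {ε : ℝ} (hρ : Moll ε ρ) (hχ : ContDiff ℝ ∞ χ) {p₀ : E d}
    (hp : 0 < χ p₀) (u : Fin 2 → E d) : ∃ C : ℝ, 0 ≤ C ∧ ∀ Φ : E d → Al d 2, Integrable Φ →
      |JJ ρ χ Φ p₀ u| ≤ C * ∫ x, ‖Φ x‖ := by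
  have hρc := moll_cs hρ
  have hg := hρ.smooth
  have hgi : ∀ i : Fin d, ContDiff ℝ ∞ (fun y : E d => ρ y * y i) := fun i =>
    hg.mul (EuclideanSpace.proj (𝕜 := ℝ) i).contDiff
  have hgci : ∀ i : Fin d, HasCompactSupport (fun y : E d => ρ y * y i) := fun i =>
    hρc.mul_right
  obtain ⟨C0, hC0, h0⟩ := II_bd' hχ hp hg hρc
  choose Ci hCi hi using fun i => II_bd' hχ hp (hgi i) (hgci i)
  obtain ⟨v, hv⟩ : ∃ v, v = u 0 := ⟨_, rfl⟩
  obtain ⟨w, hw⟩ : ∃ w, w = u 1 := ⟨_, rfl⟩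
  have hu : u = ![v, w] := by rw [hv, hw]; exact pair_eta u
  obtain ⟨β, hβ⟩ : ∃ β : ℝ, β = fderiv ℝ χ p₀ w := ⟨_, rfl⟩
  obtain ⟨α, hα⟩ : ∃ α : ℝ, α = fderiv ℝ χ p₀ v := ⟨_, rfl⟩
  refine ⟨C0 * (‖v‖ * ‖w‖) + |β| * (∑ i, Ci i * (‖v‖ * ‖bs i‖)) +
    |α| * (∑ i, Ci i * (‖bs i‖ * ‖w‖)), ?_, ?_⟩
  · have h1 : 0 ≤ ∑ i, Ci i * (‖v‖ * ‖bs i‖) :=
      Finset.sum_nonneg fun i _ => mul_nonneg (hCi i) (by positivity)
    have h2 : 0 ≤ ∑ i, Ci i * (‖bs i‖ * ‖w‖) :=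
      Finset.sum_nonneg fun i _ => mul_nonneg (hCi i) (by positivity)
    positivity
  intro Φ hΦ
  rw [hu, JJ_expand' hg.continuous hρc hΦ hp, ← hβ, ← hα]
  obtain ⟨m, hm⟩ : ∃ m : ℝ, m = ∫ x, ‖Φ x‖ := ⟨_, rfl⟩
  rw [← hm]
  have hm1 : |∑ i, II χ (fun y => ρ y * y i) (fun q => Φ q ![v, bs i]) p₀| ≤
      (∑ i, Ci i * (‖v‖ * ‖bs i‖)) * m := by
    rw [Finset.sum_mul, hm]
    exact (Finset.abs_sum_le_sum_abs _ _).trans
      (Finset.sum_le_sum fun i _ => (hi i v (bs i) Φ hΦ).1)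
  have hm2 : |∑ i, II χ (fun y => ρ y * y i) (fun q => Φ q ![bs i, w]) p₀| ≤
      (∑ i, Ci i * (‖bs i‖ * ‖w‖)) * m := by
    rw [Finset.sum_mul, hm]
    exact (Finset.abs_sum_le_sum_abs _ _).trans
      (Finset.sum_le_sum fun i _ => (hi i (bs i) w Φ hΦ).1)
  have hz := (h0 v w Φ hΦ).1
  rw [← hm] at hz
  refine (abs_add_le _ _).trans ?_
  refine (add_le_add (abs_add_le _ _) le_rfl).trans ?_
  rw [abs_mul, abs_mul]
  have k1 := mul_le_mul_of_nonneg_left hm1 (abs_nonneg β)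
  have k3 := mul_le_mul_of_nonneg_left hm2 (abs_nonneg α)
  calc _ ≤ C0 * (‖v‖ * ‖w‖) * m + |β| * ((∑ i, Ci i * (‖v‖ * ‖bs i‖)) * m) +
        |α| * ((∑ i, Ci i * (‖bs i‖ * ‖w‖)) * m) := add_le_add (add_le_add hz k1) k3
    _ = _ := by ring

end Pool.Agent.U896.SC
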