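import Pool.Agent.U896.SC.P1

/-!
# Forms in a prescribed class: pairs of an integrable one-form and its exterior derivative
-/

set_option autoImplicit false

open Set Filter Topology MeasureTheory
open scoped Manifold ContDiff ENNReal

noncomputable section

namespace Pool.Agent.U896.SC

open Pool.Agent.Y501.SY (E Moll S_SM JJ1)
open Pool.Agent.Y515.SY
open Pool.Agent.Y710.SY
open Pool.Agent.U896
open Pool.Agent.U896.SE hiding sq aff_null
open Pool.Agent.U896.SW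

variable {d : ℕ}

/-- on the set `O`, the pair `(b, s)` is integrable and a limit in `L¹` of pairs `(B, dB)` with
smooth one-forms `B` -/
structure LP (b : E d → Al d 1) (s : E d → Al d 2) (O : Set (E d)) : Prop where
  mb : AEStronglyMeasurable b (volume.restrict O)
  fb : ∫⁻ p in O, ‖b p‖ₑ < ⊤
  ms : AEStronglyMeasurable s (volume.restrict O)
  fs : ∫⁻ p in O, ‖s p‖ₑ < ⊤
  app : ∀ δ : ℝ, 0 < δ → ∃ B : E d → Al d 1, ContDiffOn ℝ ∞ B O ∧
    ∫⁻ p in O, ‖b p - B p‖ₑ ≤ ENNReal.ofReal δ ∧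
    ∫⁻ p in O, ‖s p - extDeriv B p‖ₑ ≤ ENNReal.ofReal δ

theorem LP.mono {b : E d → Al d 1} {s : E d → Al d 2} {O O' : Set (E d)} (h : LP b s O)
    (hO : O' ⊆ O) : LP b s O' := by
  refine ⟨h.mb.mono_set hO, (lintegral_mono_set hO).trans_lt h.fb, h.ms.mono_set hO,
    (lintegral_mono_set hO).trans_lt h.fs, fun δ hδ => ?_⟩
  obtain ⟨B, h1, h2, h3⟩ := h.app δ hδ
  exact ⟨B, h1.mono hO, (lintegral_mono_set hO).trans h2, (lintegral_mono_set hO).trans h3⟩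

theorem LP.congr {b b' : E d → Al d 1} {s s' : E d → Al d 2} {O : Set (E d)} (hO : IsOpen O)
    (h : LP b s O) (hb : ∀ p ∈ O, b' p = b p) (hs : ∀ p ∈ O, s' p = s p) : LP b' s' O := by
  have hae : s =ᵐ[volume.restrict O] s' := by
    filter_upwards [ae_restrict_mem hO.measurableSet] with p hp
    exact (hs p hp).symm
  have hae' : b =ᵐ[volume.restrict O] b' := by
    filter_upwards [ae_restrict_mem hO.measurableSet] with p hp
    exact (hb p hp).symm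
  refine ⟨h.mb.congr hae', ?_, h.ms.congr hae, ?_, fun δ hδ => ?_⟩
  · refine lt_of_le_of_lt (le_of_eq ?_) h.fb
    refine lintegral_congr_ae ?_
    filter_upwards [hae'] with p hp
    rw [hp]
  · refine lt_of_le_of_lt (le_of_eq ?_) h.fs
    refine lintegral_congr_ae ?_
    filter_upwards [hae] with p hp
    rw [hp]
  · obtain ⟨B, h1, h2, h3⟩ := h.app δ hδ
    refine ⟨B, h1, le_trans (le_of_eq ?_) h2, le_trans (le_of_eq ?_) h3⟩
    · refine lintegral_congr_ae ?_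
      filter_upwards [hae'] with p hp
      rw [hp]
    · refine lintegral_congr_ae ?_
      filter_upwards [hae] with p hp
      rw [hp]

theorem fin_add {k : ℕ} {f g : E d → Al d k} {O : Set (E d)}
    (hf : AEStronglyMeasurable f (volume.restrict O)) (h1 : ∫⁻ p in O, ‖f p‖ₑ < ⊤)
    (h2 : ∫⁻ p in O, ‖g p‖ₑ < ⊤) : ∫⁻ p in O, ‖f p + g p‖ₑ < ⊤ := by
  have h3 : ∀ p, ‖f p + g p‖ₑ ≤ ‖f p‖ₑ + ‖g p‖ₑ := by
    intro p
    rw [← ofReal_norm, ← ofReal_norm, ← ofReal_norm,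
      ← ENNReal.ofReal_add (norm_nonneg _) (norm_nonneg _)]
    exact ENNReal.ofReal_le_ofReal (norm_add_le _ _)
  refine (lintegral_mono h3).trans_lt ?_
  rw [lintegral_add_left' hf.enorm]
  exact ENNReal.add_lt_top.2 ⟨h1, h2⟩

/-- adding a smooth pair -/
theorem LP.add {b : E d → Al d 1} {s : E d → Al d 2} {O : Set (E d)} (hO : IsOpen O)
    (h : LP b s O) {a : E d → Al d 1} {η : E d → Al d 2} (ha : ContDiffOn ℝ ∞ a O)
    (hη : ContDiffOn ℝ ∞ η O) (hd : ∀ p ∈ O, extDeriv a p = η p)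
    (hfa : ∫⁻ p in O, ‖a p‖ₑ < ⊤) (hfη : ∫⁻ p in O, ‖η p‖ₑ < ⊤) :
    LP (fun p => b p + a p) (fun p => s p + η p) O := by
  have hma : AEStronglyMeasurable a (volume.restrict O) :=
    ha.continuousOn.aestronglyMeasurable hO.measurableSet
  have hmη : AEStronglyMeasurable η (volume.restrict O) :=
    hη.continuousOn.aestronglyMeasurable hO.measurableSet
  refine ⟨h.mb.add hma, fin_add h.mb h.fb hfa, h.ms.add hmη, fin_add h.ms h.fs hfη,
    fun δ hδ => ?_⟩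
  obtain ⟨B, h1, h2, h3⟩ := h.app δ hδ
  refine ⟨fun p => B p + a p, h1.add ha, le_trans (le_of_eq ?_) h2, le_trans (le_of_eq ?_) h3⟩
  · simp only [add_sub_add_right_eq_sub]
  · refine setLIntegral_congr_fun hO.measurableSet fun p hp => ?_
    have e1 := (h1.contDiffAt (hO.mem_nhds hp)).differentiableAt (by simp)
    have e2 := (ha.contDiffAt (hO.mem_nhds hp)).differentiableAt (by simp)
    have e3 : (fun p => B p + a p) = B + a := rfl
    rw [e3, extDeriv_add e1 e2, hd p hp, add_sub_add_right_eq_sub]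

theorem LP.pull {b : E d → Al d 1} {s : E d → Al d 2} {O O' : Set (E d)} {ψ : E d → E d}
    (hO : IsOpen O) (hO' : IsOpen O') (hψ : ContDiffOn ℝ ∞ ψ O') (hm : MapsTo ψ O' O)
    (hinj : InjOn ψ O')
    {M μ : ℝ} (hM : ∀ q ∈ O', ‖fderiv ℝ ψ q‖ ≤ M) (hμ : 0 < μ)
    (hdet : ∀ q ∈ O', μ ≤ |(fderiv ℝ ψ q).det|) (h : LP b s O) :
    LP (fun q => (b (ψ q)).compContinuousLinearMap (fderiv ℝ ψ q))
      (fun q => (s (ψ q)).compContinuousLinearMap (fderiv ℝ ψ q)) O' := by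
  have hψd : ∀ q ∈ O', HasFDerivAt ψ (fderiv ℝ ψ q) q := fun q hq =>
    ((hψ.contDiffAt (hO'.mem_nhds hq)).differentiableAt (by simp)).hasFDerivAt
  have hDc : ContDiffOn ℝ ∞ (fderiv ℝ ψ) O' := hψ.fderiv_of_isOpen hO' (by simp)
  have hae : AEMeasurable ψ (volume.restrict O') :=
    hψ.continuousOn.aemeasurable hO'.measurableSet
  have hac := ac_pull hO' hψd hm hinj hμ hdet
  have hsψ : AEStronglyMeasurable (fun q => s (ψ q)) (volume.restrict O') :=
    (h.ms.mono_ac hac).comp_aemeasurable hae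
  have hbψ : AEStronglyMeasurable (fun q => b (ψ q)) (volume.restrict O') :=
    (h.mb.mono_ac hac).comp_aemeasurable hae
  -- the bound of the norms
  have hb2 : ∀ (t : E d → Al d 2), ∫⁻ q in O', ‖(t (ψ q)).compContinuousLinearMap
      (fderiv ℝ ψ q)‖ₑ ≤ ENNReal.ofReal (M ^ 2) * (ENNReal.ofReal μ⁻¹ * ∫⁻ p in O, ‖t p‖ₑ) := by
    intro t
    have h1 := lint_pull hO' hψd hm hinj hμ hdet (fun p => ‖t p‖ₑ)
    refine le_trans ?_ (mul_le_mul_right h1 _)
    rw [← lintegral_const_mul' _ _ ENNReal.ofReal_ne_top]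
    refine setLIntegral_mono' hO'.measurableSet fun q hq => ?_
    rw [← ofReal_norm, ← ofReal_norm, ← ENNReal.ofReal_mul (by positivity)]
    refine ENNReal.ofReal_le_ofReal ?_
    refine (comp_norm _ _).trans ?_
    rw [mul_comm]
    have h2 := hM q hq
    gcongr
  have hb1 : ∀ (t : E d → Al d 1), ∫⁻ q in O', ‖(t (ψ q)).compContinuousLinearMap
      (fderiv ℝ ψ q)‖ₑ ≤ ENNReal.ofReal |M| * (ENNReal.ofReal μ⁻¹ * ∫⁻ p in O, ‖t p‖ₑ) := by
    intro t
    have h1 := lint_pull hO' hψd hm hinj hμ hdet (fun p => ‖t p‖ₑ)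
    refine le_trans ?_ (mul_le_mul_right h1 _)
    rw [← lintegral_const_mul' _ _ ENNReal.ofReal_ne_top]
    refine setLIntegral_mono' hO'.measurableSet fun q hq => ?_
    rw [← ofReal_norm, ← ofReal_norm, ← ENNReal.ofReal_mul (by positivity)]
    refine ENNReal.ofReal_le_ofReal ?_
    refine (comp1_norm _ _).trans ?_
    rw [mul_comm]
    have h2 := (hM q hq).trans (le_abs_self M)
    gcongr
  refine ⟨?_, ?_, ?_, ?_, fun δ hδ => ?_⟩
  · exact comp1_cont.comp_aestronglyMeasurable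
      (hbψ.prodMk (hDc.continuousOn.aestronglyMeasurable hO'.measurableSet))
  · refine (hb1 b).trans_lt ?_
    exact ENNReal.mul_lt_top ENNReal.ofReal_lt_top
      (ENNReal.mul_lt_top ENNReal.ofReal_lt_top h.fb)
  · exact comp_cont.comp_aestronglyMeasurable
      (hsψ.prodMk (hDc.continuousOn.aestronglyMeasurable hO'.measurableSet))
  · refine (hb2 s).trans_lt ?_
    exact ENNReal.mul_lt_top ENNReal.ofReal_lt_top
      (ENNReal.mul_lt_top ENNReal.ofReal_lt_top h.fs)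
  · obtain ⟨κ, hκ⟩ : ∃ κ : ℝ, κ = (M ^ 2 + |M|) * μ⁻¹ + 1 := ⟨_, rfl⟩
    have hκ0 : 0 < κ := by rw [hκ]; positivity
    have hfin : ∀ (a : ℝ), 0 ≤ a → a ≤ M ^ 2 + |M| → ∀ X : ℝ≥0∞, X ≤ ENNReal.ofReal (δ / κ) →
        ENNReal.ofReal a * (ENNReal.ofReal μ⁻¹ * X) ≤ ENNReal.ofReal δ := by
      intro a ha0 ha X hX
      calc ENNReal.ofReal a * (ENNReal.ofReal μ⁻¹ * X)
          ≤ ENNReal.ofReal a * (ENNReal.ofReal μ⁻¹ * ENNReal.ofReal (δ / κ)) := by gcongr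
        _ = ENNReal.ofReal (a * (μ⁻¹ * (δ / κ))) := by
            rw [ENNReal.ofReal_mul ha0, ENNReal.ofReal_mul (by positivity)]
        _ ≤ ENNReal.ofReal δ := by
            refine ENNReal.ofReal_le_ofReal ?_
            rw [← mul_assoc, mul_div_assoc', div_le_iff₀ hκ0, hκ]
            have h5 : a * μ⁻¹ ≤ (M ^ 2 + |M|) * μ⁻¹ :=
              mul_le_mul_of_nonneg_right ha (by positivity)
            nlinarith
    obtain ⟨B, h1, h2, h3⟩ := h.app (δ / κ) (by positivity)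
    refine ⟨fun q => (B (ψ q)).compContinuousLinearMap (fderiv ℝ ψ q), ?_, ?_, ?_⟩
    · intro q hq
      refine (comp1_contDiffAt ?_ (hDc.contDiffAt (hO'.mem_nhds hq))).contDiffWithinAt
      exact (h1.contDiffAt (hO.mem_nhds (hm hq))).comp q (hψ.contDiffAt (hO'.mem_nhds hq))
    · have g1 := hb1 (fun p => b p - B p)
      have g2 : ∀ q, ‖(b (ψ q)).compContinuousLinearMap (fderiv ℝ ψ q) -
          (B (ψ q)).compContinuousLinearMap (fderiv ℝ ψ q)‖ₑ =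
          ‖(b (ψ q) - B (ψ q)).compContinuousLinearMap (fderiv ℝ ψ q)‖ₑ := by
        intro q
        congr 1
      simp_rw [g2]
      refine g1.trans (hfin _ (abs_nonneg _) (by nlinarith [sq_nonneg M]) _ h2)
    · have g1 := hb2 (fun p => s p - extDeriv B p)
      have g2 : ∀ q ∈ O', ‖(s (ψ q)).compContinuousLinearMap (fderiv ℝ ψ q) -
          extDeriv (fun q => (B (ψ q)).compContinuousLinearMap (fderiv ℝ ψ q)) q‖ₑ =
          ‖(s (ψ q) - extDeriv B (ψ q)).compContinuousLinearMap (fderiv ℝ ψ q)‖ₑ := by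
        intro q hq
        have g3 : DifferentiableAt ℝ B (ψ q) :=
          (h1.contDiffAt (hO.mem_nhds (hm hq))).differentiableAt (by simp)
        have g4 : ContDiffAt ℝ ∞ ψ q := hψ.contDiffAt (hO'.mem_nhds hq)
        rw [extDeriv_pullback g3 g4 smooth2]
        congr 1
      rw [setLIntegral_congr_fun hO'.measurableSet g2]
      refine g1.trans (hfin _ (sq_nonneg _) (by nlinarith [abs_nonneg M]) _ h3)

theorem ind_int1 {k : ℕ} {s : E d → Al d k} {O : Set (E d)} (hO : IsOpen O)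
    (hm : AEStronglyMeasurable s (volume.restrict O)) (hf : ∫⁻ p in O, ‖s p‖ₑ < ⊤) :
    Integrable (O.indicator s) := by
  exact (integrable_indicator_iff hO.measurableSet).2 ⟨hm, hasFiniteIntegral_iff_enorm.2 hf⟩

theorem app_int1 {k : ℕ} {s Ψ : E d → Al d k} {O : Set (E d)} (hO : IsOpen O)
    (hm : AEStronglyMeasurable s (volume.restrict O)) (hf : ∫⁻ p in O, ‖s p‖ₑ < ⊤)
    (hΨ : ContinuousOn Ψ O) {δ : ℝ} (h : ∫⁻ p in O, ‖s p - Ψ p‖ₑ ≤ ENNReal.ofReal δ) :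
    Integrable (O.indicator Ψ) := by
  have hΨm : AEStronglyMeasurable Ψ (volume.restrict O) :=
    hΨ.aestronglyMeasurable hO.measurableSet
  refine ind_int1 hO hΨm ?_
  have h1 : ∀ p, ‖Ψ p‖ₑ ≤ ‖s p‖ₑ + ‖s p - Ψ p‖ₑ := by
    intro p
    rw [← ofReal_norm, ← ofReal_norm, ← ofReal_norm,
      ← ENNReal.ofReal_add (norm_nonneg _) (norm_nonneg _)]
    refine ENNReal.ofReal_le_ofReal ?_
    have h2 : Ψ p = s p - (s p - Ψ p) := by abel
    calc ‖Ψ p‖ = ‖s p - (s p - Ψ p)‖ := by rw [← h2]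
      _ ≤ _ := norm_sub_le _ _
  refine (lintegral_mono h1).trans_lt ?_
  rw [lintegral_add_left' hm.enorm]
  exact ENNReal.add_lt_top.2 ⟨hf, h.trans_lt ENNReal.ofReal_lt_top⟩

theorem ind_sub1 {k : ℕ} {s Ψ : E d → Al d k} {O : Set (E d)} (hO : IsOpen O) :
    ∫⁻ p in O, ‖O.indicator s p - O.indicator Ψ p‖ₑ = ∫⁻ p in O, ‖s p - Ψ p‖ₑ := by
  refine setLIntegral_congr_fun hO.measurableSet fun p hp => ?_
  simp only [indicator_of_mem hp]

theorem ind_sub1' {k : ℕ} {s Ψ : E d → Al d k} {O : Set (E d)} (hO : IsOpen O) :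
    ∫⁻ p, ‖O.indicator s p - O.indicator Ψ p‖ₑ = ∫⁻ p in O, ‖s p - Ψ p‖ₑ := by
  rw [← lintegral_indicator hO.measurableSet]
  refine lintegral_congr fun p => ?_
  by_cases hp : p ∈ O
  · simp only [indicator_of_mem hp]
  · simp only [indicator_of_notMem hp, sub_zero]
    rw [← ofReal_norm, norm_zero, ENNReal.ofReal_zero]

theorem extD_cont {B : E d → Al d 1} {O : Set (E d)} (hO : IsOpen O)
    (h : ContDiffOn ℝ ∞ B O) : ContDiffOn ℝ ∞ (extDeriv B) O :=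
  Pool.Agent.Y972.SY.ext_smooth hO h

/-- the averages of a smooth pair -/
theorem JJ1_sc (hSM : S_SM) {ρ χ : E d → ℝ} {ε : ℝ} (hρ : Moll ε ρ) (hχ : ContDiff ℝ ∞ χ)
    {O : Set (E d)} (hO : IsOpen O) {Ψ : E d → Al d 1} (h1 : ContDiffOn ℝ ∞ Ψ O)
    {p : E d} (hp : ∀ y, ‖y‖ ≤ ε → p + χ p • y ∈ O) :
    ContDiffAt ℝ ∞ (JJ1 ρ χ (O.indicator Ψ)) p ∧
      extDeriv (JJ1 ρ χ (O.indicator Ψ)) p = JJ ρ χ (O.indicator (extDeriv Ψ)) p := by
  have h1' : ContDiffOn ℝ ∞ (O.indicator Ψ) O :=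
    h1.congr fun q hq => indicator_of_mem hq _
  obtain ⟨g1, -, g2⟩ := JJ1_sm hSM hρ hχ hO h1' hp
  refine ⟨g1, ?_⟩
  rw [g2]
  refine JJ_congr hρ fun y hy => ?_
  have h3 : O.indicator Ψ =ᶠ[𝓝 (p + χ p • y)] Ψ := by
    filter_upwards [hO.mem_nhds (hp y hy)] with x hx
    exact indicator_of_mem hx _
  rw [h3.extDeriv_eq, indicator_of_mem (hp y hy)]

theorem zint {k : ℕ} : Integrable (fun _ : E d => (0 : Al d k)) volume :=
  (integrable_zero (E d) (Al d k) volume).congr (Eventually.of_forall fun _ => rfl)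

theorem LP_JJ (hSM : S_SM) {ρ χ : E d → ℝ} {ε D θ : ℝ} (hε : 0 ≤ ε) (hρ : Moll ε ρ)
    (hχ : ContDiff ℝ ∞ χ) (hχ0 : ∀ p, 0 < χ p ∨ (χ p = 0 ∧ fderiv ℝ χ p = 0))
    (hD : ∀ p, ‖fderiv ℝ χ p‖ ≤ D) (hDε : D * ε < 1) (hθ : D * ε ≤ θ)
    (hdet : ∀ A : E d →L[ℝ] E d, ‖A - ContinuousLinearMap.id ℝ (E d)‖ ≤ θ → 1 / 2 ≤ |A.det|)
    {B O : Set (E d)} (hB : IsOpen B) (hO : IsOpen O)
    (hBO : ∀ p ∈ B, ∀ y, ‖y‖ ≤ ε → p + χ p • y ∈ O)
    {b : E d → Al d 1} {s : E d → Al d 2} (h : LP b s O) :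
    LP (JJ1 ρ χ (O.indicator b)) (JJ ρ χ (O.indicator s)) B := by
  have hsi : Integrable (O.indicator s) := ind_int1 hO h.ms h.fs
  have hbi : Integrable (O.indicator b) := ind_int1 hO h.mb h.fb
  refine ⟨(JJ1_aesm hρ hχ hχ0 hbi).restrict, ?_, (JJ_aesm hρ hχ hχ0 hsi).restrict, ?_,
    fun δ hδ => ?_⟩
  · have h1 := JJ1_L1 hε hρ hχ hχ0 hD hDε hθ hdet hB hBO hbi zint
    have h2 : ∀ p, JJ1 ρ χ (fun _ => (0 : Al d 1)) p = 0 := fun p => JJ1_zero p
    have h3 : ∫⁻ p in O, ‖O.indicator b p - 0‖ₑ = ∫⁻ p in O, ‖b p‖ₑ := by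
      refine setLIntegral_congr_fun hO.measurableSet fun p hp => ?_
      simp only [indicator_of_mem hp, sub_zero]
    simp only [h2, sub_zero] at h1 h3
    rw [h3] at h1
    exact h1.trans_lt (ENNReal.mul_lt_top (by norm_num) h.fb)
  · have h1 := JJ_L1 hε hρ hχ hχ0 hD hDε hθ hdet hB hBO hsi zint
    have h2 : ∀ p, JJ ρ χ (fun _ => (0 : Al d 2)) p = 0 := fun p => JJ_zero p
    have h3 : ∫⁻ p in O, ‖O.indicator s p - 0‖ₑ = ∫⁻ p in O, ‖s p‖ₑ := by
      refine setLIntegral_congr_fun hO.measurableSet fun p hp => ?_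
      simp only [indicator_of_mem hp, sub_zero]
    simp only [h2, sub_zero] at h1 h3
    rw [h3] at h1
    exact h1.trans_lt (ENNReal.mul_lt_top (by norm_num) h.fs)
  · obtain ⟨Ψ, h1, h2, h3⟩ := h.app (δ / 8) (by positivity)
    have hΨi := app_int1 hO h.mb h.fb h1.continuousOn h2
    have hΨd := app_int1 hO h.ms h.fs (extD_cont hO h1).continuousOn h3
    have h8 : ∀ X : ℝ≥0∞, X ≤ ENNReal.ofReal (δ / 8) → 8 * X ≤ ENNReal.ofReal δ := by
      intro X hX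
      calc 8 * X ≤ 8 * ENNReal.ofReal (δ / 8) := by gcongr
        _ = ENNReal.ofReal 8 * ENNReal.ofReal (δ / 8) := by norm_num
        _ = ENNReal.ofReal δ := by
            rw [← ENNReal.ofReal_mul (by norm_num)]
            congr 1
            ring
    refine ⟨JJ1 ρ χ (O.indicator Ψ), fun p hp =>
      (JJ1_sc hSM hρ hχ hO h1 (hBO p hp)).1.contDiffWithinAt, ?_, ?_⟩
    · refine (JJ1_L1 hε hρ hχ hχ0 hD hDε hθ hdet hB hBO hbi hΨi).trans ?_
      rw [ind_sub1 hO]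
      exact h8 _ h2
    · have h4 : ∫⁻ p in B, ‖JJ ρ χ (O.indicator s) p - extDeriv (JJ1 ρ χ (O.indicator Ψ)) p‖ₑ =
          ∫⁻ p in B, ‖JJ ρ χ (O.indicator s) p - JJ ρ χ (O.indicator (extDeriv Ψ)) p‖ₑ := by
        refine setLIntegral_congr_fun hB.measurableSet fun p hp => ?_
        rw [(JJ1_sc hSM hρ hχ hO h1 (hBO p hp)).2]
      rw [h4]
      refine (JJ_L1 hε hρ hχ hχ0 hD hDε hθ hdet hB hBO hsi hΨd).trans ?_
      rw [ind_sub1 hO]
      exact h8 _ h3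

/-- the average of the second component is the exterior derivative of that of the first -/
theorem LP_ext (hSM : S_SM) {ρ χ : E d → ℝ} {ε : ℝ} (hρ : Moll ε ρ)
    (hχ : ContDiff ℝ ∞ χ) {O : Set (E d)} (hO : IsOpen O) {p₀ : E d} (hp : 0 < χ p₀)
    (hpO : ∀ y, ‖y‖ ≤ ε → p₀ + χ p₀ • y ∈ O)
    {b : E d → Al d 1} {s : E d → Al d 2} (h : LP b s O) :
    extDeriv (JJ1 ρ χ (O.indicator b)) p₀ = JJ ρ χ (O.indicator s) p₀ := by
  have hρc := moll_cs hρ
  have hsi : Integrable (O.indicator s) := ind_int1 hO h.ms h.fs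
  have hbi : Integrable (O.indicator b) := ind_int1 hO h.mb h.fb
  rw [← sub_eq_zero]
  apply ContinuousAlternatingMap.ext
  intro u
  change (extDeriv (JJ1 ρ χ (O.indicator b)) p₀ - JJ ρ χ (O.indicator s) p₀) u = 0
  obtain ⟨C, hC0, hC⟩ := JJ1_ext_bd hρ hχ hp u
  obtain ⟨C', hC'0, hC'⟩ := JJ_val_bd hρ hχ hp u
  obtain ⟨Z, hZ⟩ : ∃ Z : ℝ, Z = (extDeriv (JJ1 ρ χ (O.indicator b)) p₀ -
    JJ ρ χ (O.indicator s) p₀) u := ⟨_, rfl⟩
  rw [← hZ]
  have key : ∀ δ : ℝ, 0 < δ → |Z| ≤ (C + C') * δ := by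
    intro δ hδ
    obtain ⟨Ψ, h1, h2, h3⟩ := h.app δ hδ
    have hΨi := app_int1 hO h.mb h.fb h1.continuousOn h2
    have hΨd := app_int1 hO h.ms h.fs (extD_cont hO h1).continuousOn h3
    obtain ⟨Ξ, hΞ⟩ : ∃ Ξ : E d → Al d 1, Ξ = fun p => O.indicator b p - O.indicator Ψ p :=
      ⟨_, rfl⟩
    have hΞi : Integrable Ξ := by
      rw [hΞ]
      exact hbi.sub hΨi
    obtain ⟨Θ, hΘ⟩ : ∃ Θ : E d → Al d 2,
      Θ = fun p => O.indicator s p - O.indicator (extDeriv Ψ) p := ⟨_, rfl⟩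
    have hΘi : Integrable Θ := by
      rw [hΘ]
      exact hsi.sub hΨd
    have hsum : JJ1 ρ χ (O.indicator b) =ᶠ[𝓝 p₀] JJ1 ρ χ (O.indicator Ψ) + JJ1 ρ χ Ξ := by
      filter_upwards [(isOpen_lt continuous_const hχ.continuous).mem_nhds hp] with p hp'
      rw [Pi.add_apply, ← JJ1_add' hρ.smooth.continuous hρc hΨi hΞi hp']
      congr 1
      funext q
      rw [hΞ]
      simp only
      abel
    have hsum2 : JJ ρ χ (O.indicator s) p₀ = JJ ρ χ (O.indicator (extDeriv Ψ)) p₀ +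
        JJ ρ χ Θ p₀ := by
      rw [← JJ_add' hρ.smooth.continuous hρc hΨd hΘi hp]
      congr 1
      funext q
      rw [hΘ]
      simp only
      abel
    have hd1 : DifferentiableAt ℝ (JJ1 ρ χ (O.indicator Ψ)) p₀ :=
      (JJ1_smooth' hχ hp hρ.smooth hρc hΨi).differentiableAt (by simp)
    have hd2 : DifferentiableAt ℝ (JJ1 ρ χ Ξ) p₀ :=
      (JJ1_smooth' hχ hp hρ.smooth hρc hΞi).differentiableAt (by simp)
    have hZ' : Z = extDeriv (JJ1 ρ χ Ξ) p₀ u - JJ ρ χ Θ p₀ u := by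
      rw [hZ, hsum.extDeriv_eq, extDeriv_add hd1 hd2, (JJ1_sc hSM hρ hχ hO h1 hpO).2, hsum2]
      change (JJ ρ χ (O.indicator (extDeriv Ψ)) p₀ u + extDeriv (JJ1 ρ χ Ξ) p₀ u) -
        (JJ ρ χ (O.indicator (extDeriv Ψ)) p₀ u + JJ ρ χ Θ p₀ u) = _
      ring
    have hn1 : ∫ x, ‖Ξ x‖ ≤ δ := by
      rw [integral_norm_eq_lintegral_enorm hΞi.aestronglyMeasurable]
      refine ENNReal.toReal_le_of_le_ofReal hδ.le ?_
      rw [hΞ, ind_sub1' hO]
      exact h2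
    have hn2 : ∫ x, ‖Θ x‖ ≤ δ := by
      rw [integral_norm_eq_lintegral_enorm hΘi.aestronglyMeasurable]
      refine ENNReal.toReal_le_of_le_ofReal hδ.le ?_
      rw [hΘ, ind_sub1' hO]
      exact h3
    rw [hZ']
    refine (abs_sub _ _).trans ?_
    rw [add_mul]
    exact add_le_add ((hC Ξ hΞi).trans (mul_le_mul_of_nonneg_left hn1 hC0))
      ((hC' Θ hΘi).trans (mul_le_mul_of_nonneg_left hn2 hC'0))
  by_contra hne
  have hpos : 0 < |Z| := abs_pos.2 hne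
  have h1 := key (|Z| / (2 * (C + C' + 1))) (by positivity)
  have h2 : (C + C') * (|Z| / (2 * (C + C' + 1))) ≤ |Z| / 2 := by
    rw [mul_div_assoc', div_le_div_iff₀ (by positivity) two_pos]
    nlinarith
  linarith

end Pool.Agent.U896.SC
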