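import Pool.Agent.U896.SC.P2
import Pool.Agent.U896.SW.RegM
import Pool.Agent.Y689.SY.HH

/-!
# Forms in a prescribed class: regularization of pairs in a chart
-/

set_option autoImplicit false

open Set Filter Topology MeasureTheory
open scoped Manifold ContDiff ENNReal

noncomputable section

namespace Pool.Agent.U896.SC

open Pool.Agent.Y501.SY (E Moll S_SM S_HH JJ1)
open Pool.Agent.Y515.SY
open Pool.Agent.Y710.SY
open Pool.Agent.U896
open Pool.Agent.U896.SE hiding sq aff_null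
open Pool.Agent.U896.SW

variable {d : ℕ}

/-- the condition on pairs near a point -/
def LPp (b : E d → Al d 1) (s : E d → Al d 2) (p : E d) : Prop :=
  ∃ r : ℝ, 0 < r ∧ LP b s (Metric.ball p r)

theorem fin_bdd {k : ℕ} {f : E d → Al d k} {p : E d} {r R : ℝ} (hR : r ≤ R)
    (hf : ContinuousOn f (Metric.closedBall p R)) : ∫⁻ q in Metric.ball p r, ‖f q‖ₑ < ⊤ := by
  obtain ⟨M, hM⟩ := (isCompact_closedBall p R).exists_bound_of_continuousOn hf
  refine (setLIntegral_mono' (g := fun _ => ENNReal.ofReal M)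
    Metric.isOpen_ball.measurableSet fun q hq => ?_).trans_lt ?_
  · rw [← ofReal_norm]
    exact ENNReal.ofReal_le_ofReal (hM q (Metric.ball_subset_closedBall
      (Metric.ball_subset_ball hR hq)))
  · rw [setLIntegral_const]
    exact ENNReal.mul_lt_top ENNReal.ofReal_lt_top measure_ball_lt_top

theorem LPp.add {b : E d → Al d 1} {s : E d → Al d 2} {p : E d} {T : Set (E d)} (hT : IsOpen T)
    (hp : p ∈ T) (h : LPp b s p) {a : E d → Al d 1} {η : E d → Al d 2}
    (ha : ContDiffOn ℝ ∞ a T) (hη : ContDiffOn ℝ ∞ η T) (hd : ∀ q ∈ T, extDeriv a q = η q) :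
    LPp (fun q => b q + a q) (fun q => s q + η q) p := by
  obtain ⟨r, hr, hL⟩ := h
  obtain ⟨R, hR, hRT⟩ := Metric.nhds_basis_closedBall.mem_iff.1 (hT.mem_nhds hp)
  have hsub : Metric.ball p (min r R) ⊆ T := fun q hq =>
    hRT (Metric.ball_subset_closedBall (Metric.ball_subset_ball (min_le_right _ _) hq))
  exact ⟨min r R, lt_min hr hR, LP.add Metric.isOpen_ball
    (hL.mono (Metric.ball_subset_ball (min_le_left _ _))) (ha.mono hsub) (hη.mono hsub)
    (fun q hq => hd q (hsub hq)) (fin_bdd (min_le_right _ _) (ha.continuousOn.mono hRT))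
    (fin_bdd (min_le_right _ _) (hη.continuousOn.mono hRT))⟩

theorem LPp.smooth {b : E d → Al d 1} {s : E d → Al d 2} {p : E d} {T : Set (E d)}
    (hT : IsOpen T) (hp : p ∈ T) (hb : ContDiffOn ℝ ∞ b T) (hs : ContDiffOn ℝ ∞ s T)
    (hd : ∀ q ∈ T, extDeriv b q = s q) : LPp b s p := by
  obtain ⟨R, hR, hRT⟩ := Metric.nhds_basis_closedBall.mem_iff.1 (hT.mem_nhds hp)
  have hsub : Metric.ball p R ⊆ T := fun q hq => hRT (Metric.ball_subset_closedBall hq)
  have hO : IsOpen (Metric.ball p R) := Metric.isOpen_ball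
  refine ⟨R, hR, ?_, fin_bdd le_rfl (hb.continuousOn.mono hRT), ?_,
    fin_bdd le_rfl (hs.continuousOn.mono hRT), fun δ hδ => ⟨b, hb.mono hsub, ?_, ?_⟩⟩
  · exact (hb.continuousOn.mono hsub).aestronglyMeasurable hO.measurableSet
  · exact (hs.continuousOn.mono hsub).aestronglyMeasurable hO.measurableSet
  · have h1 : ∀ q, ‖b q - b q‖ₑ = 0 := fun q => by
      rw [sub_self, ← ofReal_norm, norm_zero, ENNReal.ofReal_zero]
    simp_rw [h1]
    simp
  · have h1 : ∫⁻ q in Metric.ball p R, ‖s q - extDeriv b q‖ₑ =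
        ∫⁻ _ in Metric.ball p R, 0 := by
      refine setLIntegral_congr_fun hO.measurableSet fun q hq => ?_
      rw [hd q (hsub hq), sub_self, ← ofReal_norm, norm_zero, ENNReal.ofReal_zero]
    rw [h1]
    simp

/-- regularization of a pair -/
theorem pairC (hSM : S_SM) (hHH : S_HH) {V k : Set (E d)} {χ : E d → ℝ}
    {s₀ s : E d → Al d 2} {b : E d → Al d 1} (hV : IsOpen V)
    (hVk : IsOpen (V \ k))
    (hLP : ∀ p ∈ V, LPp b (fun q => s q - s₀ q) p)
    (hχ : ContDiff ℝ ∞ χ) (hχ0 : ∀ p, 0 ≤ χ p) (hχc : HasCompactSupport χ) (hχV : tsupport χ ⊆ V)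
    (hs₀ : ContDiffOn ℝ ∞ s₀ V) (hs₀c : ∀ p ∈ V, extDeriv s₀ p = 0)
    (hb : ContDiffOn ℝ ∞ b (V \ k)) (hs : ContDiffOn ℝ ∞ s (V \ k))
    (hbs : ∀ p ∈ V \ k, extDeriv b p = s p - s₀ p)
    {Q : Set (E d)} (hQV : Q ⊆ V) {r : ℝ} (hr : 0 < r)
    (hGQ : Metric.thickening r (tsupport χ) ⊆ Q) :
    ∃ ε₀ : ℝ, 0 < ε₀ ∧ ∀ ε : ℝ, 0 < ε → ε ≤ ε₀ → ∀ ρ : E d → ℝ, Moll ε ρ →
    ∃ (b' : E d → Al d 1) (s' : E d → Al d 2),
      (∀ p, χ p = 0 → b' p = b p) ∧ (∀ p, χ p = 0 → s' p = s p) ∧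
      (∀ p, 0 < χ p → s' p = JJ ρ χ (Q.indicator s) p) ∧
      ContDiffOn ℝ ∞ b' (V \ (k ∩ {p | χ p = 0})) ∧
      ContDiffOn ℝ ∞ s' (V \ (k ∩ {p | χ p = 0})) ∧
      (∀ p ∈ V \ (k ∩ {p | χ p = 0}), extDeriv b' p = s' p - s₀ p) ∧
      ∀ p ∈ V, LPp b' (fun q => s' q - s₀ q) p := by
  -- a uniform radius
  obtain ⟨δ, hδ, hδr, hδL⟩ : ∃ δ : ℝ, 0 < δ ∧ δ ≤ r ∧ ∀ p ∈ tsupport χ,
      LP b (fun q => s q - s₀ q) (Metric.ball p δ) := by
    choose! R hR0 hR using hLP
    obtain ⟨δ, hδ, hδ'⟩ := lebesgue_number_lemma_of_metric (s := tsupport χ)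
      (c := fun x : V => Metric.ball (x : E d) (R x)) hχc (fun x => Metric.isOpen_ball)
      (fun p hp => mem_iUnion.2 ⟨⟨p, hχV hp⟩, Metric.mem_ball_self (hR0 p (hχV hp))⟩)
    refine ⟨min δ r, lt_min hδ hr, min_le_right _ _, fun p hp => ?_⟩
    obtain ⟨x, hx⟩ := hδ' p hp
    exact (hR x x.2).mono ((Metric.ball_subset_ball (min_le_left _ _)).trans hx)
  obtain ⟨D, hD⟩ := (hχ.continuous_fderiv (by simp)).bounded_above_of_compact_support
    (hχc.fderiv ℝ)
  have hD0 : 0 ≤ D := (norm_nonneg _).trans (hD 0)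
  obtain ⟨X, hX⟩ := hχ.continuous.bounded_above_of_compact_support hχc
  have hX0 : 0 ≤ X := (norm_nonneg _).trans (hX 0)
  obtain ⟨θ, hθ, hdet⟩ := det_near (d := d)
  refine ⟨min (δ / (4 * (X + 1))) (min (θ / (D + 1)) (1 / (2 * (D + 1)))),
    lt_min (by positivity) (lt_min (by positivity) (by positivity)), ?_⟩
  intro ε hε hεle ρ hρ
  have hε₁ : ε ≤ δ / (4 * (X + 1)) := hεle.trans (min_le_left _ _)
  have hε₄ : ε ≤ θ / (D + 1) := hεle.trans ((min_le_right _ _).trans (min_le_left _ _))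
  have hε₅ : ε ≤ 1 / (2 * (D + 1)) := hεle.trans ((min_le_right _ _).trans (min_le_right _ _))
  rw [le_div_iff₀ (by positivity)] at hε₁ hε₄ hε₅
  have hDε1 : D * ε < 1 := by nlinarith
  have hDεθ : D * ε ≤ θ := by nlinarith
  have hmove : ∀ p y : E d, ‖y‖ ≤ ε → ‖χ p • y‖ ≤ X * ε := by
    intro p y hy
    rw [norm_smul]
    exact mul_le_mul (hX p) hy (norm_nonneg _) hX0
  have hBO : ∀ p₀ : E d, ∀ p ∈ Metric.ball p₀ (δ / 2), ∀ y, ‖y‖ ≤ ε →
      p + χ p • y ∈ Metric.ball p₀ δ := by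
    intro p₀ p hp y hy
    rw [Metric.mem_ball, dist_eq_norm] at hp ⊢
    have h1 : p + χ p • y - p₀ = (p - p₀) + χ p • y := by abel
    rw [h1]
    refine (norm_add_le _ _).trans_lt ?_
    have h2 := hmove p y hy
    nlinarith
  have hball : ∀ p ∈ tsupport χ, ∀ y, ‖y‖ ≤ ε → p + χ p • y ∈ Metric.ball p δ :=
    fun p _ y hy => hBO p p (Metric.mem_ball_self (by positivity)) y hy
  have hOQ : ∀ p ∈ tsupport χ, Metric.ball p δ ⊆ Q := by
    intro p hp q hq
    apply hGQ
    rw [Metric.mem_thickening_iff]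
    exact ⟨p, hp, lt_of_lt_of_le (Metric.mem_ball.1 hq) hδr⟩
  have hin : ∀ p, χ p ≠ 0 → p ∈ tsupport χ := fun p hp => subset_tsupport χ hp
  have hfd : ∀ p, χ p = 0 → fderiv ℝ χ p = 0 := by
    intro p hp
    apply IsLocalMin.fderiv_eq_zero
    refine Eventually.of_forall fun x => ?_
    rw [hp]
    exact hχ0 x
  have hχ00 : ∀ p, 0 < χ p ∨ (χ p = 0 ∧ fderiv ℝ χ p = 0) := by
    intro p
    rcases (hχ0 p).lt_or_eq with h | h
    · exact Or.inl h
    · exact Or.inr ⟨h.symm, hfd p h.symm⟩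
  -- the homotopy
  obtain ⟨h, hh1, hh2, hh3⟩ := hHH hSM d V χ ρ s₀ ε hV hχ hχ0 hχc hε hρ hs₀ hs₀c (by
    intro p hp y hy u hu0 hu1
    by_cases h0 : χ p = 0
    · rw [h0, mul_zero, zero_smul, add_zero]
      exact hp
    · apply hQV
      apply hOQ p (hin p h0)
      rw [Metric.mem_ball, dist_eq_norm, add_sub_cancel_left, mul_smul, norm_smul,
        Real.norm_of_nonneg hu0]
      have h1 := hmove p y hy
      have h2 : u * ‖χ p • y‖ ≤ 1 * (X * ε) := mul_le_mul hu1 h1 (norm_nonneg _) zero_le_one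
      refine h2.trans_lt ?_
      nlinarith)
  have hhc : ∀ p ∈ V, ContDiffAt ℝ ∞ h p := fun p hp => hh1.contDiffAt (hV.mem_nhds hp)
  classical
  obtain ⟨s', hs'⟩ : ∃ s' : E d → Al d 2, ∀ p, s' p = if χ p = 0 then s p else
      JJ ρ χ (Q.indicator s) p := ⟨_, fun _ => rfl⟩
  obtain ⟨b', hb'⟩ : ∃ b' : E d → Al d 1, ∀ p, b' p = if χ p = 0 then b p else
      JJ1 ρ χ (Q.indicator b) p + h p := ⟨_, fun _ => rfl⟩
  -- near the points of the support
  have hlocb : ∀ p₀ ∈ tsupport χ, ∀ p ∈ Metric.ball p₀ (δ / 2),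
      b' p = JJ1 ρ χ ((Metric.ball p₀ δ).indicator b) p + h p := by
    intro p₀ hp₀ p hp
    rw [hb' p]
    split_ifs with h0
    · rw [Pool.Agent.Y972.SY.JJ1_eq hρ _ h0 (hfd p h0), hh2 p h0, add_zero]
      exact (indicator_of_mem (Metric.ball_subset_ball (by linarith) hp) _).symm
    · congr 1
      refine JJ1_congr hρ fun y hy => ?_
      have h1 := hBO p₀ p hp y hy
      rw [indicator_of_mem h1, indicator_of_mem (hOQ p₀ hp₀ h1)]
  have hlocs : ∀ p₀ ∈ tsupport χ, ∀ p ∈ Metric.ball p₀ (δ / 2),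
      s' p - s₀ p = JJ ρ χ ((Metric.ball p₀ δ).indicator fun q => s q - s₀ q) p +
        extDeriv h p := by
    intro p₀ hp₀ p hp
    have hpδ : p ∈ Metric.ball p₀ δ := Metric.ball_subset_ball (by linarith) hp
    have hpV : p ∈ V := hQV (hOQ p₀ hp₀ hpδ)
    have hO : IsOpen (Metric.ball p₀ δ) := Metric.isOpen_ball
    rw [hh3 p hpV, hs' p]
    split_ifs with h0
    · rw [JJ_eq hρ _ h0 (hfd p h0), JJ_eq hρ _ h0 (hfd p h0), sub_self, add_zero,
        indicator_of_mem hpδ]
    · have hp0 : 0 < χ p := lt_of_le_of_ne (hχ0 p) (Ne.symm h0)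
      obtain ⟨r', hr'0, hr'1, hr'2⟩ : ∃ r' : ℝ, 0 < r' ∧ r' < δ ∧ ∀ y, ‖y‖ ≤ ε →
          p + χ p • y ∈ Metric.ball p₀ r' := by
        have h5 : dist p p₀ < δ / 2 := hp
        have h6 : X * ε < δ / 4 + δ / 8 := by nlinarith
        refine ⟨δ / 2 + (δ / 4 + δ / 8), by linarith, by linarith, fun y hy => ?_⟩
        rw [Metric.mem_ball, dist_eq_norm]
        rw [dist_eq_norm] at h5
        have h1 : p + χ p • y - p₀ = (p - p₀) + χ p • y := by abel
        rw [h1]
        refine (norm_add_le _ _).trans_lt ?_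
        have h2 := hmove p y hy
        linarith
      obtain ⟨C, hCd⟩ : ∃ C, C = Metric.ball p₀ r' := ⟨_, rfl⟩
      rw [← hCd] at hr'2
      have hCδ : C ⊆ Metric.ball p₀ δ := by
        rw [hCd]; exact Metric.ball_subset_ball hr'1.le
      have hCo : IsOpen C := by rw [hCd]; exact Metric.isOpen_ball
      have e1 : JJ ρ χ (Q.indicator s) p = JJ ρ χ (C.indicator s) p :=
        JJ_congr hρ fun y hy => by
          have h1 := hr'2 y hy
          rw [indicator_of_mem h1, indicator_of_mem (hOQ p₀ hp₀ (hCδ h1))]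
      have e2 : JJ ρ χ ((Metric.ball p₀ δ).indicator fun q => s q - s₀ q) p =
          JJ ρ χ (C.indicator fun q => s q - s₀ q) p :=
        JJ_congr hρ fun y hy => by
          have h1 := hr'2 y hy
          rw [indicator_of_mem h1, indicator_of_mem (hCδ h1)]
      have e3 : JJ ρ χ s₀ p = JJ ρ χ (C.indicator s₀) p :=
        JJ_congr hρ fun y hy => by
          have h1 := hr'2 y hy
          rw [indicator_of_mem h1]
      have hL := (hδL p₀ hp₀).mono hCδ
      have i1 : Integrable (C.indicator fun q => s q - s₀ q) := ind_int1 hCo hL.ms hL.fs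
      have i2 : Integrable (C.indicator s₀) := by
        refine ind_int1 hCo ?_ ?_
        · exact (hs₀.continuousOn.mono ((hCδ.trans (hOQ p₀ hp₀)).trans
            hQV)).aestronglyMeasurable hCo.measurableSet
        · rw [hCd]
          refine fin_bdd le_rfl (hs₀.continuousOn.mono ?_)
          exact (Metric.closedBall_subset_ball hr'1).trans ((hOQ p₀ hp₀).trans hQV)
      rw [e1, e2, e3]
      have e4 : C.indicator s = fun q => C.indicator (fun q => s q - s₀ q) q +
          C.indicator s₀ q := by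
        funext q
        by_cases hq : q ∈ C
        · rw [indicator_of_mem hq, indicator_of_mem hq, indicator_of_mem hq, sub_add_cancel]
        · rw [indicator_of_notMem hq, indicator_of_notMem hq, indicator_of_notMem hq, add_zero]
      rw [e4, JJ_add' hρ.smooth.continuous (moll_cs hρ) i1 i2 hp0]
      abel
  set Ω : Set (E d) := V \ (k ∩ {p | χ p = 0}) with hΩ
  have hsplit : ∀ p ∈ Ω, (χ p = 0 ∧ p ∈ V \ k) ∨ (0 < χ p ∧ p ∈ V) := by
    intro p hp
    by_cases h : χ p = 0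
    · exact Or.inl ⟨h, hp.1, fun hk => hp.2 ⟨hk, h⟩⟩
    · exact Or.inr ⟨lt_of_le_of_ne (hχ0 p) (Ne.symm h), hp.1⟩
  have hev2 : ∀ p, p ∉ tsupport χ → b' =ᶠ[𝓝 p] b ∧ s' =ᶠ[𝓝 p] s := by
    intro p hp
    have h1 := notMem_tsupport_iff_eventuallyEq.1 hp
    constructor
    · filter_upwards [h1] with q hq
      have hq' : χ q = 0 := hq
      rw [hb' q, if_pos hq']
    · filter_upwards [h1] with q hq
      have hq' : χ q = 0 := hq
      rw [hs' q, if_pos hq']
  have hehs : ContDiffOn ℝ ∞ (extDeriv h) V := extD_cont hV hh1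
  have hsm : ∀ p ∈ Ω, ContDiffAt ℝ ∞ b' p ∧ ContDiffAt ℝ ∞ s' p ∧
      extDeriv b' p = s' p - s₀ p := by
    intro p hp
    have hpV' : p ∈ V := hp.1
    by_cases hpt : p ∈ tsupport χ
    · have hO : IsOpen (Metric.ball p δ) := Metric.isOpen_ball
      have hL := hδL p hpt
      have hevb : b' =ᶠ[𝓝 p] fun q => JJ1 ρ χ ((Metric.ball p δ).indicator b) q + h q := by
        filter_upwards [Metric.ball_mem_nhds p (half_pos hδ)] with q hq
        exact hlocb p hpt q hq
      have hevs : s' =ᶠ[𝓝 p] fun q => JJ ρ χ ((Metric.ball p δ).indicator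
          fun q => s q - s₀ q) q + extDeriv h q + s₀ q := by
        filter_upwards [Metric.ball_mem_nhds p (half_pos hδ)] with q hq
        rw [← hlocs p hpt q hq, sub_add_cancel]
      have h1 : ContDiffAt ℝ ∞ (JJ1 ρ χ ((Metric.ball p δ).indicator b)) p ∧
          ContDiffAt ℝ ∞ (JJ ρ χ ((Metric.ball p δ).indicator fun q => s q - s₀ q)) p ∧
          extDeriv (JJ1 ρ χ ((Metric.ball p δ).indicator b)) p =
            JJ ρ χ ((Metric.ball p δ).indicator fun q => s q - s₀ q) p := by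
        rcases hsplit p hp with h | h
        · have hOk : IsOpen (Metric.ball p δ ∩ (V \ k)) := hO.inter hVk
          have hpk : p ∈ Metric.ball p δ ∩ (V \ k) := ⟨Metric.mem_ball_self hδ, h.2⟩
          have hmv : ∀ y, ‖y‖ ≤ ε → p + χ p • y ∈ Metric.ball p δ ∩ (V \ k) := by
            intro y _
            rw [h.1, zero_smul, add_zero]
            exact hpk
          have hb1 : ContDiffOn ℝ ∞ ((Metric.ball p δ).indicator b)
              (Metric.ball p δ ∩ (V \ k)) :=
            (hb.mono inter_subset_right).congr fun q hq => indicator_of_mem hq.1 _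
          have hs1 : ContDiffOn ℝ ∞ ((Metric.ball p δ).indicator fun q => s q - s₀ q)
              (Metric.ball p δ ∩ (V \ k)) :=
            ((hs.sub (hs₀.mono sdiff_subset)).mono inter_subset_right).congr
              fun q hq => indicator_of_mem hq.1 _
          obtain ⟨g1, -, g2⟩ := JJ1_sm hSM hρ hχ hOk hb1 hmv
          refine ⟨g1, (JJ_sm hSM hρ hχ hOk hs1 hmv).1, ?_⟩
          rw [g2]
          refine JJ_congr hρ fun y hy => ?_
          have hy' := hmv y hy
          have h3 : (Metric.ball p δ).indicator b =ᶠ[𝓝 (p + χ p • y)] b := by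
            filter_upwards [hO.mem_nhds hy'.1] with x hx
            exact indicator_of_mem hx _
          rw [h3.extDeriv_eq, indicator_of_mem hy'.1]
          exact hbs _ hy'.2
        · exact ⟨JJ1_smooth' hχ h.1 hρ.smooth (moll_cs hρ) (ind_int1 hO hL.mb hL.fb),
            JJ_smooth' hχ h.1 hρ.smooth (moll_cs hρ) (ind_int1 hO hL.ms hL.fs),
            LP_ext hSM hρ hχ hO h.1 (hball p hpt) hL⟩
      refine ⟨(h1.1.add (hhc p hpV')).congr_of_eventuallyEq hevb,
        ((h1.2.1.add (hehs.contDiffAt (hV.mem_nhds hpV'))).add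
          (hs₀.contDiffAt (hV.mem_nhds hpV'))).congr_of_eventuallyEq hevs, ?_⟩
      rw [hevb.extDeriv_eq, hlocs p hpt p (Metric.mem_ball_self (half_pos hδ)), ← h1.2.2]
      exact extDeriv_fun_add (h1.1.differentiableAt (by simp))
        ((hhc p hpV').differentiableAt (by simp))
    · have hpV : p ∈ V \ k := by
        rcases hsplit p hp with h | h
        · exact h.2
        · exact absurd (hin p h.1.ne') hpt
      refine ⟨(hb.contDiffAt (hVk.mem_nhds hpV)).congr_of_eventuallyEq (hev2 p hpt).1,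
        (hs.contDiffAt (hVk.mem_nhds hpV)).congr_of_eventuallyEq (hev2 p hpt).2, ?_⟩
      rw [(hev2 p hpt).1.extDeriv_eq, hbs p hpV, (hev2 p hpt).2.eq_of_nhds]
  refine ⟨b', s', ?_, ?_, ?_, ?_, ?_, ?_, ?_⟩
  · intro p hp
    rw [hb' p, if_pos hp]
  · intro p hp
    rw [hs' p, if_pos hp]
  · intro p hp
    rw [hs' p, if_neg hp.ne']
  · intro p hp
    exact (hsm p hp).1.contDiffWithinAt
  · intro p hp
    exact (hsm p hp).2.1.contDiffWithinAt
  · intro p hp
    exact (hsm p hp).2.2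
  · intro p hp
    by_cases hpt : p ∈ tsupport χ
    · have h1 := LP_JJ hSM hε.le hρ hχ hχ00 hD hDε1 hDεθ hdet Metric.isOpen_ball
        Metric.isOpen_ball (hBO p) (hδL p hpt)
      have hsub : Metric.closedBall p (δ / 2) ⊆ V :=
        (Metric.closedBall_subset_ball (by linarith)).trans ((hOQ p hpt).trans hQV)
      refine ⟨δ / 2, half_pos hδ, ?_⟩
      have h2 := LP.add Metric.isOpen_ball h1
        (hh1.mono (Metric.ball_subset_closedBall.trans hsub))
        (hehs.mono (Metric.ball_subset_closedBall.trans hsub)) (fun q _ => rfl)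
        (fin_bdd le_rfl (hh1.continuousOn.mono hsub))
        (fin_bdd le_rfl (hehs.continuousOn.mono hsub))
      exact h2.congr Metric.isOpen_ball (hlocb p hpt) (hlocs p hpt)
    · obtain ⟨R, hR, hL⟩ := hLP p hp
      have h1 : IsOpen (tsupport χ)ᶜ := (isClosed_tsupport χ).isOpen_compl
      obtain ⟨R', hR', hR''⟩ := Metric.isOpen_iff.1 h1 p hpt
      refine ⟨min R R', lt_min hR hR', ?_⟩
      refine LP.congr Metric.isOpen_ball (hL.mono (Metric.ball_subset_ball (min_le_left _ _)))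
        (fun q hq => ?_) fun q hq => ?_
      · have hq' : q ∉ tsupport χ := hR'' (Metric.ball_subset_ball (min_le_right _ _) hq)
        rw [hb' q, if_pos (image_eq_zero_of_notMem_tsupport hq')]
      · have hq' : q ∉ tsupport χ := hR'' (Metric.ball_subset_ball (min_le_right _ _) hq)
        rw [hs' q, if_pos (image_eq_zero_of_notMem_tsupport hq')]

end Pool.Agent.U896.SC
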