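import Pool.Agent.U896.SC.P3

/-!
# Forms in a prescribed class: positivity of the averages, regularization in a chart
-/

set_option autoImplicit false

open Set Filter Topology MeasureTheory
open scoped Manifold ContDiff ENNReal

noncomputable section

namespace Pool.Agent.U896.SC

open Pool.Agent.Y501.SY (E Moll S_SM S_HH JJ1)
open Pool.Agent.Y515.SY
open Pool.Agent.Y710.SY
open Pool.Agent.U896
open Pool.Agent.U896.SE hiding sq aff_null
open Pool.Agent.U896.SW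

variable {d : ℕ}

theorem posM {V N Q : Set (E d)} {χ : E d → ℝ}
    {s : E d → Al d 2} {Js : E d → (E d →L[ℝ] E d)} {c : ℝ} (hc : 0 < c)
    (hnull : volume (N ∩ Q) = 0)
    (hχ : ContDiff ℝ ∞ χ) (hχc : HasCompactSupport χ)
    (hQ : IsCompact Q) (hQV : Q ⊆ V) {r : ℝ} (hr : 0 < r)
    (hGQ : Metric.thickening r (tsupport χ) ⊆ Q) (hsi : Integrable (Q.indicator s))
    (hJ : ContinuousOn Js V)
    (hpos : ∀ p ∈ V \ N, ∀ v : E d, c * (1 + ‖s p‖) * ‖v‖ ^ 2 ≤ s p ![v, Js p v]) :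
    ∃ ε₀ : ℝ, 0 < ε₀ ∧ ∀ ε : ℝ, 0 < ε → ε ≤ ε₀ → ∀ ρ : E d → ℝ, Moll ε ρ →
      ∀ p, 0 < χ p → ∀ v : E d, c / 8 * (1 + ‖JJ ρ χ (Q.indicator s) p‖) * ‖v‖ ^ 2 ≤
        JJ ρ χ (Q.indicator s) p ![v, Js p v] := by
  have hNQ : tsupport χ ⊆ Q := (Metric.self_subset_thickening hr _).trans hGQ
  set Φ : E d → Al d 2 := Q.indicator s with hΦ
  have hΦi : Integrable Φ := hsi
  have hΦs : ∀ p ∈ Q, Φ p = s p := fun p hp => indicator_of_mem hp s
  -- constants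
  obtain ⟨S₀, hS₀⟩ := hQ.exists_bound_of_continuousOn (hJ.mono hQV)
  set S : ℝ := max S₀ 0 with hSdef
  have hS0 : 0 ≤ S := le_max_right _ _
  have hS : ∀ p ∈ Q, ‖Js p‖ ≤ S := fun p hp => (hS₀ p hp).trans (le_max_left _ _)
  obtain ⟨D, hD⟩ := (hχ.continuous_fderiv (by simp)).bounded_above_of_compact_support
    (hχc.fderiv ℝ)
  have hD0 : 0 ≤ D := (norm_nonneg _).trans (hD 0)
  obtain ⟨X, hX⟩ := hχ.continuous.bounded_above_of_compact_support hχc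
  have hX0 : 0 ≤ X := (norm_nonneg _).trans (hX 0)
  obtain ⟨r₃, hr₃, hr₃'⟩ := Metric.uniformContinuousOn_iff.1
    (hQ.uniformContinuousOn_of_continuous (hJ.mono hQV)) (c / 4) (by positivity)
  refine ⟨min (min (min (r / (4 * (X + 1))) (r₃ / (2 * (X + 1))))
    (c / (8 * ((D + 1) * (S + 1))))) (1 / (D + 1)),
    lt_min (lt_min (lt_min (by positivity) (by positivity)) (by positivity)) (by positivity), ?_⟩
  intro ε hε hεle ρ hρ p hp0 v
  have hε₁ : ε ≤ r / (4 * (X + 1)) :=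
    hεle.trans ((min_le_left _ _).trans ((min_le_left _ _).trans (min_le_left _ _)))
  have hε₂ : ε ≤ r₃ / (2 * (X + 1)) :=
    hεle.trans ((min_le_left _ _).trans ((min_le_left _ _).trans (min_le_right _ _)))
  have hε₃ : ε ≤ c / (8 * ((D + 1) * (S + 1))) :=
    hεle.trans ((min_le_left _ _).trans (min_le_right _ _))
  have hε₅ : ε ≤ 1 / (D + 1) := hεle.trans (min_le_right _ _)
  rw [le_div_iff₀ (by positivity)] at hε₁ hε₂ hε₃ hε₅
  have hDε1 : D * ε ≤ 1 := by nlinarith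
  have hDε : 0 ≤ D * ε := by positivity
  have hmove : ∀ p y : E d, ‖y‖ ≤ ε → ‖χ p • y‖ ≤ X * ε := by
    intro p y hy
    rw [norm_smul]
    exact mul_le_mul (hX p) hy (norm_nonneg _) hX0
  have hpN : p ∈ tsupport χ := subset_tsupport χ hp0.ne'
  have hballQ : ∀ y, ‖y‖ ≤ ε → p + χ p • y ∈ Q := by
    intro y hy
    apply hGQ
    rw [Metric.mem_thickening_iff]
    refine ⟨p, hpN, ?_⟩
    rw [dist_eq_norm, add_sub_cancel_left]
    refine (hmove p y hy).trans_lt ?_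
    nlinarith
  have key : c / 2 / (1 + D * ε) ^ 2 * (1 + ‖JJ ρ χ Φ p‖) * ‖v‖ ^ 2 ≤
      JJ ρ χ Φ p ![v, Js p v] := by
    refine JJ_lb' hε.le hρ hΦi hc (δ₁ := c / 4) (by positivity) hp0 (hS p (hNQ hpN)) (hD p) ?_
      ?_ v
    · have h6 : D * S ≤ (D + 1) * (S + 1) := by nlinarith
      have h7 : ε * (D * S) ≤ ε * ((D + 1) * (S + 1)) := mul_le_mul_of_nonneg_left h6 hε.le
      nlinarith
    · filter_upwards [Pool.Agent.Y515.SY.aff_null hnull p hp0.ne'] with y hy hyε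
      have hyQ := hballQ y hyε.le
      have hyN : p + χ p • y ∉ N := fun h' => hy ⟨h', hyQ⟩
      refine ⟨?_, ?_⟩
      · have h2 : dist p (p + χ p • y) < r₃ := by
          rw [dist_eq_norm, sub_add_cancel_left, norm_neg]
          refine lt_of_le_of_lt (hmove p y hyε.le) ?_
          nlinarith
        have h3 := hr₃' p (hNQ hpN) _ hyQ h2
        rw [dist_eq_norm] at h3
        exact h3.le
      · intro v
        rw [hΦs _ hyQ]
        exact hpos _ ⟨hQV hyQ, hyN⟩ v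
  refine le_trans ?_ key
  have h1 : c / 8 ≤ c / 2 / (1 + D * ε) ^ 2 := by
    rw [le_div_iff₀ (by positivity)]
    have h2 : (1 + D * ε) ^ 2 ≤ 4 := by nlinarith
    nlinarith
  have h2 : 0 ≤ (1 + ‖JJ ρ χ Φ p‖) := by positivity
  exact mul_le_mul_of_nonneg_right (mul_le_mul_of_nonneg_right h1 h2) (sq_nonneg _)

theorem ind_Q {f : E d → Al d 2} {Q : Set (E d)} (hQ : IsCompact Q)
    (h : IntegrableOn f Q volume) : Integrable (Q.indicator f) :=
  (integrable_indicator_iff hQ.measurableSet).2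
    ⟨h.1, hasFiniteIntegral_iff_enorm.2 (hasFiniteIntegral_iff_enorm.1 h.2)⟩

theorem LPp.intOn {b : E d → Al d 1} {s s₀ : E d → Al d 2} {V Q : Set (E d)}
    (hLP : ∀ p ∈ V, LPp b (fun q => s q - s₀ q) p) (hs₀ : ContDiffOn ℝ ∞ s₀ V)
    (hQ : IsCompact Q) (hQV : Q ⊆ V) : Integrable (Q.indicator s) := by
  have h1 : IntegrableOn (fun q => s q - s₀ q) Q volume := by
    refine LocallyIntegrableOn.integrableOn_isCompact (fun x hx => ?_) hQ
    obtain ⟨R, hR, hL⟩ := hLP x (hQV hx)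
    exact ⟨Metric.ball x R, mem_nhdsWithin_of_mem_nhds (Metric.ball_mem_nhds x hR),
      hL.ms, hasFiniteIntegral_iff_enorm.2 hL.fs⟩
  have h2 : IntegrableOn (fun q => - s₀ q) Q volume :=
    (hs₀.continuousOn.mono hQV).neg.integrableOn_compact hQ
  have h3 : Q.indicator s = fun q => Q.indicator (fun q => s q - s₀ q) q -
      Q.indicator (fun q => - s₀ q) q := by
    funext q
    by_cases hq : q ∈ Q
    · rw [indicator_of_mem hq, indicator_of_mem hq, indicator_of_mem hq]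
      abel
    · rw [indicator_of_notMem hq, indicator_of_notMem hq, indicator_of_notMem hq, sub_zero]
  rw [h3]
  exact (ind_Q hQ h1).sub (ind_Q hQ h2)

theorem regC (hSM : S_SM) (hHH : S_HH) {V k N : Set (E d)} {χ : E d → ℝ}
    {s₀ s : E d → Al d 2} {b : E d → Al d 1} {Js : E d → (E d →L[ℝ] E d)} {c : ℝ}
    (hc : 0 < c) (hV : IsOpen V)
    (hVk : IsOpen (V \ k)) (hNk : N ⊆ k)
    (hnull' : ∀ Q : Set (E d), IsCompact Q → Q ⊆ V → volume (N ∩ Q) = 0)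
    (hLP : ∀ p ∈ V, LPp b (fun q => s q - s₀ q) p)
    (hχ : ContDiff ℝ ∞ χ) (hχ0 : ∀ p, 0 ≤ χ p) (hχc : HasCompactSupport χ) (hχV : tsupport χ ⊆ V)
    (hs₀ : ContDiffOn ℝ ∞ s₀ V) (hs₀c : ∀ p ∈ V, extDeriv s₀ p = 0)
    (hb : ContDiffOn ℝ ∞ b (V \ k)) (hs : ContDiffOn ℝ ∞ s (V \ k))
    (hbs : ∀ p ∈ V \ k, extDeriv b p = s p - s₀ p)
    (hJ : ContinuousOn Js V)
    (hpos : ∀ p ∈ V \ N, ∀ v : E d, c * (1 + ‖s p‖) * ‖v‖ ^ 2 ≤ s p ![v, Js p v]) :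
    ∃ (b' : E d → Al d 1) (s' : E d → Al d 2) (c' : ℝ), 0 < c' ∧
      ContDiffOn ℝ ∞ b' (V \ (k ∩ {p | χ p = 0})) ∧
      ContDiffOn ℝ ∞ s' (V \ (k ∩ {p | χ p = 0})) ∧
      (∀ p ∈ V \ (k ∩ {p | χ p = 0}), extDeriv b' p = s' p - s₀ p) ∧
      (∀ p, χ p = 0 → b' p = b p) ∧ (∀ p, χ p = 0 → s' p = s p) ∧
      (∀ p ∈ V \ (N ∩ {p | χ p = 0}), ∀ v : E d,
        c' * (1 + ‖s' p‖) * ‖v‖ ^ 2 ≤ s' p ![v, Js p v]) ∧
      ∀ p ∈ V, LPp b' (fun q => s' q - s₀ q) p := by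
  obtain ⟨r, hr, hrV⟩ := IsCompact.exists_cthickening_subset_open hχc hV hχV
  have hQ : IsCompact (Metric.cthickening r (tsupport χ)) := IsCompact.cthickening hχc
  have hGQ : Metric.thickening r (tsupport χ) ⊆ Metric.cthickening r (tsupport χ) :=
    Metric.thickening_subset_cthickening _ _
  obtain ⟨ε₁, hε₁, h1⟩ := pairC hSM hHH hV hVk hLP hχ hχ0 hχc hχV hs₀ hs₀c hb hs hbs hrV hr hGQ
  obtain ⟨ε₂, hε₂, h2⟩ := posM hc (hnull' _ hQ hrV) hχ hχc hQ hrV hr hGQ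
    (LPp.intOn hLP hs₀ hQ hrV) hJ hpos
  obtain ⟨ρ, hρ⟩ := moll_exists (d := d) (lt_min hε₁ hε₂)
  obtain ⟨b', s', g1, g2, g3, g4, g5, g6, g7⟩ := h1 _ (lt_min hε₁ hε₂) (min_le_left _ _) ρ hρ
  have h2' := h2 _ (lt_min hε₁ hε₂) (min_le_right _ _) ρ hρ
  refine ⟨b', s', c / 8, by positivity, g4, g5, g6, g1, g2, ?_, g7⟩
  intro p hp v
  rcases (hχ0 p).lt_or_eq with h0 | h0
  · rw [g3 p h0]
    exact h2' p h0 v
  · have hpN : p ∈ V \ N := ⟨hp.1, fun h => hp.2 ⟨h, h0.symm⟩⟩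
    rw [g2 p h0.symm]
    refine le_trans ?_ (hpos p hpN v)
    have h2 : 0 ≤ (1 + ‖s p‖) := by positivity
    exact mul_le_mul_of_nonneg_right (mul_le_mul_of_nonneg_right (by linarith) h2) (sq_nonneg _)

end Pool.Agent.U896.SC
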