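import Pool.Agent.U896.SC.P6

/-!
# Forms in a prescribed class: one step of the regularization on a manifold
-/

set_option autoImplicit false

open Set Filter Topology MeasureTheory
open scoped Manifold ContDiff ENNReal

noncomputable section

namespace Pool.Agent.U896.SC

open Pool.Agent.Y501.SY
open Pool.Agent.U896.SE (to_chart)
open Pool.Agent.U896.SW (NullX)

section

variable {d : ℕ} {X : Type} [TopologicalSpace X] [ChartedSpace (E d) X]

/-- uniformly taming forms `σ = σ₀ + dβ` of bounded eccentricity on the complement of `N`, which are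
smooth on the complement of `K`, and locally integrable and limits of smooth pairs -/
structure UC {m : ℕ} (F : X → E m) (J : End d X) (σ₀ : Form d X 2) (β : Form d X 1)
    (σ : Form d X 2) (K N : Set X) : Prop where
  smβ : SmoothOff β K
  smooth : SmoothOff σ K
  isD : IsDOff β (σ - σ₀) K
  lp : ∀ z : X, ∀ p ∈ (chartAt (E d) z).target,
    LPp (pb (chartAt (E d) z).symm β) (pb (chartAt (E d) z).symm (σ - σ₀)) p
  pos : ∃ c : ℝ, 0 < c ∧ ∀ x, x ∉ N → ∀ v : TangentSpace (𝓡 d) x,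
    c * nm F x v ^ 2 ≤ σ x ![v, J x v]
  ecc : ∃ c : ℝ, 0 < c ∧ ∀ x, x ∉ N → ∀ v u w : TangentSpace (𝓡 d) x,
    c * |σ x ![u, w]| * nm F x v ^ 2 ≤ σ x ![v, J x v] * (nm F x u * nm F x w)

theorem stepC {m : ℕ} (hI : S_IMM) (hSm : S_SM) (hHH : S_HH) (hPa : S_PATCH2)
    (hPp : S_PATCHP)
    [IsManifold (𝓡 d) ∞ X] [T2Space X] {F : X → E m} (hF : ContMDiff (𝓡 d) (𝓡 m) ∞ F)
    (hFi : ∀ x, Function.Injective (mfderiv (𝓡 d) (𝓡 m) F x)) {J : End d X}
    (hJ : IsAlmostComplex J) {σ₀ : Form d X 2} (hσ₀ : IsSmooth σ₀) (hσ₀c : IsClosedForm σ₀)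
    (z : X) :
    ∃ W : Set X, IsOpen W ∧ z ∈ W ∧ ∀ (K N : Set X) (β : Form d X 1) (w : Form d X 2),
      IsClosed K → N ⊆ K → NullX (d := d) N → UC F J σ₀ β w K N →
      ∃ (β' : Form d X 1) (w' : Form d X 2), UC F J σ₀ β' w' (K \ W) (N \ W) := by
  -- the ball
  obtain ⟨r, hr, hball⟩ : ∃ r : ℝ, 0 < r ∧ Metric.closedBall (chartAt (E d) z z) r ⊆
      (chartAt (E d) z).target :=
    Metric.nhds_basis_closedBall.mem_iff.1
      ((chartAt (E d) z).open_target.mem_nhds (mem_chart_target (E d) z))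
  obtain ⟨p₀, hp₀⟩ : ∃ p₀, p₀ = chartAt (E d) z z := ⟨_, rfl⟩
  rw [← hp₀] at hball
  obtain ⟨e, he⟩ : ∃ e, e = chartAt (E d) z := ⟨_, rfl⟩
  have hzs : z ∈ e.source := by rw [he]; exact mem_chart_source (E d) z
  have hez : e z = p₀ := by rw [he, hp₀]
  have hVt : Metric.closedBall p₀ r ⊆ e.target := fun p hp => by
    rw [he]; exact hball hp
  have hV : Metric.ball p₀ r ⊆ e.target := Metric.ball_subset_closedBall.trans hVt
  have hN : IsCompact (Metric.closedBall p₀ r) := isCompact_closedBall p₀ r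
  obtain ⟨ci, Ci, hci, hCi, hnm⟩ := hI d m X F hF hFi z (Metric.closedBall p₀ r) hN
    (by rw [← he]; exact hVt)
  have hW : IsOpen (e.source ∩ e ⁻¹' Metric.ball p₀ (r / 2)) :=
    e.isOpen_inter_preimage Metric.isOpen_ball
  have hO : IsOpen (e.source ∩ e ⁻¹' Metric.ball p₀ r) :=
    e.isOpen_inter_preimage Metric.isOpen_ball
  obtain ⟨W, hWd⟩ : ∃ W, W = e.source ∩ e ⁻¹' Metric.ball p₀ (r / 2) := ⟨_, rfl⟩
  obtain ⟨O, hOd⟩ : ∃ O, O = e.source ∩ e ⁻¹' Metric.ball p₀ r := ⟨_, rfl⟩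
  rw [← hWd] at hW
  rw [← hOd] at hO
  have heO : e '' O = Metric.ball p₀ r := by
    apply Subset.antisymm
    · rintro _ ⟨x, hx, rfl⟩
      rw [hOd] at hx
      exact hx.2
    · intro p hp
      refine ⟨e.symm p, ?_, e.right_inv (hV hp)⟩
      rw [hOd]
      refine ⟨e.map_target (hV hp), ?_⟩
      rw [mem_preimage, e.right_inv (hV hp)]
      exact hp
  have hOs : O ⊆ e.source := by rw [hOd]; exact inter_subset_left
  have hWO : W ⊆ O := by
    rw [hWd, hOd]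
    exact inter_subset_inter_right _ (preimage_mono (Metric.ball_subset_ball (by linarith)))
  have hWs : ∀ p ∈ Metric.ball p₀ r, e.symm p ∈ W ↔ p ∈ Metric.ball p₀ (r / 2) := by
    intro p hp
    rw [hWd]
    constructor
    · rintro ⟨_, h⟩
      rwa [mem_preimage, e.right_inv (hV hp)] at h
    · intro h
      refine ⟨e.map_target (hV hp), ?_⟩
      rwa [mem_preimage, e.right_inv (hV hp)]
  -- the cut-off function
  obtain ⟨χ, hχ⟩ : ∃ χ : ContDiffBump p₀, χ.rOut = r / 2 :=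
    ⟨⟨r / 4, r / 2, by positivity, by linarith⟩, rfl⟩
  have hχt : tsupport χ = Metric.closedBall p₀ (r / 2) := by rw [χ.tsupport_eq, hχ]
  have hχ0 : ∀ p, χ p = 0 ↔ p ∉ Metric.ball p₀ (r / 2) := by
    intro p
    rw [← hχ, ← χ.support_eq, Function.notMem_support]
  have htV : Metric.closedBall p₀ (r / 2) ⊆ Metric.ball p₀ r :=
    Metric.closedBall_subset_ball (by linarith)
  refine ⟨W, hW, ?_, ?_⟩
  · rw [hWd]
    refine ⟨hzs, ?_⟩
    rw [mem_preimage, hez]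
    exact Metric.mem_ball_self (by linarith)
  intro K N β w hK hNK hNull hUT
  obtain ⟨c₁, hc₁, hwc⟩ := hUT.pos
  obtain ⟨c₂, hc₂, hwe⟩ := hUT.ecc
  obtain ⟨k, hk⟩ : ∃ k, k = Metric.ball p₀ r ∩ e.symm ⁻¹' K := ⟨_, rfl⟩
  have hVk : Metric.ball p₀ r \ k = Metric.ball p₀ r ∩ e.symm ⁻¹' Kᶜ := by
    rw [hk]
    ext p
    simp only [Set.mem_sdiff, mem_inter_iff, mem_preimage, mem_compl_iff]
    tauto
  have hVko : IsOpen (Metric.ball p₀ r \ k) := by
    rw [hVk]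
    have h1 : IsOpen (e.target ∩ e.symm ⁻¹' Kᶜ) := e.isOpen_inter_preimage_symm hK.isOpen_compl
    have h2 : Metric.ball p₀ r ∩ e.symm ⁻¹' Kᶜ = Metric.ball p₀ r ∩ (e.target ∩ e.symm ⁻¹' Kᶜ) := by
      rw [← inter_assoc, inter_eq_left.2 hV]
    rw [h2]
    exact Metric.isOpen_ball.inter h1
  have hsK : ∀ p ∈ Metric.ball p₀ r \ k, e.symm p ∉ K := by
    intro p hp
    rw [hVk] at hp
    exact hp.2
  obtain ⟨n, hn⟩ : ∃ n, n = Metric.ball p₀ r ∩ e.symm ⁻¹' N := ⟨_, rfl⟩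
  have hnk : n ⊆ k := by
    rw [hn, hk]
    exact inter_subset_inter_right _ (preimage_mono hNK)
  have hsN : ∀ p ∈ Metric.ball p₀ r \ n, e.symm p ∉ N := by
    intro p hp h
    rw [hn] at hp
    exact hp.2 ⟨hp.1, h⟩
  have hn0 : ∀ Q : Set (E d), IsCompact Q → Q ⊆ Metric.ball p₀ r → volume (n ∩ Q) = 0 := by
    intro Q _ _
    refine measure_mono_null ?_ (hNull z)
    rintro p ⟨hpn, -⟩
    rw [hn] at hpn
    rw [← he]
    exact ⟨hV hpn.1, hpn.2⟩
  have hsymm : ContMDiffOn (𝓡 d) (𝓡 d) ∞ (chartAt (E d) z).symm (Metric.ball p₀ r) :=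
    contMDiffOn_chart_symm.mono (by rw [← he]; exact hV)
  have hs1 : ContDiffOn ℝ ∞ (pb (chartAt (E d) z).symm w) (Metric.ball p₀ r \ k) :=
    hUT.smooth _ _ hVko (hsymm.mono sdiff_subset) (by rw [← he]; exact hsK)
  have hb1 : ContDiffOn ℝ ∞ (pb (chartAt (E d) z).symm β) (Metric.ball p₀ r \ k) :=
    hUT.smβ _ _ hVko (hsymm.mono sdiff_subset) (by rw [← he]; exact hsK)
  have hs2 : ∀ p ∈ Metric.ball p₀ r \ k, extDeriv (pb (chartAt (E d) z).symm β) p =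
      pb (chartAt (E d) z).symm w p - pb (chartAt (E d) z).symm σ₀ p := fun p hp =>
    hUT.isD _ _ hVko (hsymm.mono sdiff_subset) (by rw [← he]; exact hsK) p hp
  have hs₀ : ContDiffOn ℝ ∞ (pb (chartAt (E d) z).symm σ₀) (Metric.ball p₀ r) :=
    hσ₀ _ _ Metric.isOpen_ball hsymm
  have hs₀c : ∀ p ∈ Metric.ball p₀ r, extDeriv (pb (chartAt (E d) z).symm σ₀) p = 0 := by
    intro p hp
    rw [hσ₀c _ _ Metric.isOpen_ball hsymm p hp, pb_zero]
    rfl
  have hs4 : ∀ p ∈ Metric.ball p₀ r \ n, ∀ v : E d,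
      min (c₁ * ci ^ 2) (c₂ * ci ^ 2 / Ci ^ 2) / 2 * (1 + ‖pb (chartAt (E d) z).symm w p‖) *
        ‖v‖ ^ 2 ≤ pb (chartAt (E d) z).symm w p ![v, inChart J z p v] := by
    intro p hp v
    have hpc : p ∈ Metric.closedBall p₀ r := Metric.ball_subset_closedBall hp.1
    have hpK : (chartAt (E d) z).symm p ∉ N := by rw [← he]; exact hsN p hp
    refine to_chart (q := fun v => pb (chartAt (E d) z).symm w p ![v, inChart J z p v])
      (n := fun v => nm F ((chartAt (E d) z).symm p)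
        (mfderiv (𝓡 d) (𝓡 d) (chartAt (E d) z).symm p v)) hci hCi hc₁ hc₂ (hnm p hpc) ?_ ?_ v
    · intro v
      have h0 := Pool.Agent.Y455.SY.Q_eq w J z (p := p) (by rw [← he]; exact hV hp.1) v
      unfold Pool.Agent.Y455.SY.Q at h0
      rw [h0]
      exact hwc ((chartAt (E d) z).symm p) hpK (Pool.Agent.Y455.SY.A z p v)
    · intro v u u'
      have h0 := Pool.Agent.Y455.SY.Q_eq w J z (p := p) (by rw [← he]; exact hV hp.1) v
      unfold Pool.Agent.Y455.SY.Q at h0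
      rw [h0, pb_app2]
      exact hwe ((chartAt (E d) z).symm p) hpK (Pool.Agent.Y455.SY.A z p v)
        (Pool.Agent.Y455.SY.A z p u) (Pool.Agent.Y455.SY.A z p u')
  have hJc : ContinuousOn (inChart J z) (Metric.ball p₀ r) := (hJ.cont z).mono (by
    rw [← he]; exact hV)
  have hcc : 0 < min (c₁ * ci ^ 2) (c₂ * ci ^ 2 / Ci ^ 2) / 2 :=
    half_pos (lt_min (by positivity) (by positivity))
  obtain ⟨b', s', c', hc', g1, g2, g3, g4, g4', g5, g6⟩ := regC hSm hHH (V := Metric.ball p₀ r)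
    (k := k) (N := n)
    (χ := χ) (s₀ := pb (chartAt (E d) z).symm σ₀) (s := pb (chartAt (E d) z).symm w)
    (b := pb (chartAt (E d) z).symm β) (Js := inChart J z)
    (c := min (c₁ * ci ^ 2) (c₂ * ci ^ 2 / Ci ^ 2) / 2) hcc
    Metric.isOpen_ball hVko hnk hn0 (fun p hp => hUT.lp z p (by rw [← he]; exact hV hp))
    χ.contDiff (fun p => χ.nonneg) χ.hasCompactSupport
    (by rw [hχt]; exact htV) hs₀ hs₀c hb1 hs1 hs2 hJc hs4
  obtain ⟨β₁, w₁, f1, f2, f3, hlc, hout, f4⟩ := patchC (z := z) hPa hPp hσ₀ hσ₀c hr (by rw [← hp₀]; exact hball)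
    (χ := χ) (by rw [← hp₀]; exact hχ0) hK hUT.smβ hUT.smooth hUT.isD hUT.lp
    (b' := b') (s' := s')
    (by rw [← hp₀, ← he, ← hk]; exact g1) (by rw [← hp₀, ← he, ← hk]; exact g2)
    (by rw [← hp₀, ← he, ← hk]; rw [← he] at g3; exact g3)
    g4 g4' (by rw [← hp₀]; exact g6) (W := W) (O := O)
    (by rw [← hp₀, ← he]; exact hWd) (by rw [← hp₀, ← he]; exact hOd)
  rw [← hp₀] at f4
  have hin : ∀ x ∈ O, x ∉ N \ W → ∃ p ∈ Metric.ball p₀ r \ (n ∩ {p | χ p = 0}), e.symm p = x := by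
    intro x hx hx2
    have hxb : e x ∈ Metric.ball p₀ r := by
      rw [← heO]
      exact ⟨x, hx, rfl⟩
    refine ⟨e x, ⟨hxb, ?_⟩, e.left_inv (hOs hx)⟩
    rintro ⟨h1, h2⟩
    apply hx2
    rw [hn] at h1
    have h3 : e.symm (e x) ∈ N := h1.2
    rw [e.left_inv (hOs hx)] at h3
    refine ⟨h3, fun h4 => ?_⟩
    have h5 := (hχ0 (e x)).1 h2
    rw [← hWs _ hxb, e.left_inv (hOs hx)] at h5
    exact h5 h4
  -- the pointwise comparison in the chart
  have hloc : ∀ x ∈ O, x ∉ N \ W → ∀ v u w' : TangentSpace (𝓡 d) x,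
      c' * Ci⁻¹ ^ 2 * nm F x v ^ 2 ≤ w₁ x ![v, J x v] ∧
      c' * ci ^ 2 * Ci⁻¹ ^ 2 * |w₁ x ![u, w']| * nm F x v ^ 2 ≤
        w₁ x ![v, J x v] * (nm F x u * nm F x w') := by
    intro x hxO hx v u w'
    obtain ⟨p, hp, rfl⟩ := hin x hxO hx
    have hpc : p ∈ Metric.closedBall p₀ r := Metric.ball_subset_closedBall hp.1
    have hpt : p ∈ (chartAt (E d) z).target := by rw [← he]; exact hV hp.1
    subst he
    have hv := Pool.Agent.Y455.SY.AB z hpt v
    have hu := Pool.Agent.Y455.SY.AB z hpt u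
    have hw := Pool.Agent.Y455.SY.AB z hpt w'
    obtain ⟨v', hv'⟩ : ∃ v', v' = Pool.Agent.Y455.SY.B z p v := ⟨_, rfl⟩
    obtain ⟨u', hu'⟩ : ∃ u', u' = Pool.Agent.Y455.SY.B z p u := ⟨_, rfl⟩
    obtain ⟨w'', hw''⟩ : ∃ w'', w'' = Pool.Agent.Y455.SY.B z p w' := ⟨_, rfl⟩
    rw [← hv'] at hv
    rw [← hu'] at hu
    rw [← hw''] at hw
    have hf4 := f4 p hp.1
    have h1 : w₁ ((chartAt (E d) z).symm p) ![u, w'] = s' p ![u', w''] := by
      rw [← hf4, pb_app2]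
      change _ = w₁ ((chartAt (E d) z).symm p) ![Pool.Agent.Y455.SY.A z p u',
        Pool.Agent.Y455.SY.A z p w'']
      rw [hu, hw]
    have h0 := Pool.Agent.Y455.SY.Q_eq (w₁) J z hpt v'
    unfold Pool.Agent.Y455.SY.Q at h0
    rw [hv, hf4] at h0
    have hq := g5 p hp v'
    rw [h0] at hq
    have n1 : 0 ≤ nm F ((chartAt (E d) z).symm p) v := norm_nonneg _
    have n2 : 0 ≤ nm F ((chartAt (E d) z).symm p) u := norm_nonneg _
    have n3 : 0 ≤ nm F ((chartAt (E d) z).symm p) w' := norm_nonneg _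
    have hv4 := (hnm p hpc v').2
    change nm F ((chartAt (E d) z).symm p) (Pool.Agent.Y455.SY.A z p v') ≤ Ci * ‖v'‖ at hv4
    rw [hv] at hv4
    have hu4 := (hnm p hpc u').1
    change ci * ‖u'‖ ≤ nm F ((chartAt (E d) z).symm p) (Pool.Agent.Y455.SY.A z p u') at hu4
    rw [hu] at hu4
    have hw4 := (hnm p hpc w'').1
    change ci * ‖w''‖ ≤ nm F ((chartAt (E d) z).symm p) (Pool.Agent.Y455.SY.A z p w'') at hw4
    rw [hw] at hw4
    have h6 : Ci⁻¹ * nm F ((chartAt (E d) z).symm p) v ≤ ‖v'‖ := by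
      rw [inv_mul_eq_div, div_le_iff₀ hCi, mul_comm]
      exact hv4
    have h7 : (Ci⁻¹ * nm F ((chartAt (E d) z).symm p) v) ^ 2 ≤ ‖v'‖ ^ 2 :=
      pow_le_pow_left₀ (by positivity) h6 2
    have hb : 0 ≤ c' * ‖v'‖ ^ 2 := by positivity
    have hs0 := norm_nonneg (s' p)
    refine ⟨?_, ?_⟩
    · refine le_trans ?_ hq
      calc c' * Ci⁻¹ ^ 2 * nm F ((chartAt (E d) z).symm p) v ^ 2
          = c' * (Ci⁻¹ * nm F ((chartAt (E d) z).symm p) v) ^ 2 := by ring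
        _ ≤ c' * ‖v'‖ ^ 2 := by gcongr
        _ ≤ c' * (1 + ‖s' p‖) * ‖v'‖ ^ 2 := by nlinarith
    · rw [h1]
      have h8 := le_norm2 (s' p) u' w''
      have h9 : c' * ‖s' p‖ * ‖v'‖ ^ 2 ≤ w₁ ((chartAt (E d) z).symm p) ![v,
          J ((chartAt (E d) z).symm p) v] := by
        refine le_trans ?_ hq
        nlinarith
      calc c' * ci ^ 2 * Ci⁻¹ ^ 2 * |s' p ![u', w'']| *
            nm F ((chartAt (E d) z).symm p) v ^ 2
          = (c' * ci ^ 2) * |s' p ![u', w'']| *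
            (Ci⁻¹ * nm F ((chartAt (E d) z).symm p) v) ^ 2 := by ring
        _ ≤ (c' * ci ^ 2) * (‖s' p‖ * ‖u'‖ * ‖w''‖) * ‖v'‖ ^ 2 := by gcongr
        _ = (c' * ‖s' p‖ * ‖v'‖ ^ 2) * ((ci * ‖u'‖) * (ci * ‖w''‖)) := by ring
        _ ≤ _ := by
          refine mul_le_mul h9 (mul_le_mul hu4 hw4 (by positivity) n2) (by positivity) ?_
          exact le_trans (by positivity) h9
  refine ⟨β₁, w₁, f1, f2, f3, hlc, ?_, ?_⟩
  · refine ⟨min c₁ (c' * Ci⁻¹ ^ 2), lt_min hc₁ (by positivity), ?_⟩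
    intro x hx v
    by_cases hxO : x ∈ O
    · refine le_trans ?_ (hloc x hxO hx v v v).1
      have := min_le_right c₁ (c' * Ci⁻¹ ^ 2)
      gcongr
    · rw [hout x hxO]
      have hxK : x ∉ N := fun h => hx ⟨h, fun h' => hxO (hWO h')⟩
      refine le_trans ?_ (hwc x hxK v)
      have := min_le_left c₁ (c' * Ci⁻¹ ^ 2)
      gcongr
  · refine ⟨min c₂ (c' * ci ^ 2 * Ci⁻¹ ^ 2), lt_min hc₂ (by positivity), ?_⟩
    intro x hx v u w'
    by_cases hxO : x ∈ O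
    · refine le_trans ?_ (hloc x hxO hx v u w').2
      have := min_le_right c₂ (c' * ci ^ 2 * Ci⁻¹ ^ 2)
      gcongr
    · rw [hout x hxO]
      have hxK : x ∉ N := fun h => hx ⟨h, fun h' => hxO (hWO h')⟩
      refine le_trans ?_ (hwe x hxK v u w')
      have := min_le_left c₂ (c' * ci ^ 2 * Ci⁻¹ ^ 2)
      gcongr

end

end Pool.Agent.U896.SC
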